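import Mathlib

set_option autoImplicit false

/-!
# Averages of products of periodic functions, and comparison with the independent model
-/

namespace Pool.Agent.W2helper64.WJ

open Finset Filter
open scoped Classical Topology

section av
variable {𝕜 : Type*} [RCLike 𝕜]

/-- the average over `1 ≤ a ≤ N` -/
noncomputable def av (N : ℕ) (f : ℕ → 𝕜) : 𝕜 := (∑ i ∈ range N, f (i + 1)) / (N : 𝕜)

lemma av_eq (N : ℕ) (f : ℕ → 𝕜) : av N f = (∑ a ∈ Icc 1 N, f a) / (N : 𝕜) := by
  unfold av
  congr 1
  rw [range_eq_Ico, sum_Ico_add' (fun a => f a) 0 N 1]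
  apply sum_congr _ (fun _ _ => rfl)
  ext a
  simp only [mem_Ico, mem_Icc]
  omega

lemma av_add (N : ℕ) (f g : ℕ → 𝕜) : av N (fun a => f a + g a) = av N f + av N g := by
  unfold av
  rw [sum_add_distrib, add_div]

lemma av_sub (N : ℕ) (f g : ℕ → 𝕜) : av N (fun a => f a - g a) = av N f - av N g := by
  unfold av
  rw [sum_sub_distrib, sub_div]

lemma av_sum {ι : Type*} (s : Finset ι) (N : ℕ) (f : ι → ℕ → 𝕜) :
    av N (fun a => ∑ i ∈ s, f i a) = ∑ i ∈ s, av N (f i) := by
  unfold av
  rw [sum_comm, sum_div]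

lemma av_mul_left (N : ℕ) (c : 𝕜) (f : ℕ → 𝕜) : av N (fun a => c * f a) = c * av N f := by
  unfold av
  rw [← mul_sum, mul_div_assoc]

lemma av_const {N : ℕ} (hN : 0 < N) (c : 𝕜) : av N (fun _ => c) = c := by
  unfold av
  rw [sum_const, card_range, nsmul_eq_mul]
  have : (N : 𝕜) ≠ 0 := by exact_mod_cast hN.ne'
  field_simp

lemma norm_av_le (N : ℕ) (f : ℕ → 𝕜) : ‖av N f‖ ≤ av N (fun a => ‖f a‖) := by
  unfold av
  rw [norm_div, RCLike.norm_natCast]
  exact div_le_div_of_nonneg_right (norm_sum_le _ _) (Nat.cast_nonneg _)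

lemma sum_shift_block (f : ℕ → 𝕜) {D : ℕ} (per : ∀ a, f (a + D) = f a) (q : ℕ) :
    ∑ i ∈ range (q * D), f (i + 1) = (q : 𝕜) * ∑ i ∈ range D, f (i + 1) := by
  have hper : ∀ k a, f (k * D + a) = f a := by
    intro k
    induction k with
    | zero => intro a; simp
    | succ k ih =>
      intro a
      have : (k + 1) * D + a = k * D + a + D := by ring
      rw [this, per, ih]
  induction q with
  | zero => simp
  | succ q ih =>
    have h1 : (q + 1) * D = q * D + D := by ring
    rw [h1, sum_range_add, ih]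
    have h2 : ∑ x ∈ range D, f (q * D + x + 1) = ∑ i ∈ range D, f (i + 1) := by
      apply sum_congr rfl
      intro i _
      rw [add_assoc, hper]
    rw [h2]
    push_cast
    ring

lemma av_block (f : ℕ → 𝕜) {D : ℕ} (per : ∀ a, f (a + D) = f a) {q : ℕ} (hq : 0 < q) :
    av (q * D) f = av D f := by
  unfold av
  rw [sum_shift_block f per]
  have : (q : 𝕜) ≠ 0 := by exact_mod_cast hq.ne'
  push_cast
  rw [mul_div_mul_left _ _ this]

lemma av_close (f : ℕ → 𝕜) {D : ℕ} (hD : 0 < D) (per : ∀ a, f (a + D) = f a) {B : ℝ}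
    (hB : ∀ a, ‖f a‖ ≤ B) {X : ℕ} (hX : 0 < X) : ‖av X f - av D f‖ ≤ 2 * B * D / X := by
  have hB0 : 0 ≤ B := (norm_nonneg _).trans (hB 0)
  have hXr : (0 : ℝ) < X := by exact_mod_cast hX
  have hDr : (0 : ℝ) < D := by exact_mod_cast hD
  set q := X / D with hq
  set r := X % D with hr
  have hqr : X = q * D + r := by rw [hq, hr, mul_comm]; exact (Nat.div_add_mod X D).symm
  have hrD : r < D := Nat.mod_lt _ hD
  set S : 𝕜 := ∑ i ∈ range D, f (i + 1) with hS
  have hSn : ‖S‖ ≤ D * B := by
    refine (norm_sum_le _ _).trans ?_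
    refine (sum_le_sum (fun i _ => hB (i + 1))).trans ?_
    rw [sum_const, card_range, nsmul_eq_mul]
  have h1 : ∑ i ∈ range X, f (i + 1) = q * S + ∑ i ∈ range r, f (q * D + i + 1) := by
    conv_lhs => rw [hqr]
    rw [sum_range_add, sum_shift_block f per]
  set R : 𝕜 := ∑ i ∈ range r, f (q * D + i + 1) with hR
  have hRn : ‖R‖ ≤ r * B := by
    refine (norm_sum_le _ _).trans ?_
    refine (sum_le_sum (fun i _ => hB (q * D + i + 1))).trans ?_
    rw [sum_const, card_range, nsmul_eq_mul]
  have hX0 : (X : 𝕜) ≠ 0 := by exact_mod_cast hX.ne'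
  have hD0 : (D : 𝕜) ≠ 0 := by exact_mod_cast hD.ne'
  have h2 : av X f - av D f = (R - ((r : 𝕜) / D) * S) / X := by
    unfold av
    rw [h1]
    have h3 : (X : 𝕜) = q * D + r := by exact_mod_cast hqr
    field_simp
    rw [h3]
    ring
  rw [h2, norm_div, RCLike.norm_natCast]
  apply div_le_div_of_nonneg_right _ hXr.le
  refine (norm_sub_le _ _).trans ?_
  rw [norm_mul, norm_div, RCLike.norm_natCast, RCLike.norm_natCast]
  have hr' : (r : ℝ) ≤ D := by exact_mod_cast hrD.le
  have h4 : (r : ℝ) / D * ‖S‖ ≤ r * B := by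
    rw [div_mul_eq_mul_div, div_le_iff₀ hDr]
    calc (r : ℝ) * ‖S‖ ≤ r * (D * B) := mul_le_mul_of_nonneg_left hSn (Nat.cast_nonneg _)
      _ = r * B * D := by ring
  have h5 : (r : ℝ) * B ≤ D * B := mul_le_mul_of_nonneg_right hr' hB0
  linarith

/-- Chinese remainder theorem for averages -/
lemma av_crt (f g : ℕ → 𝕜) {m n : ℕ} (hm : 0 < m) (hn : 0 < n) (hmn : Nat.Coprime m n)
    (pf : ∀ a, f (a + m) = f a) (pg : ∀ a, g (a + n) = g a) :
    av (m * n) (fun a => f a * g a) = av m f * av n g := by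
  have hf : ∀ a, f (a % m + 1) = f (a + 1) := by
    intro a
    have hper : Function.Periodic (fun a => f (a + 1)) m := fun a => by
      have : a + m + 1 = a + 1 + m := by ring
      simp only [this, pf]
    exact hper.map_mod_nat a
  have hg : ∀ a, g (a % n + 1) = g (a + 1) := by
    intro a
    have hper : Function.Periodic (fun a => g (a + 1)) n := fun a => by
      have : a + n + 1 = a + 1 + n := by ring
      simp only [this, pg]
    exact hper.map_mod_nat a
  have key : ∑ i ∈ range (m * n), f (i + 1) * g (i + 1) =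
      (∑ i ∈ range m, f (i + 1)) * ∑ j ∈ range n, g (j + 1) := by
    rw [sum_mul_sum, ← sum_product']
    refine sum_bij (fun a _ => (a % m, a % n)) ?_ ?_ ?_ ?_
    · intro a _
      rw [mem_product, mem_range, mem_range]
      exact ⟨Nat.mod_lt _ hm, Nat.mod_lt _ hn⟩
    · intro a ha c hc h
      rw [mem_range] at ha hc
      have h1 : a ≡ c [MOD m] := congrArg Prod.fst h
      have h2 : a ≡ c [MOD n] := congrArg Prod.snd h
      have h3 := (Nat.modEq_and_modEq_iff_modEq_mul hmn).1 ⟨h1, h2⟩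
      exact Nat.ModEq.eq_of_lt_of_lt h3 ha hc
    · rintro ⟨u, v⟩ huv
      rw [mem_product, mem_range, mem_range] at huv
      obtain ⟨k, hk1, hk2⟩ := Nat.chineseRemainder hmn u v
      have e1 : (k % (m * n)) % m = u := by
        rw [Nat.mod_mul_right_mod, hk1, Nat.mod_eq_of_lt huv.1]
      have e2 : (k % (m * n)) % n = v := by
        rw [Nat.mod_mul_left_mod, hk2, Nat.mod_eq_of_lt huv.2]
      refine ⟨k % (m * n), ?_, ?_⟩
      · rw [mem_range]
        exact Nat.mod_lt _ (Nat.mul_pos hm hn)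
      · simp only [e1, e2]
    · intro a _
      simp only [hf, hg]
  unfold av
  rw [key]
  push_cast
  rw [div_mul_div_comm]

/-- the modulus -/
def MM (P : Finset ℕ) : ℕ := ∏ p ∈ P, p ^ 2

lemma MM_pos {P : Finset ℕ} (hP : ∀ p ∈ P, p.Prime) : 0 < MM P :=
  prod_pos fun p hp => pow_pos (hP p hp).pos 2

omit [RCLike 𝕜] in
lemma per_mul {f : ℕ → 𝕜} {D : ℕ} (per : ∀ a, f (a + D) = f a) (k : ℕ) (a : ℕ) :
    f (a + k * D) = f a := by
  induction k with
  | zero => simp
  | succ k ih =>
    have : a + (k + 1) * D = a + k * D + D := by ring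
    rw [this, per, ih]

omit [RCLike 𝕜] in
lemma per_dvd {f : ℕ → 𝕜} {D M : ℕ} (per : ∀ a, f (a + D) = f a) (h : D ∣ M) (a : ℕ) :
    f (a + M) = f a := by
  obtain ⟨k, rfl⟩ := h
  rw [mul_comm, per_mul per]

lemma dvd_MM {P : Finset ℕ} {p : ℕ} (hp : p ∈ P) : p ^ 2 ∣ MM P :=
  dvd_prod_of_mem (fun p : ℕ => p ^ 2) hp

lemma prod_per (P : Finset ℕ) (f : ℕ → ℕ → 𝕜) (pf : ∀ p ∈ P, ∀ a, f p (a + p ^ 2) = f p a) (a : ℕ) :
    ∏ p ∈ P, f p (a + MM P) = ∏ p ∈ P, f p a :=
  prod_congr rfl fun p hp => per_dvd (pf p hp) (dvd_MM hp) a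

/-- **independence over a full period** -/
lemma av_prod (P : Finset ℕ) (hP : ∀ p ∈ P, p.Prime) (f : ℕ → ℕ → 𝕜)
    (pf : ∀ p ∈ P, ∀ a, f p (a + p ^ 2) = f p a) :
    av (MM P) (fun a => ∏ p ∈ P, f p a) = ∏ p ∈ P, av (p ^ 2) (f p) := by
  induction P using Finset.induction_on with
  | empty =>
    simp only [prod_empty, MM]
    exact av_const one_pos 1
  | insert q P hq ih =>
    have hP' : ∀ p ∈ P, p.Prime := fun p hp => hP p (mem_insert_of_mem hp)
    have pf' : ∀ p ∈ P, ∀ a, f p (a + p ^ 2) = f p a := fun p hp => pf p (mem_insert_of_mem hp)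
    have hM : MM (insert q P) = q ^ 2 * MM P := by unfold MM; rw [prod_insert hq]
    have hco : Nat.Coprime (q ^ 2) (MM P) := by
      unfold MM
      apply Nat.Coprime.prod_right
      intro p hp
      refine Nat.Coprime.pow 2 2 ((Nat.coprime_primes (hP q (mem_insert_self _ _)) (hP' p hp)).2 ?_)
      rintro rfl
      exact hq hp
    rw [hM, prod_insert hq, ← ih hP' pf']
    have h1 : (fun a => ∏ p ∈ insert q P, f p a) = fun a => f q a * ∏ p ∈ P, f p a := by
      funext a
      rw [prod_insert hq]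
    rw [h1]
    exact av_crt (f q) (fun a => ∏ p ∈ P, f p a) (pow_pos (hP q (mem_insert_self _ _)).pos 2)
      (MM_pos hP') hco (pf q (mem_insert_self _ _)) (prod_per P f pf')

end av

lemma av_nonneg {N : ℕ} {f : ℕ → ℝ} (h : ∀ a, 0 ≤ f a) : 0 ≤ av N f := by
  unfold av
  exact div_nonneg (sum_nonneg fun i _ => h _) (Nat.cast_nonneg _)

lemma av_mono {N : ℕ} {f g : ℕ → ℝ} (h : ∀ a, f a ≤ g a) : av N f ≤ av N g := by
  unfold av
  exact div_le_div_of_nonneg_right (sum_le_sum fun i _ => h _) (Nat.cast_nonneg _)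

lemma av_ofReal (N : ℕ) (f : ℕ → ℝ) : ((av N f : ℝ) : ℂ) = av N (fun a => (f a : ℂ)) := by
  unfold av
  push_cast
  rfl

/-- **moments agree with those of the model** -/
lemma moment_close (P : Finset ℕ) (hP : ∀ p ∈ P, p.Prime) {z : ℕ} (hz : ∀ p ∈ P, p ≤ z)
    (hz1 : 1 ≤ z) (ξ : ℕ → ℕ → ℝ) {C : ℝ} (hC : ∀ p a, |ξ p a| ≤ C)
    (pf : ∀ p ∈ P, ∀ a, ξ p (a + p ^ 2) = ξ p a) (k : ℕ) {X : ℕ} (hX : 0 < X) :
    |av X (fun a => (∑ p ∈ P, ξ p a) ^ k) - av (MM P) (fun a => (∑ p ∈ P, ξ p a) ^ k)| ≤
      2 * (C * P.card * (z : ℝ) ^ 2) ^ k / X := by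
  have hC0 : 0 ≤ C := (abs_nonneg _).trans (hC 0 0)
  have hXr : (0 : ℝ) < X := by exact_mod_cast hX
  have e1 : (fun a => (∑ p ∈ P, ξ p a) ^ k) = fun a =>
      ∑ φ ∈ Fintype.piFinset (fun _ : Fin k => P), ∏ i, ξ (φ i) a := by
    funext a
    rw [sum_pow']
  rw [e1, av_sum, av_sum, ← sum_sub_distrib]
  have h1 : ∀ φ ∈ Fintype.piFinset (fun _ : Fin k => P),
      |av X (fun a => ∏ i, ξ (φ i) a) - av (MM P) (fun a => ∏ i, ξ (φ i) a)| ≤
        2 * C ^ k * (z : ℝ) ^ (2 * k) / X := by
    intro φ hφ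
    rw [Fintype.mem_piFinset] at hφ
    set Q : Finset ℕ := univ.image φ with hQ
    have hQP : Q ⊆ P := by
      intro p hp
      rw [hQ, mem_image] at hp
      obtain ⟨i, _, rfl⟩ := hp
      exact hφ i
    have hper : ∀ a, ∏ i, ξ (φ i) (a + MM Q) = ∏ i, ξ (φ i) a := by
      intro a
      apply prod_congr rfl
      intro i _
      exact per_dvd (pf (φ i) (hφ i)) (dvd_MM (mem_image_of_mem φ (mem_univ i))) a
    have hQ0 : 0 < MM Q := MM_pos fun p hp => hP p (hQP hp)
    have hb : ∀ a, ‖∏ i, ξ (φ i) a‖ ≤ C ^ k := by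
      intro a
      rw [norm_prod]
      refine (Finset.prod_le_prod (fun i _ => norm_nonneg _) (fun i _ => hC (φ i) a)).trans ?_
      rw [prod_const, card_univ, Fintype.card_fin]
    have h2 := av_close (fun a => ∏ i, ξ (φ i) a) hQ0 hper hb hX
    obtain ⟨q, hq⟩ : MM Q ∣ MM P := by
      unfold MM
      exact prod_dvd_prod_of_subset _ _ _ hQP
    have hq0 : 0 < q := by
      have := MM_pos hP
      rw [hq] at this
      exact Nat.pos_of_mul_pos_left this |> fun h => by
        rcases Nat.eq_zero_or_pos q with h0 | h0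
        · rw [h0, mul_zero] at this; exact absurd this (lt_irrefl _)
        · exact h0
    have h3 : av (MM P) (fun a => ∏ i, ξ (φ i) a) = av (MM Q) (fun a => ∏ i, ξ (φ i) a) := by
      rw [hq, mul_comm]
      exact av_block _ hper hq0
    rw [h3]
    have h4 : (MM Q : ℝ) ≤ (z : ℝ) ^ (2 * k) := by
      unfold MM
      push_cast
      have hz1' : (1 : ℝ) ≤ z := by exact_mod_cast hz1
      calc ∏ p ∈ Q, (p : ℝ) ^ 2 ≤ ∏ _p ∈ Q, (z : ℝ) ^ 2 := by
            apply Finset.prod_le_prod
            · intro p _; positivity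
            · intro p hp
              have : (p : ℝ) ≤ z := by exact_mod_cast hz p (hQP hp)
              exact pow_le_pow_left₀ (Nat.cast_nonneg _) this 2
        _ = (z : ℝ) ^ (2 * Q.card) := by rw [prod_const, ← pow_mul]
        _ ≤ _ := by
            apply pow_le_pow_right₀ hz1'
            have : Q.card ≤ k := by
              rw [hQ]
              refine card_image_le.trans ?_
              simp
            omega
    rw [Real.norm_eq_abs] at h2
    refine h2.trans ?_
    apply div_le_div_of_nonneg_right _ hXr.le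
    exact mul_le_mul_of_nonneg_left h4 (by positivity)
  refine (abs_sum_le_sum_abs _ _).trans ((sum_le_sum h1).trans ?_)
  rw [sum_const, nsmul_eq_mul, Fintype.card_piFinset]
  simp only [prod_const, card_univ, Fintype.card_fin]
  push_cast
  apply le_of_eq
  rw [mul_pow, mul_pow, ← pow_mul]
  ring

/-- Taylor bound for `e^{ix}` -/
lemma exp_taylor (K : ℕ) (x : ℝ) :
    ‖Complex.exp (x * Complex.I) - ∑ k ∈ range K, ((x : ℂ) * Complex.I) ^ k / (k.factorial : ℂ)‖ ≤
      |x| ^ K / K.factorial := by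
  have key : ∀ (K : ℕ) (s : ℝ), |s| ≤ 1 → ∀ x : ℝ, 0 ≤ x →
      ‖Complex.exp (s * x * Complex.I) -
        ∑ k ∈ range K, ((s : ℂ) * x * Complex.I) ^ k / (k.factorial : ℂ)‖ ≤
      x ^ K / K.factorial := by
    intro K
    induction K with
    | zero =>
      intro s _ x _
      simp only [range_zero, sum_empty, sub_zero, pow_zero, Nat.factorial_zero, Nat.cast_one,
        div_one]
      have : (s : ℂ) * x * Complex.I = ((s * x : ℝ) : ℂ) * Complex.I := by push_cast; ring
      rw [this, Complex.norm_exp_ofReal_mul_I]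
    | succ K ih =>
      intro s hs x hx
      have hderiv : ∀ y : ℝ, HasDerivAt (fun y : ℝ => Complex.exp (s * y * Complex.I) -
          ∑ k ∈ range (K + 1), ((s : ℂ) * y * Complex.I) ^ k / (k.factorial : ℂ))
          (s * Complex.I * (Complex.exp (s * y * Complex.I) -
          ∑ k ∈ range K, ((s : ℂ) * y * Complex.I) ^ k / (k.factorial : ℂ))) y := by
        intro y
        have h0 : HasDerivAt (fun y : ℝ => (s : ℂ) * y * Complex.I) (s * Complex.I) y := by
          have h1 : HasDerivAt (fun y : ℝ => (y : ℂ)) 1 y := Complex.ofRealCLM.hasDerivAt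
          have h2 := (h1.const_mul (s : ℂ)).mul_const Complex.I
          simpa using h2
        have h1 : HasDerivAt (fun y : ℝ => Complex.exp (s * y * Complex.I))
            (Complex.exp (s * y * Complex.I) * (s * Complex.I)) y := h0.cexp
        have h2 : ∀ k ∈ range (K + 1), HasDerivAt
            (fun y : ℝ => ((s : ℂ) * y * Complex.I) ^ k / (k.factorial : ℂ))
            (k * ((s : ℂ) * y * Complex.I) ^ (k - 1) * (s * Complex.I) / (k.factorial : ℂ)) y := by
          intro k _
          exact (h0.pow k).div_const _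
        have h3 := HasDerivAt.fun_sum h2
        have h4 := h1.sub h3
        refine h4.congr_deriv ?_
        rw [sum_range_succ']
        simp only [Nat.factorial_zero, CharP.cast_eq_zero, zero_mul, zero_div, add_zero]
        rw [mul_sub, mul_sum]
        congr 1
        · ring
        · apply sum_congr rfl
          intro k _
          rw [Nat.add_sub_cancel, Nat.factorial_succ]
          push_cast
          have hk : ((k : ℂ) + 1) ≠ 0 := by exact_mod_cast Nat.succ_ne_zero k
          have hf : ((k.factorial : ℕ) : ℂ) ≠ 0 := by exact_mod_cast k.factorial_ne_zero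
          field_simp
      have hB : ∀ y : ℝ, HasDerivAt (fun y : ℝ => y ^ (K + 1) / ((K + 1).factorial : ℝ))
          (y ^ K / (K.factorial : ℝ)) y := by
        intro y
        have h1 := (hasDerivAt_pow (K + 1) y).div_const ((K + 1).factorial : ℝ)
        refine h1.congr_deriv ?_
        rw [Nat.factorial_succ, Nat.add_sub_cancel]
        push_cast
        have hk : ((K : ℝ) + 1) ≠ 0 := by positivity
        have hf : ((K.factorial : ℕ) : ℝ) ≠ 0 := by exact_mod_cast K.factorial_ne_zero
        field_simp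
      have := image_norm_le_of_norm_deriv_right_le_deriv_boundary
        (a := 0) (b := x)
        (f := fun y : ℝ => Complex.exp (s * y * Complex.I) -
          ∑ k ∈ range (K + 1), ((s : ℂ) * y * Complex.I) ^ k / (k.factorial : ℂ))
        (f' := fun y : ℝ => s * Complex.I * (Complex.exp (s * y * Complex.I) -
          ∑ k ∈ range K, ((s : ℂ) * y * Complex.I) ^ k / (k.factorial : ℂ)))
        (fun y _ => (hderiv y).continuousAt.continuousWithinAt)
        (fun y _ => (hderiv y).hasDerivWithinAt)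
        (B := fun y : ℝ => y ^ (K + 1) / ((K + 1).factorial : ℝ))
        (B' := fun y : ℝ => y ^ K / (K.factorial : ℝ))
        (by
          simp only [Complex.ofReal_zero, mul_zero, zero_mul, Complex.exp_zero]
          rw [sum_range_succ']
          simp)
        hB
        (by
          intro y hy
          rw [norm_mul, norm_mul, Complex.norm_I, mul_one, Complex.norm_real, Real.norm_eq_abs]
          have h1 := ih s hs y hy.1
          have h2 : 0 ≤ y ^ K / (K.factorial : ℝ) := div_nonneg (pow_nonneg hy.1 K) (Nat.cast_nonneg _)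
          calc |s| * _ ≤ 1 * (y ^ K / (K.factorial : ℝ)) :=
                mul_le_mul hs h1 (norm_nonneg _) zero_le_one
            _ = _ := one_mul _)
      exact this ⟨hx, le_rfl⟩
  rcases le_total 0 x with hx | hx
  · have := key K 1 (by simp) x hx
    rw [abs_of_nonneg hx]
    simpa using this
  · have := key K (-1) (by simp) (-x) (by linarith)
    rw [abs_of_nonpos hx]
    simpa using this

end Pool.Agent.W2helper64.WJ
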