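import Pool.Agent.W2helper64.WJ.Ga

set_option autoImplicit false

/-!
# The characteristic function of the joint law
-/

namespace Pool.Agent.W2helper64.WJ

open Finset Filter Pool.Agent.Helper92K9.WI
open scoped Classical Topology

/-- `log log y` -/
noncomputable def l2 (y : ℕ) : ℝ := Real.log (Real.log y)

/-- the number of Wilson primes up to `y` -/
noncomputable def cnt (β γ : ℤ) (y a : ℕ) : ℕ := ((Icc 1 y).filter (fun p => WW β γ p (a : ℤ))).card

/-- the truncation -/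
noncomputable def zz (y : ℕ) : ℕ := ⌊Real.exp (Real.log y / l2 y)⌋₊

lemma l2_tendsto : Tendsto l2 atTop atTop := by
  unfold l2
  exact Real.tendsto_log_atTop.comp (Real.tendsto_log_atTop.comp tendsto_natCast_atTop_atTop)

lemma zz_spec {y : ℕ} (hy : 3 ≤ y) (hL : 4 ≤ l2 y) :
    3 ≤ zz y ∧ zz y ≤ y ∧ |l2 (zz y) - l2 y| ≤ Real.log (l2 y) + 1 ∧
      ∀ k : ℕ, (k : ℝ) ≤ l2 y → (zz y : ℝ) ^ k ≤ y := by
  set L := l2 y with hLdef
  have hy3 : (3 : ℝ) ≤ y := by exact_mod_cast hy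
  have hlog1 : 1 ≤ Real.log y := by
    rw [Real.le_log_iff_exp_le (by linarith)]
    have := Real.exp_one_lt_d9
    linarith
  have hexpL : Real.exp L = Real.log y := by
    rw [hLdef]
    unfold l2
    exact Real.exp_log (by linarith)
  set u := Real.log y / L with hu
  have hL0 : 0 < L := by linarith
  have hu3 : 3 ≤ u := by
    rw [hu, ← hexpL, le_div_iff₀ hL0]
    have := Real.quadratic_le_exp_of_nonneg hL0.le
    nlinarith
  have huy : u ≤ Real.log y := by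
    rw [hu]
    exact div_le_self (by linarith) (by linarith)
  have hexpu : Real.exp u ≤ y := by
    calc Real.exp u ≤ Real.exp (Real.log y) := Real.exp_le_exp.2 huy
      _ = y := Real.exp_log (by linarith)
  have hzle : (zz y : ℝ) ≤ Real.exp u := Nat.floor_le (Real.exp_pos _).le
  set w := Real.exp (u / 2) with hw
  have hw3 : 3 ≤ w := by
    have := Real.quadratic_le_exp_of_nonneg (show (0 : ℝ) ≤ u / 2 by linarith)
    rw [hw]
    nlinarith
  have hww : Real.exp u = w ^ 2 := by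
    rw [hw, ← Real.exp_nat_mul]
    congr 1
    push_cast
    ring
  have hzge : w ≤ zz y := by
    have h1 : Real.exp u < zz y + 1 := Nat.lt_floor_add_one _
    rw [hww] at h1
    nlinarith
  have hz3 : 3 ≤ zz y := by
    have : (3 : ℝ) ≤ zz y := hw3.trans hzge
    exact_mod_cast this
  have hz0 : (0 : ℝ) < zz y := by linarith
  refine ⟨hz3, ?_, ?_, ?_⟩
  · exact_mod_cast hzle.trans hexpu
  · have h1 : u / 2 ≤ Real.log (zz y) := by
      rw [Real.le_log_iff_exp_le hz0]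
      exact hzge
    have h2 : Real.log (zz y) ≤ u := by
      rw [Real.log_le_iff_le_exp hz0]
      exact hzle
    have hlz : 0 < Real.log (zz y) := by linarith
    have h3 : l2 (zz y) ≤ Real.log u := by
      unfold l2
      exact Real.log_le_log hlz h2
    have h4 : Real.log (u / 2) ≤ l2 (zz y) := by
      unfold l2
      exact Real.log_le_log (by linarith) h1
    have h5 : Real.log u = L - Real.log L := by
      rw [hu, Real.log_div (by linarith) hL0.ne']
      rfl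
    have h6 : Real.log (u / 2) = L - Real.log L - Real.log 2 := by
      rw [Real.log_div (by linarith) (by norm_num), h5]
    have h7 := Real.log_two_lt_d9
    have h8 : 0 ≤ Real.log L := Real.log_nonneg (by linarith)
    rw [abs_le]
    constructor <;> linarith
  · intro k hk
    calc (zz y : ℝ) ^ k ≤ (Real.exp u) ^ k := pow_le_pow_left₀ hz0.le hzle k
      _ = Real.exp (k * u) := by rw [← Real.exp_nat_mul]
      _ ≤ Real.exp (Real.log y) := by
          apply Real.exp_le_exp.2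
          rw [hu, mul_div_assoc', div_le_iff₀ hL0, mul_comm]
          exact mul_le_mul_of_nonneg_left hk (by linarith)
      _ = y := Real.exp_log (by linarith)

lemma av_iw_X (β γ : ℤ) {p : ℕ} (hp : p.Prime) (hp2 : p ≠ 2) {X : ℕ} (hX : 0 < X) :
    av X (iw β γ p) ≤ gg p + p / X := by
  have hXr : (0 : ℝ) < X := by exact_mod_cast hX
  have h := count_bound (fun a : ℕ => WW β γ p (a : ℤ)) (M := p ^ 2) (pow_pos hp.pos 2)
    (fun a => WW_perN β γ hp2 a) (card_WW β γ hp hp2) X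
  rw [av_eq]
  unfold iw
  rw [sum_boole]
  have h1 := (abs_le.1 h).2
  rw [Nat.cast_sub hp.one_le] at h1
  push_cast at h1
  have e : ((p : ℝ) - 1) * X / (p : ℝ) ^ 2 = gg p * X := by unfold gg; ring
  rw [e] at h1
  rw [div_le_iff₀ hXr, add_mul, div_mul_cancel₀ _ hXr.ne']
  linarith

lemma cnt_bounds (β γ : ℤ) {z y : ℕ} (hzy : z ≤ y) (a : ℕ) :
    0 ≤ (cnt β γ y a : ℝ) - ∑ p ∈ Od z, iw β γ p a ∧
    (cnt β γ y a : ℝ) - ∑ p ∈ Od z, iw β γ p a ≤ 1 + ∑ p ∈ Od y \ Od z, iw β γ p a := by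
  have hsub : Od z ⊆ Od y := by
    intro p hp
    rw [mem_Od] at hp ⊢
    exact ⟨⟨hp.1.1, hp.1.2.trans hzy⟩, hp.2⟩
  have h1 : ∀ w, ∑ p ∈ Od w, iw β γ p a = (((Od w).filter (fun p => WW β γ p (a : ℤ))).card : ℝ) := by
    intro w
    unfold iw
    rw [sum_boole]
  have h2 : ∑ p ∈ Od y \ Od z, iw β γ p a + ∑ p ∈ Od z, iw β γ p a = ∑ p ∈ Od y, iw β γ p a :=
    sum_sdiff hsub
  have h3 : (Od y).filter (fun p => WW β γ p (a : ℤ)) =
      ((Icc 1 y).filter (fun p => WW β γ p (a : ℤ))).erase 2 := by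
    ext p
    rw [mem_erase, mem_filter, mem_filter, mem_Od, mem_Icc]
    constructor
    · rintro ⟨⟨h, h3, h4⟩, h5⟩
      exact ⟨h4, h, h5⟩
    · rintro ⟨h4, h, h5⟩
      exact ⟨⟨h, h5.1, h4⟩, h5⟩
  have h4 := card_erase_le (s := (Icc 1 y).filter (fun p => WW β γ p (a : ℤ))) (a := 2)
  have h5 := pred_card_le_card_erase (s := (Icc 1 y).filter (fun p => WW β γ p (a : ℤ))) (a := 2)
  rw [← h3] at h4 h5
  have h4' : ∑ p ∈ Od y, iw β γ p a ≤ cnt β γ y a := by
    rw [h1]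
    exact_mod_cast h4
  have h5' : (cnt β γ y a : ℝ) ≤ ∑ p ∈ Od y, iw β γ p a + 1 := by
    rw [h1]
    unfold cnt
    exact_mod_cast (by omega : ((Icc 1 y).filter (fun p => WW β γ p (a : ℤ))).card ≤
      ((Od y).filter (fun p => WW β γ p (a : ℤ))).card + 1)
  have h6 : 0 ≤ ∑ p ∈ Od y \ Od z, iw β γ p a := sum_nonneg fun p _ => iw_nonneg _ _ _ _
  constructor <;> linarith

/-- the tail -/
lemma tail (β γ : ℤ) {C0 : ℝ} (hC0 : ∀ y : ℕ, 3 ≤ y → |lam y - l2 y| ≤ C0) {y : ℕ} (hy : 3 ≤ y)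
    (hL : 4 ≤ l2 y) {X : ℕ} (hX : y ^ 2 ≤ X) :
    av X (fun a => |((cnt β γ y a : ℝ) - l2 y) / √(l2 y) -
      (√(l2 y))⁻¹ * ∑ p ∈ Od (zz y), (iw β γ p a - gg p)|) ≤
      (4 + 3 * C0 + 2 * Real.log (l2 y)) / √(l2 y) := by
  obtain ⟨hz3, hzy, hzl, -⟩ := zz_spec hy hL
  set L := l2 y with hLdef
  set z := zz y with hz
  have hX0 : 0 < X := lt_of_lt_of_le (pow_pos (by omega) 2) hX
  have hXr : (0 : ℝ) < X := by exact_mod_cast hX0
  have hL0 : 0 < L := by linarith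
  have hs : 0 < √L := Real.sqrt_pos.2 hL0
  have c1 := abs_le.1 (hC0 y hy)
  have c2 := abs_le.1 (hC0 z hz3)
  have c3 := abs_le.1 hzl
  have h1 : ∀ a, |((cnt β γ y a : ℝ) - L) / √L - (√L)⁻¹ * ∑ p ∈ Od z, (iw β γ p a - gg p)| ≤
      (√L)⁻¹ * ((1 + (C0 + (Real.log L + 1))) + ∑ p ∈ Od y \ Od z, iw β γ p a) := by
    intro a
    have e1 : ((cnt β γ y a : ℝ) - L) / √L - (√L)⁻¹ * ∑ p ∈ Od z, (iw β γ p a - gg p) =
        (√L)⁻¹ * (((cnt β γ y a : ℝ) - ∑ p ∈ Od z, iw β γ p a) + (lam z - L)) := by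
      rw [sum_sub_distrib]
      unfold lam
      ring
    rw [e1, abs_mul, abs_of_pos (inv_pos.2 hs)]
    apply mul_le_mul_of_nonneg_left _ (inv_pos.2 hs).le
    obtain ⟨b1, b2⟩ := cnt_bounds β γ hzy a
    have b3 : 0 ≤ ∑ p ∈ Od y \ Od z, iw β γ p a := sum_nonneg fun p _ => iw_nonneg _ _ _ _
    rw [abs_le]
    constructor <;> linarith
  refine (av_mono h1).trans ?_
  rw [av_mul_left, av_add, av_const hX0, av_sum]
  have h2 : ∑ p ∈ Od y \ Od z, av X (iw β γ p) ≤ ∑ p ∈ Od y \ Od z, (gg p + p / X) := by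
    apply sum_le_sum
    intro p hp
    have hp' := (mem_Od.1 (mem_sdiff.1 hp).1)
    exact av_iw_X β γ hp'.2.1 hp'.2.2 hX0
  have h3 : ∑ p ∈ Od y \ Od z, (gg p + (p : ℝ) / X) ≤ (lam y - lam z) + 1 := by
    rw [sum_add_distrib]
    have hsub : Od z ⊆ Od y := by
      intro p hp
      rw [mem_Od] at hp ⊢
      exact ⟨⟨hp.1.1, hp.1.2.trans hzy⟩, hp.2⟩
    have e2 : ∑ p ∈ Od y \ Od z, gg p = lam y - lam z := by
      have := sum_sdiff (f := gg) hsub
      unfold lam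
      linarith
    have e3 : ∑ p ∈ Od y \ Od z, (p : ℝ) / X ≤ 1 := by
      rw [← sum_div, div_le_one hXr]
      have : ∑ p ∈ Od y \ Od z, (p : ℝ) ≤ TT y := by
        unfold TT
        exact sum_le_sum_of_subset_of_nonneg sdiff_subset (fun p _ _ => Nat.cast_nonneg _)
      refine this.trans ((TT_le y).trans ?_)
      exact_mod_cast hX
    linarith
  rw [div_eq_inv_mul]
  apply mul_le_mul_of_nonneg_left _ (inv_pos.2 hs).le
  linarith

lemma exp_lip {a b : ℝ} (ha : 0 ≤ a) (hb : 0 ≤ b) : |Real.exp (-a) - Real.exp (-b)| ≤ |a - b| := by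
  have key : ∀ a b : ℝ, 0 ≤ a → a ≤ b → |Real.exp (-a) - Real.exp (-b)| ≤ |a - b| := by
    intro a b ha hab
    have h1 : Real.exp (-b) ≤ Real.exp (-a) := Real.exp_le_exp.2 (by linarith)
    rw [abs_of_nonneg (by linarith), abs_of_nonpos (by linarith)]
    have h2 : Real.exp (-b) = Real.exp (-a) * Real.exp (-(b - a)) := by
      rw [← Real.exp_add]; congr 1; ring
    have h3 := Real.add_one_le_exp (-(b - a))
    have h4 : Real.exp (-a) ≤ 1 := Real.exp_le_one_iff.2 (by linarith)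
    have h5 := Real.exp_pos (-a)
    have h6 : Real.exp (-(b - a)) ≤ 1 := Real.exp_le_one_iff.2 (by linarith)
    rw [h2]
    nlinarith
  rcases le_total a b with h | h
  · exact key a b ha h
  · rw [abs_sub_comm, abs_sub_comm a b]
    exact key b a hb h

lemma cexp_lip (x y : ℝ) : ‖Complex.exp ((x : ℂ) * Complex.I) - Complex.exp ((y : ℂ) * Complex.I)‖ ≤ |x - y| := by
  have h1 : Complex.exp ((x : ℂ) * Complex.I) - Complex.exp ((y : ℂ) * Complex.I) =
      Complex.exp ((y : ℂ) * Complex.I) * (Complex.exp (((x - y : ℝ) : ℂ) * Complex.I) - 1) := by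
    rw [mul_sub, ← Complex.exp_add, mul_one]
    congr 2
    push_cast
    ring
  rw [h1, norm_mul, Complex.norm_exp_ofReal_mul_I, one_mul]
  have := exp_taylor 1 (x - y)
  simpa using this

lemma cf_close (X : ℕ) (S S' : ℕ → ℝ) : ‖cf X S - cf X S'‖ ≤ av X (fun a => |S a - S' a|) := by
  unfold cf
  rw [← av_sub]
  refine (norm_av_le _ _).trans (av_mono fun a => cexp_lip _ _)

section main
variable {ι : Type*} [Fintype ι] [DecidableEq ι]

/-- the normalised linear combination -/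
noncomputable def ZZ (β γ : ι → ℤ) (t : ι → ℝ) (y a : ℕ) : ℝ :=
  ∑ j, t j * (((cnt (β j) (γ j) y a : ℝ) - l2 y) / √(l2 y))

/-- **the characteristic function, quantitative** -/
theorem cf_bound (β γ : ι → ℤ) (h : ∀ i j, i ≠ j → Ineq (β i) (γ i) (β j) (γ j)) (t : ι → ℝ) :
    ∃ A : ℝ, 0 ≤ A ∧ ∀ (K y X : ℕ), Even K → 3 ≤ y → A ≤ l2 y → 3 * K ≤ l2 y → y ^ 2 ≤ X →
      ‖cf X (ZZ β γ t y) - ((Real.exp (-((∑ j, t j ^ 2) / 2)) : ℝ) : ℂ)‖ ≤
        A * ((1 + Real.log (l2 y)) / √(l2 y) + (1 / 2) ^ K) + A ^ K * (2 * (K + 1)) / y := by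
  obtain ⟨C0, hC00, hC0⟩ := lam_est
  have hC0' : ∀ y : ℕ, 3 ≤ y → |lam y - l2 y| ≤ C0 := hC0
  obtain ⟨A1, hA10, hA1⟩ := var_sum β γ h t
  set T1 := ∑ j, |t j| with hT1
  have hT10 : 0 ≤ T1 := sum_nonneg fun j _ => abs_nonneg _
  set T2 := ∑ j, t j ^ 2 with hT2
  have hT20 : 0 ≤ T2 := sum_nonneg fun j _ => sq_nonneg _
  set A2 := A1 + T2 * (C0 + 1) with hA2
  have hA20 : 0 ≤ A2 := by positivity
  -- a large constant
  set A := 4 + 4 * T1 ^ 2 + T1 + (T1 * (4 + 3 * C0)) + 4 * Real.exp (4 * (T2 + A2 + T2)) +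
    2 * T1 * (T2 + A2 + T2) + (A2 + T2) with hA
  have hA0 : 0 ≤ A := by positivity
  refine ⟨A, hA0, fun K y X hK hy hAL hKL hX => ?_⟩
  set L := l2 y with hL
  have hL4 : 4 ≤ L := by
    refine le_trans ?_ hAL
    rw [hA]
    have : 0 ≤ 4 * T1 ^ 2 + T1 + (T1 * (4 + 3 * C0)) + 4 * Real.exp (4 * (T2 + A2 + T2)) +
      2 * T1 * (T2 + A2 + T2) + (A2 + T2) := by positivity
    linarith
  obtain ⟨hz3, hzy, hzl, hzk⟩ := zz_spec hy hL4
  set z := zz y with hz
  have hL0 : 0 < L := by linarith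
  have hs : 0 < √L := Real.sqrt_pos.2 hL0
  have hss : √L * √L = L := Real.mul_self_sqrt hL0.le
  have hlogL : 0 ≤ Real.log L := Real.log_nonneg (by linarith)
  have hlogLL : Real.log L ≤ L := (Real.log_le_sub_one_of_pos hL0).trans (by linarith)
  have hX0 : 0 < X := lt_of_lt_of_le (pow_pos (by omega) 2) hX
  have hXr : (0 : ℝ) < X := by exact_mod_cast hX0
  have hy0 : (0 : ℝ) < y := by
    have : 0 < y := by omega
    exact_mod_cast this
  -- the variables
  set ξ : ℕ → ℕ → ℝ := fun p a => (√L)⁻¹ * uu β γ t p a with hξ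
  set c := T1 / √L with hc
  have hc0 : 0 ≤ c := by positivity
  have hξc : ∀ p a, |ξ p a| ≤ c := by
    intro p a
    rw [hξ, hc]
    simp only
    rw [abs_mul, abs_of_pos (inv_pos.2 hs), div_eq_inv_mul]
    exact mul_le_mul_of_nonneg_left (uu_abs β γ t p a) (inv_pos.2 hs).le
  have hc2 : 2 * c ≤ 1 := by
    rw [hc, mul_div_assoc', div_le_one hs]
    have h1 : 4 * T1 ^ 2 ≤ L := by
      refine le_trans ?_ hAL
      rw [hA]
      have : 0 ≤ 4 + T1 + (T1 * (4 + 3 * C0)) + 4 * Real.exp (4 * (T2 + A2 + T2)) +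
        2 * T1 * (T2 + A2 + T2) + (A2 + T2) := by positivity
      linarith
    exact Real.le_sqrt_of_sq_le (by nlinarith)
  have hcT : c ≤ T1 := by
    rw [hc]
    apply div_le_self hT10
    rw [Real.one_le_sqrt]
    linarith
  have hP : ∀ p ∈ Od z, p.Prime := fun p hp => (mem_Od.1 hp).2.1
  have hPz : ∀ p ∈ Od z, p ≤ z := fun p hp => (mem_Od.1 hp).1.2
  have pf : ∀ p ∈ Od z, ∀ a, ξ p (a + p ^ 2) = ξ p a := by
    intro p hp a
    rw [hξ]
    simp only
    rw [uu_per β γ t (mem_Od.1 hp).2.2]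
  have h0 : ∀ p ∈ Od z, av (p ^ 2) (ξ p) = 0 := by
    intro p hp
    rw [hξ]
    simp only
    rw [av_mul_left]
    have : av (p ^ 2) (fun a => uu β γ t p a) = 0 := uu_mean β γ t (mem_Od.1 hp).2.1 (mem_Od.1 hp).2.2
    rw [this, mul_zero]
  -- the variance
  set V := ∑ p ∈ Od z, av (p ^ 2) (fun a => ξ p a ^ 2) with hV
  have hVe : V = L⁻¹ * ∑ p ∈ Od z, av (p ^ 2) (fun a => uu β γ t p a ^ 2) := by
    rw [hV, mul_sum]
    apply sum_congr rfl
    intro p _
    rw [← av_mul_left]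
    congr 1
    funext a
    rw [hξ]
    simp only
    rw [mul_pow, inv_pow, Real.sq_sqrt hL0.le]
  have hV0 : 0 ≤ V := sum_nonneg fun p _ => av_nonneg fun a => sq_nonneg _
  have hVT : |V - T2| ≤ (A2 + T2) * ((1 + Real.log L) / L) := by
    have e1 : V - T2 = L⁻¹ * ((∑ p ∈ Od z, av (p ^ 2) (fun a => uu β γ t p a ^ 2) - T2 * lam z) +
        T2 * ((lam z - l2 z) + (l2 z - L))) := by
      rw [hVe]
      field_simp
      ring
    rw [e1, abs_mul, abs_of_pos (inv_pos.2 hL0), mul_div_assoc', div_eq_inv_mul]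
    apply mul_le_mul_of_nonneg_left _ (inv_pos.2 hL0).le
    refine (abs_add_le _ _).trans ?_
    rw [abs_mul, abs_of_nonneg hT20]
    have b1 := hA1 z
    have b2 := abs_add_le (lam z - l2 z) (l2 z - L)
    have b3 := hC0' z hz3
    have b4 : |(lam z - l2 z) + (l2 z - L)| ≤ C0 + (Real.log L + 1) := by linarith
    have b5 := mul_le_mul_of_nonneg_left b4 hT20
    have b6 := mul_nonneg hA10 hlogL
    have b7 := mul_nonneg (mul_nonneg hT20 (by linarith : 0 ≤ C0 + 1)) hlogL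
    have b8 : (A2 + T2) * (1 + Real.log L) = A1 + T2 * (C0 + (Real.log L + 1)) +
        (A1 * Real.log L + T2 * (C0 + 1) * Real.log L + T2) := by
      rw [hA2]; ring
    rw [b8]
    linarith
  have hfrac : (1 + Real.log L) / L ≤ (1 + Real.log L) / √L := by
    apply div_le_div_of_nonneg_left (by linarith) hs
    have h1 : 1 ≤ √L := by rw [Real.one_le_sqrt]; linarith
    have h2 : √L * 1 ≤ √L * √L := mul_le_mul_of_nonneg_left h1 hs.le
    rwa [hss, mul_one] at h2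
  have hfr1 : (1 + Real.log L) / L ≤ 1 := by
    rw [div_le_one hL0]
    have := Real.log_le_sub_one_of_pos hL0
    linarith
  have hVup : V ≤ T2 + A2 + T2 := by
    have h1 := (abs_le.1 hVT).2
    have h2 : (A2 + T2) * ((1 + Real.log L) / L) ≤ (A2 + T2) * 1 :=
      mul_le_mul_of_nonneg_left hfr1 (by positivity)
    linarith
  -- step 1: Gaussian model
  have s1 := cf_model_gauss (Od z) hP ξ pf hξc (by linarith) h0
  rw [← hV] at s1
  -- step 2: transfer
  have hBpos := exp_model_le (Od z) hP ξ pf hξc (s := 2) (by simpa using hc2) h0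
  have hBneg := exp_model_le (Od z) hP ξ pf hξc (s := -2) (by simpa using hc2) h0
  rw [← hV] at hBpos hBneg
  have hBneg' : av (MM (Od z)) (fun a => Real.exp (-(2 * ∑ p ∈ Od z, ξ p a))) ≤
      Real.exp (2 ^ 2 * V) := by
    have e : (fun a => Real.exp (-(2 * ∑ p ∈ Od z, ξ p a))) =
        fun a => Real.exp (-2 * ∑ p ∈ Od z, ξ p a) := by
      funext a; congr 1; ring
    rw [e]
    refine hBneg.trans (le_of_eq ?_)
    norm_num
  have hcard : ((Od z).card : ℝ) ≤ z := by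
    have : (Od z).card ≤ z := by
      unfold Od
      refine (card_filter_le _ _).trans ?_
      simp
    exact_mod_cast this
  have hz1 : (1 : ℝ) ≤ z := by
    have : 1 ≤ z := by omega
    exact_mod_cast this
  have hA1' : 1 ≤ A := by
    rw [hA]
    have : 0 ≤ 3 + 4 * T1 ^ 2 + T1 + (T1 * (4 + 3 * C0)) + 4 * Real.exp (4 * (T2 + A2 + T2)) +
      2 * T1 * (T2 + A2 + T2) + (A2 + T2) := by positivity
    linarith
  have hTA : T1 ≤ A := by
    rw [hA]
    have : 0 ≤ 4 + 4 * T1 ^ 2 + (T1 * (4 + 3 * C0)) + 4 * Real.exp (4 * (T2 + A2 + T2)) +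
      2 * T1 * (T2 + A2 + T2) + (A2 + T2) := by positivity
    linarith
  have hz31 : (1 : ℝ) ≤ (z : ℝ) ^ 3 := one_le_pow₀ hz1
  have s2 := transfer (Od z) hP hPz (by omega) ξ hξc pf hBpos hBneg' hK hX0
    (Q := A * (z : ℝ) ^ 3) (by nlinarith)
    (by
      calc c * (Od z).card * (z : ℝ) ^ 2 ≤ A * z * (z : ℝ) ^ 2 := by
            apply mul_le_mul_of_nonneg_right _ (by positivity)
            exact mul_le_mul (hcT.trans hTA) hcard (Nat.cast_nonneg _) hA0
        _ = _ := by ring)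
  have hQ : 2 * ((K : ℝ) + 1) * (A * (z : ℝ) ^ 3) ^ K / X ≤ A ^ K * (2 * (K + 1)) / y := by
    have h1 : ((z : ℝ) ^ 3) ^ K ≤ y := by
      rw [← pow_mul]
      apply hzk
      push_cast
      exact hKL
    have h2 : (y : ℝ) * y ≤ X := by
      rw [← pow_two]
      exact_mod_cast hX
    rw [mul_pow, div_le_div_iff₀ hXr hy0]
    have h3 : ((z : ℝ) ^ 3) ^ K * y ≤ X := (mul_le_mul_of_nonneg_right h1 hy0.le).trans h2
    have h4 : 0 ≤ A ^ K * (2 * ((K : ℝ) + 1)) := by positivity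
    calc 2 * ((K : ℝ) + 1) * (A ^ K * ((z : ℝ) ^ 3) ^ K) * y =
          A ^ K * (2 * ((K : ℝ) + 1)) * (((z : ℝ) ^ 3) ^ K * y) := by ring
      _ ≤ _ := mul_le_mul_of_nonneg_left h3 h4
  -- step 3: the tail
  have s3 : ‖cf X (ZZ β γ t y) - cf X (fun a => ∑ p ∈ Od z, ξ p a)‖ ≤
      T1 * ((4 + 3 * C0 + 2 * Real.log L) / √L) := by
    refine (cf_close X _ _).trans ?_
    have h1 : ∀ a, |ZZ β γ t y a - ∑ p ∈ Od z, ξ p a| ≤
        ∑ j, |t j| * |((cnt (β j) (γ j) y a : ℝ) - l2 y) / √(l2 y) -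
          (√(l2 y))⁻¹ * ∑ p ∈ Od (zz y), (iw (β j) (γ j) p a - gg p)| := by
      intro a
      have e1 : ∑ p ∈ Od z, ξ p a = ∑ j, t j * ((√L)⁻¹ * ∑ p ∈ Od z, (iw (β j) (γ j) p a - gg p)) := by
        rw [hξ]
        simp only [uu, mul_sum]
        rw [sum_comm]
        apply sum_congr rfl
        intro j _
        apply sum_congr rfl
        intro p _
        ring
      rw [e1]
      unfold ZZ
      rw [← sum_sub_distrib]
      refine (abs_sum_le_sum_abs _ _).trans (sum_le_sum fun j _ => ?_)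
      rw [← mul_sub, abs_mul]
    refine (av_mono h1).trans ?_
    rw [av_sum, hT1, sum_mul]
    apply sum_le_sum
    intro j _
    rw [av_mul_left]
    exact mul_le_mul_of_nonneg_left (tail (β j) (γ j) hC0' hy hL4 hX) (abs_nonneg _)
  -- step 4: the exponential
  have s4 : ‖((Real.exp (-(V / 2)) : ℝ) : ℂ) - ((Real.exp (-(T2 / 2)) : ℝ) : ℂ)‖ ≤
      (A2 + T2) * ((1 + Real.log L) / √L) := by
    rw [← Complex.ofReal_sub, Complex.norm_real, Real.norm_eq_abs]
    refine (exp_lip (by linarith) (by linarith)).trans ?_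
    have e : V / 2 - T2 / 2 = (V - T2) / 2 := by ring
    rw [e, abs_div, abs_of_pos (by norm_num : (0 : ℝ) < 2)]
    have h1 := abs_nonneg (V - T2)
    have h2 := mul_le_mul_of_nonneg_left hfrac (by positivity : 0 ≤ A2 + T2)
    linarith
  -- together
  have s1' : 2 * c * V ≤ 2 * T1 * (T2 + A2 + T2) * ((1 + Real.log L) / √L) := by
    have h1 : 2 * c * V ≤ 2 * c * (T2 + A2 + T2) := mul_le_mul_of_nonneg_left hVup (by positivity)
    have h2 : c ≤ T1 * ((1 + Real.log L) / √L) := by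
      rw [hc, mul_div_assoc']
      apply div_le_div_of_nonneg_right _ hs.le
      nlinarith
    have h3 : 2 * c * (T2 + A2 + T2) ≤ 2 * (T1 * ((1 + Real.log L) / √L)) * (T2 + A2 + T2) := by
      apply mul_le_mul_of_nonneg_right _ (by positivity)
      linarith
    calc 2 * c * V ≤ _ := h1.trans h3
      _ = _ := by ring
  have s2' : 4 * Real.exp (2 ^ 2 * V) * (1 / 2) ^ K ≤
      4 * Real.exp (4 * (T2 + A2 + T2)) * (1 / 2) ^ K := by
    apply mul_le_mul_of_nonneg_right _ (by positivity)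
    apply mul_le_mul_of_nonneg_left _ (by norm_num)
    apply Real.exp_le_exp.2
    linarith
  have s3' : T1 * ((4 + 3 * C0 + 2 * Real.log L) / √L) ≤
      T1 * (4 + 3 * C0) * ((1 + Real.log L) / √L) := by
    rw [mul_assoc]
    apply mul_le_mul_of_nonneg_left _ hT10
    rw [mul_div_assoc']
    apply div_le_div_of_nonneg_right _ hs.le
    nlinarith [mul_nonneg hC00 hlogL]
  set E := (1 + Real.log L) / √L with hE
  have hE0 : 0 ≤ E := by positivity
  have hK0 : (0 : ℝ) ≤ (1 / 2) ^ K := by positivity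
  have e5 : cf X (ZZ β γ t y) - ((Real.exp (-(T2 / 2)) : ℝ) : ℂ) =
      (cf X (ZZ β γ t y) - cf X (fun a => ∑ p ∈ Od z, ξ p a)) +
      ((cf X (fun a => ∑ p ∈ Od z, ξ p a) - cf (MM (Od z)) (fun a => ∑ p ∈ Od z, ξ p a)) +
      ((cf (MM (Od z)) (fun a => ∑ p ∈ Od z, ξ p a) - ((Real.exp (-(V / 2)) : ℝ) : ℂ)) +
      (((Real.exp (-(V / 2)) : ℝ) : ℂ) - ((Real.exp (-(T2 / 2)) : ℝ) : ℂ)))) := by ring
  rw [e5]
  have n1 := norm_add_le (cf X (ZZ β γ t y) - cf X (fun a => ∑ p ∈ Od z, ξ p a))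
    ((cf X (fun a => ∑ p ∈ Od z, ξ p a) - cf (MM (Od z)) (fun a => ∑ p ∈ Od z, ξ p a)) +
      ((cf (MM (Od z)) (fun a => ∑ p ∈ Od z, ξ p a) - ((Real.exp (-(V / 2)) : ℝ) : ℂ)) +
      (((Real.exp (-(V / 2)) : ℝ) : ℂ) - ((Real.exp (-(T2 / 2)) : ℝ) : ℂ))))
  have n2 := norm_add_le
    (cf X (fun a => ∑ p ∈ Od z, ξ p a) - cf (MM (Od z)) (fun a => ∑ p ∈ Od z, ξ p a))
      ((cf (MM (Od z)) (fun a => ∑ p ∈ Od z, ξ p a) - ((Real.exp (-(V / 2)) : ℝ) : ℂ)) +
      (((Real.exp (-(V / 2)) : ℝ) : ℂ) - ((Real.exp (-(T2 / 2)) : ℝ) : ℂ)))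
  have n3 := norm_add_le
      (cf (MM (Od z)) (fun a => ∑ p ∈ Od z, ξ p a) - ((Real.exp (-(V / 2)) : ℝ) : ℂ))
      (((Real.exp (-(V / 2)) : ℝ) : ℂ) - ((Real.exp (-(T2 / 2)) : ℝ) : ℂ))
  have hAE : T1 * (4 + 3 * C0) * E + 2 * T1 * (T2 + A2 + T2) * E + (A2 + T2) * E +
      4 * Real.exp (4 * (T2 + A2 + T2)) * (1 / 2) ^ K ≤ A * (E + (1 / 2) ^ K) := by
    have e6 : A * (E + (1 / 2) ^ K) = (T1 * (4 + 3 * C0) * E + 2 * T1 * (T2 + A2 + T2) * E +
        (A2 + T2) * E + 4 * Real.exp (4 * (T2 + A2 + T2)) * (1 / 2) ^ K) +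
        ((4 + 4 * T1 ^ 2 + T1) * (E + (1 / 2) ^ K) + 4 * Real.exp (4 * (T2 + A2 + T2)) * E +
        (T1 * (4 + 3 * C0) + 2 * T1 * (T2 + A2 + T2) + (A2 + T2)) * (1 / 2) ^ K) := by
      rw [hA]; ring
    rw [e6]
    apply le_add_of_nonneg_right
    positivity
  linarith

end main

end Pool.Agent.W2helper64.WJ
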