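import Pool.Agent.W2helper64.WJ.Har

set_option autoImplicit false

/-!
# Coincidences of harmonic sums along two linear forms modulo `p`
-/

namespace Pool.Agent.W2helper64.WJ

open Finset Polynomial
open scoped Classical

section count

variable {p : ℕ} [hp : Fact p.Prime]

/-- **sets with few coincidences under small shifts are small** -/
lemma gap_bound (K : Finset (ZMod p)) {T : ℕ} (hT : 1 ≤ T) {D : ℝ} (hD : 0 ≤ D)
    (h : ∀ t : ℕ, 1 ≤ t → t < T → ((K.filter (fun x => x + (t : ZMod p) ∈ K)).card : ℝ) ≤ D * t) :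
    (T : ℝ) * (K.card : ℝ) ^ 2 ≤ p * K.card + D * p * (T : ℝ) ^ 2 := by
  set g : ZMod p → ℝ := fun x => ∑ s ∈ range T, if x + (s : ZMod p) ∈ K then 1 else 0 with hg
  have hT0 : (0 : ℝ) < T := by exact_mod_cast hT
  have hsh : ∀ s : ZMod p, ∑ x : ZMod p, (if x + s ∈ K then (1 : ℝ) else 0) = K.card := by
    intro s
    rw [Fintype.sum_equiv (Equiv.addRight s) (fun x => if x + s ∈ K then (1 : ℝ) else 0)
      (fun x => if x ∈ K then (1 : ℝ) else 0) (fun x => rfl)]
    rw [sum_boole]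
    simp
  have h1 : ∑ x : ZMod p, g x = T * K.card := by
    have e0 : ∀ s ∈ range T, ∑ x : ZMod p, (if x + (s : ZMod p) ∈ K then (1 : ℝ) else 0) = K.card :=
      fun s _ => hsh s
    rw [hg, sum_comm, sum_congr rfl e0, sum_const, card_range, nsmul_eq_mul]
  have hpair : ∀ s s' : ℕ, s < s' → s' < T →
      ∑ x : ZMod p, ((if x + (s : ZMod p) ∈ K then (1 : ℝ) else 0) *
        (if x + (s' : ZMod p) ∈ K then (1 : ℝ) else 0)) ≤ D * T := by
    intro s s' hss hs'
    have e1 : ∑ x : ZMod p, ((if x + (s : ZMod p) ∈ K then (1 : ℝ) else 0) *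
        (if x + (s' : ZMod p) ∈ K then (1 : ℝ) else 0)) =
        ∑ x : ZMod p, (if x ∈ K ∧ x + ((s' - s : ℕ) : ZMod p) ∈ K then (1 : ℝ) else 0) := by
      rw [Fintype.sum_equiv (Equiv.addRight (s : ZMod p)) _
        (fun x => if x ∈ K ∧ x + ((s' - s : ℕ) : ZMod p) ∈ K then (1 : ℝ) else 0)]
      intro x
      have e2 : x + (s : ZMod p) + ((s' - s : ℕ) : ZMod p) = x + (s' : ZMod p) := by
        rw [Nat.cast_sub hss.le]; ring
      simp only [Equiv.coe_addRight, e2]
      by_cases h1 : x + (s : ZMod p) ∈ K <;> by_cases h2 : x + (s' : ZMod p) ∈ K <;> simp [h1, h2]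
    rw [e1, sum_boole]
    have e3 : (univ.filter (fun x : ZMod p => x ∈ K ∧ x + ((s' - s : ℕ) : ZMod p) ∈ K)) =
        K.filter (fun x => x + ((s' - s : ℕ) : ZMod p) ∈ K) := by
      ext x; simp
    rw [e3]
    refine (h (s' - s) (by omega) (by omega)).trans ?_
    apply mul_le_mul_of_nonneg_left _ hD
    exact_mod_cast (show s' - s ≤ T by omega)
  have h2 : ∑ x : ZMod p, g x ^ 2 ≤ T * K.card + T ^ 2 * (D * T) := by
    have e1 : ∀ x, g x ^ 2 = ∑ s ∈ range T, ∑ s' ∈ range T,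
        (if x + (s : ZMod p) ∈ K then (1 : ℝ) else 0) *
        (if x + (s' : ZMod p) ∈ K then (1 : ℝ) else 0) := by
      intro x
      rw [hg, pow_two, sum_mul_sum]
    simp only [e1]
    rw [sum_comm]
    have e2 : ∀ s ∈ range T, ∑ x : ZMod p, ∑ s' ∈ range T,
        (if x + (s : ZMod p) ∈ K then (1 : ℝ) else 0) *
        (if x + (s' : ZMod p) ∈ K then (1 : ℝ) else 0) ≤
        ∑ s' ∈ range T, (D * T + if s = s' then (K.card : ℝ) else 0) := by
      intro s hs
      rw [sum_comm]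
      apply sum_le_sum
      intro s' hs'
      rw [mem_range] at hs hs'
      rcases lt_trichotomy s s' with h3 | h3 | h3
      · rw [if_neg h3.ne, add_zero]
        exact hpair s s' h3 hs'
      · subst h3
        rw [if_pos rfl]
        have e4 : ∑ x : ZMod p, ((if x + (s : ZMod p) ∈ K then (1 : ℝ) else 0) *
            (if x + (s : ZMod p) ∈ K then (1 : ℝ) else 0)) = K.card := by
          rw [← hsh (s : ZMod p)]
          apply sum_congr rfl
          intro x _
          split_ifs <;> simp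
        rw [e4]
        have : 0 ≤ D * T := by positivity
        linarith
      · rw [if_neg h3.ne', add_zero]
        have := hpair s' s h3 hs
        refine le_trans (le_of_eq ?_) this
        apply sum_congr rfl
        intro x _
        ring
    refine (sum_le_sum e2).trans ?_
    have e5 : ∀ s ∈ range T, ∑ s' ∈ range T, (D * T + if s = s' then (K.card : ℝ) else 0) =
        T * (D * T) + K.card := by
      intro s hs
      rw [sum_add_distrib, sum_const, card_range, nsmul_eq_mul, sum_ite_eq, if_pos hs]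
    rw [sum_congr rfl e5, sum_const, card_range, nsmul_eq_mul]
    nlinarith
  have h3 : (∑ x : ZMod p, g x) ^ 2 ≤ p * ∑ x : ZMod p, g x ^ 2 := by
    have := sq_sum_le_card_mul_sum_sq (s := (univ : Finset (ZMod p))) (f := g)
    rwa [card_univ, ZMod.card] at this
  rw [h1] at h3
  have h4 : ((T : ℝ) * K.card) ^ 2 ≤ p * (T * K.card + T ^ 2 * (D * T)) :=
    h3.trans (mul_le_mul_of_nonneg_left h2 (Nat.cast_nonneg p))
  have h5 : (T : ℝ) * ((T : ℝ) * (K.card : ℝ) ^ 2) ≤ T * (p * K.card + D * p * (T : ℝ) ^ 2) := by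
    calc (T : ℝ) * ((T : ℝ) * (K.card : ℝ) ^ 2) = ((T : ℝ) * K.card) ^ 2 := by ring
      _ ≤ _ := h4
      _ = _ := by ring
  exact le_of_mul_le_mul_left h5 hT0

/-- a set with few coincidences has at most `C p^{2/3}` elements -/
lemma gap_bound' (K : Finset (ZMod p)) {D : ℝ} (hD : 0 ≤ D)
    (h : ∀ t : ℕ, 1 ≤ t → (t : ℝ) < (p : ℝ) ^ ((1 : ℝ) / 3) →
      ((K.filter (fun x => x + (t : ZMod p) ∈ K)).card : ℝ) ≤ D * t) :
    (K.card : ℝ) ≤ (4 + 2 * D) * (p : ℝ) ^ ((2 : ℝ) / 3) := by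
  set P : ℝ := (p : ℝ) ^ ((1 : ℝ) / 3) with hP
  have hp1 : (1 : ℝ) ≤ p := by exact_mod_cast hp.out.one_le
  have hP1 : 1 ≤ P := Real.one_le_rpow hp1 (by norm_num)
  have hP3 : P ^ 3 = p := by
    rw [hP, ← Real.rpow_natCast, ← Real.rpow_mul (by linarith)]
    norm_num
  have hP2 : (p : ℝ) ^ ((2 : ℝ) / 3) = P ^ 2 := by
    rw [hP, ← Real.rpow_natCast, ← Real.rpow_mul (by linarith)]
    norm_num
  set T : ℕ := ⌊P⌋₊ with hT
  have hT1 : 1 ≤ T := Nat.le_floor (by simpa using hP1)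
  have hTle : (T : ℝ) ≤ P := Nat.floor_le (by linarith)
  have hTlt : P < T + 1 := Nat.lt_floor_add_one P
  have hT1' : (1 : ℝ) ≤ T := by exact_mod_cast hT1
  have hPT : P ≤ 2 * T := by linarith
  have h1 := gap_bound K hT1 hD (fun t ht1 ht2 => h t ht1 (by
    have : (t : ℝ) < T := by exact_mod_cast ht2
    linarith))
  set k : ℝ := (K.card : ℝ) with hk
  have hk0 : 0 ≤ k := Nat.cast_nonneg _
  rw [hP2]
  rw [← hP3] at h1
  by_contra hcon
  push Not at hcon
  have hP0 : 0 < P := by linarith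
  have hT0 : (0 : ℝ) < T := by linarith
  -- `T k^2 ≤ P^3 k + D P^3 T^2`, `k > (4 + 2D) P^2`
  have h2 : P / 2 * k ^ 2 ≤ P ^ 3 * k + D * P ^ 3 * P ^ 2 := by
    have a1 : P / 2 * k ^ 2 ≤ T * k ^ 2 := by
      apply mul_le_mul_of_nonneg_right _ (by positivity)
      linarith
    have a2 : D * P ^ 3 * (T : ℝ) ^ 2 ≤ D * P ^ 3 * P ^ 2 := by
      apply mul_le_mul_of_nonneg_left _ (by positivity)
      exact pow_le_pow_left₀ hT0.le hTle 2
    linarith
  have h3 : k ^ 2 ≤ 2 * P ^ 2 * k + 2 * D * P ^ 4 := by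
    have : P * (k ^ 2) ≤ P * (2 * P ^ 2 * k + 2 * D * P ^ 4) := by nlinarith
    exact le_of_mul_le_mul_left this hP0
  have hP20 : 0 < P ^ 2 := by positivity
  have h4 : (4 + 2 * D) * P ^ 2 * k ≤ k ^ 2 := by nlinarith
  have h5 : (2 + 2 * D) * P ^ 2 * k ≤ 2 * D * P ^ 4 := by nlinarith
  have h6 : (2 + 2 * D) * P ^ 2 * ((4 + 2 * D) * P ^ 2) ≤ (2 + 2 * D) * P ^ 2 * k :=
    mul_le_mul_of_nonneg_left hcon.le (by positivity)
  have h7 : 0 < P ^ 4 := by positivity
  nlinarith [mul_nonneg hD hD, mul_nonneg hD h7.le, mul_nonneg (mul_nonneg hD hD) h7.le]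

end count

section poly

variable {p : ℕ} [hp : Fact p.Prime]

/-- the linear factor -/
noncomputable def lf (U : ℕ) (c : ZMod p) (i : ℕ) : (ZMod p)[X] := C (U : ZMod p) * X + C (c + (i + 1 : ℕ))

lemma lf_eval (U : ℕ) (c : ZMod p) (i : ℕ) (x : ZMod p) :
    (lf U c i).eval x = U * x + c + (i + 1 : ℕ) := by
  unfold lf; simp; ring

lemma lf_ne {U : ℕ} (hU : (U : ZMod p) ≠ 0) (c : ZMod p) (i : ℕ) : lf U c i ≠ 0 := by
  intro h
  have := congrArg (fun q : (ZMod p)[X] => q.coeff 1) h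
  unfold lf at this
  generalize c + ((i + 1 : ℕ) : ZMod p) = z at this
  simp [coeff_C] at this
  exact hU this

lemma lf_deg (U : ℕ) (c : ZMod p) (i : ℕ) : (lf U c i).natDegree ≤ 1 := by
  unfold lf
  compute_degree

/-- the product -/
noncomputable def LL (U : ℕ) (c : ZMod p) (n : ℕ) : (ZMod p)[X] := ∏ i ∈ range n, lf U c i

/-- the derivative -/
noncomputable def AA (U : ℕ) (c : ZMod p) (n : ℕ) : (ZMod p)[X] :=
  ∑ i ∈ range n, ∏ j ∈ (range n).erase i, lf U c j

lemma LL_ne {U : ℕ} {n : ℕ} (hU : (U : ZMod p) ≠ 0 ∨ n = 0) (c : ZMod p) : LL U c n ≠ 0 := by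
  unfold LL
  rw [prod_ne_zero_iff]
  intro i hi
  rcases hU with hU | hn
  · exact lf_ne hU c i
  · subst hn; simp at hi

lemma LL_deg (U : ℕ) (c : ZMod p) (n : ℕ) : (LL U c n).natDegree ≤ n := by
  unfold LL
  refine (natDegree_prod_le _ _).trans ?_
  refine (sum_le_sum (fun i _ => lf_deg U c i)).trans ?_
  simp

lemma AA_deg (U : ℕ) (c : ZMod p) (n : ℕ) : (AA U c n).natDegree ≤ n := by
  unfold AA
  apply natDegree_sum_le_of_forall_le
  intro i _
  refine (natDegree_prod_le _ _).trans ?_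
  refine (sum_le_sum (fun i _ => lf_deg U c i)).trans ?_
  rw [sum_const, smul_eq_mul, mul_one]
  exact (card_erase_le).trans (by simp)

/-- the sum of reciprocals -/
noncomputable def RR (U : ℕ) (c : ZMod p) (n : ℕ) (x : ZMod p) : ZMod p :=
  ∑ i ∈ range n, ((U : ZMod p) * x + c + (i + 1 : ℕ))⁻¹

lemma RR_eq {U : ℕ} {c : ZMod p} {n : ℕ} {x : ZMod p} (h : (LL U c n).eval x ≠ 0) :
    RR U c n x * (LL U c n).eval x = (AA U c n).eval x := by
  unfold RR AA
  rw [sum_mul, eval_finsetSum]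
  apply sum_congr rfl
  intro i hi
  unfold LL at h ⊢
  rw [eval_prod] at h ⊢
  rw [eval_prod, ← mul_prod_erase (range n) (fun j => (lf U c j).eval x) hi]
  rw [← mul_prod_erase (range n) (fun j => (lf U c j).eval x) hi] at h
  have h1 := left_ne_zero_of_mul h
  rw [lf_eval] at h1 ⊢
  rw [← mul_assoc, inv_mul_cancel₀ h1, one_mul]

/-- the numerator of the difference -/
noncomputable def PP (U : ℕ) (c : ZMod p) (n : ℕ) (V : ℕ) (d : ZMod p) (m : ℕ) : (ZMod p)[X] :=
  AA U c n * LL V d m - AA V d m * LL U c n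

lemma AA_ne {U : ℕ} {c : ZMod p} {n : ℕ} (hn : n < p) {i0 : ℕ} (hi0 : i0 < n) {x0 : ZMod p}
    (hx : (lf U c i0).eval x0 = 0) : (AA U c n).eval x0 ≠ 0 := by
  unfold AA
  rw [eval_finsetSum, sum_eq_single_of_mem i0 (mem_range.2 hi0)]
  · rw [eval_prod, prod_ne_zero_iff]
    intro j hj
    rw [lf_eval] at hx ⊢
    rw [mem_erase, mem_range] at hj
    intro h
    have h1 : ((j : ℕ) : ZMod p) = ((i0 : ℕ) : ZMod p) := by
      push_cast at hx h
      linear_combination h - hx
    rw [ZMod.natCast_eq_natCast_iff'] at h1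
    rw [Nat.mod_eq_of_lt (by omega), Nat.mod_eq_of_lt (by omega)] at h1
    exact hj.1 h1
  · intro j _ hj
    rw [eval_prod]
    exact prod_eq_zero (mem_erase.2 ⟨hj.symm, mem_range.2 hi0⟩) hx

lemma PP_ne {U : ℕ} {c : ZMod p} {n : ℕ} (hn : n < p) {i0 : ℕ} (hi0 : i0 < n) {x0 : ZMod p}
    (hx : (lf U c i0).eval x0 = 0) {V : ℕ} {d : ZMod p} {m : ℕ}
    (hV : ∀ j < m, (lf V d j).eval x0 ≠ 0) : PP U c n V d m ≠ 0 := by
  intro h
  have h1 := congrArg (fun q : (ZMod p)[X] => q.eval x0) h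
  unfold PP at h1
  simp only [eval_sub, eval_mul, eval_zero] at h1
  have h2 : (LL U c n).eval x0 = 0 := by
    unfold LL
    rw [eval_prod]
    exact prod_eq_zero (mem_range.2 hi0) hx
  rw [h2, mul_zero, sub_zero] at h1
  rcases mul_eq_zero.1 h1 with h3 | h3
  · exact AA_ne hn hi0 hx h3
  · unfold LL at h3
    rw [eval_prod, prod_eq_zero_iff] at h3
    obtain ⟨j, hj, hj2⟩ := h3
    exact hV j (mem_range.1 hj) hj2

/-- the number of solutions -/
lemma zeros_bound {U : ℕ} {c : ZMod p} {n : ℕ} {V : ℕ} {d : ZMod p} {m : ℕ}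
    (hU : (U : ZMod p) ≠ 0 ∨ n = 0) (hV : (V : ZMod p) ≠ 0 ∨ m = 0)
    (hP : PP U c n V d m ≠ 0) :
    (univ.filter (fun x : ZMod p => RR U c n x = RR V d m x)).card ≤ 2 * (n + m) := by
  have hne : PP U c n V d m * (LL U c n * LL V d m) ≠ 0 :=
    mul_ne_zero hP (mul_ne_zero (LL_ne hU c) (LL_ne hV d))
  have h1 : (univ.filter (fun x : ZMod p => RR U c n x = RR V d m x)) ⊆
      (PP U c n V d m * (LL U c n * LL V d m)).roots.toFinset := by
    intro x hx
    rw [mem_filter] at hx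
    rw [Multiset.mem_toFinset, mem_roots hne, IsRoot.def, eval_mul, eval_mul]
    by_contra hcon
    have h2 : (LL U c n).eval x ≠ 0 := fun h => hcon (by rw [h]; ring)
    have h3 : (LL V d m).eval x ≠ 0 := fun h => hcon (by rw [h]; ring)
    have h4 : (PP U c n V d m).eval x = 0 := by
      unfold PP
      rw [eval_sub, eval_mul, eval_mul, ← RR_eq h2, ← RR_eq h3, hx.2]
      ring
    exact hcon (by rw [h4]; ring)
  refine (card_le_card h1).trans ((Multiset.toFinset_card_le _).trans ((card_roots' _).trans ?_))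
  refine natDegree_mul_le.trans ?_
  have a1 : (PP U c n V d m).natDegree ≤ n + m := by
    unfold PP
    refine (natDegree_sub_le _ _).trans (max_le ?_ ?_)
    · refine natDegree_mul_le.trans ?_
      have := AA_deg U c n
      have := LL_deg V d m
      omega
    · refine natDegree_mul_le.trans ?_
      have := AA_deg V d m
      have := LL_deg U c n
      omega
  have a2 : (LL U c n * LL V d m).natDegree ≤ n + m := by
    refine natDegree_mul_le.trans ?_
    have := LL_deg V d m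
    have := LL_deg U c n
    omega
  omega

lemma hh_multi (hp2 : p ≠ 2) (y : ZMod p) (n : ℕ) :
    hh p (y + n) - hh p y = ∑ i ∈ range n, (y + (i + 1 : ℕ))⁻¹ := by
  induction n with
  | zero => simp
  | succ n ih =>
    rw [sum_range_succ, ← ih]
    have h1 := hh_step hp2 (y + ((n + 1 : ℕ) : ZMod p))
    have e1 : y + ((n + 1 : ℕ) : ZMod p) - 1 = y + n := by push_cast; ring
    rw [e1] at h1
    linear_combination h1

lemma hh_RR (hp2 : p ≠ 2) (U : ℕ) (c : ZMod p) (t : ℕ) (x : ZMod p) :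
    hh p ((U : ZMod p) * (x + t) + c) - hh p ((U : ZMod p) * x + c) = RR U c (U * t) x := by
  have h1 := hh_multi hp2 ((U : ZMod p) * x + c) (U * t)
  have e1 : (U : ZMod p) * x + c + ((U * t : ℕ) : ZMod p) = (U : ZMod p) * (x + t) + c := by
    push_cast; ring
  rw [e1] at h1
  rw [h1]
  rfl

/-- existence of an uncancelled pole -/
lemma exists_pole {U V : ℕ} {c d : ℤ} {t : ℕ} (ht : 1 ≤ t)
    (hUV : V < U ∨ (U = V ∧ 1 ≤ U ∧ c < d)) (hbig : (U + V) * t + (c.natAbs + d.natAbs) < p) :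
    ∃ i0 < U * t, ∃ x0 : ZMod p, (lf U (c : ZMod p) i0).eval x0 = 0 ∧
      ∀ j < V * t, (lf V (d : ZMod p) j).eval x0 ≠ 0 := by
  have hU1 : 1 ≤ U := by rcases hUV with h | h <;> omega
  have hUt : U ≤ U * t := Nat.le_mul_of_pos_right U ht
  have hadd : (U + V) * t = U * t + V * t := by ring
  have hUp : U < p := by omega
  have hU0 : (U : ZMod p) ≠ 0 := by
    intro h
    rw [ZMod.natCast_eq_zero_iff] at h
    exact absurd (Nat.le_of_dvd (by omega) h) (by omega)
  rcases hUV with h | ⟨h1, h2, h3⟩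
  · -- counting
    by_contra hcon
    push Not at hcon
    set xs : ℕ → ZMod p := fun i => -((c : ZMod p) + (i + 1 : ℕ)) / U with hxs
    have hroot : ∀ i, (lf U (c : ZMod p) i).eval (xs i) = 0 := by
      intro i
      rw [lf_eval, hxs]
      field_simp
      ring
    have hinj : Set.InjOn xs (range (U * t)) := by
      intro i hi j hj hij
      simp only [coe_range, Set.mem_Iio] at hi hj
      rw [hxs] at hij
      simp only at hij
      have h4 : ((i : ℕ) : ZMod p) = ((j : ℕ) : ZMod p) := by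
        field_simp at hij
        push_cast at hij
        linear_combination - hij
      rw [ZMod.natCast_eq_natCast_iff', Nat.mod_eq_of_lt (by omega), Nat.mod_eq_of_lt (by omega)] at h4
      exact h4
    have hcard : ((range (U * t)).image xs).card = U * t := by
      rw [card_image_of_injOn hinj, card_range]
    by_cases hV : V = 0
    · subst hV
      obtain ⟨j, hj, _⟩ := hcon 0 (by omega) (xs 0) (hroot 0)
      omega
    · have hV0 : (V : ZMod p) ≠ 0 := by
        intro h'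
        rw [ZMod.natCast_eq_zero_iff] at h'
        exact absurd (Nat.le_of_dvd (by omega) h') (by omega)
      have hsub : (range (U * t)).image xs ⊆
          (range (V * t)).image (fun j : ℕ => -((d : ZMod p) + (j + 1 : ℕ)) / V) := by
        intro x hx
        rw [mem_image] at hx
        obtain ⟨i, hi, rfl⟩ := hx
        obtain ⟨j, hj, hj2⟩ := hcon i (mem_range.1 hi) (xs i) (hroot i)
        rw [mem_image]
        refine ⟨j, mem_range.2 hj, ?_⟩
        rw [lf_eval] at hj2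
        field_simp
        linear_combination - hj2
      have h5 := card_le_card hsub
      rw [hcard] at h5
      have h6 := card_image_le (s := range (V * t))
        (f := fun j : ℕ => -((d : ZMod p) + (j + 1 : ℕ)) / (V : ZMod p))
      rw [card_range] at h6
      have h7 : V * t < U * t := Nat.mul_lt_mul_of_pos_right h ht
      omega
  · subst h1
    refine ⟨0, by omega, -((c : ZMod p) + (0 + 1 : ℕ)) / U, ?_, ?_⟩
    · rw [lf_eval]
      field_simp
      ring
    · intro j hj h4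
      rw [lf_eval] at h4
      have h5 : (((d - c + j : ℤ)) : ZMod p) = 0 := by
        field_simp at h4
        push_cast at h4 ⊢
        linear_combination h4
      rw [ZMod.intCast_zmod_eq_zero_iff_dvd] at h5
      have h6 := Int.le_of_dvd (by omega) h5
      omega

/-- **coincidences after a shift** -/
lemma shift_count (hp2 : p ≠ 2) {U V : ℕ} {c d : ℤ} {t : ℕ} (ht : 1 ≤ t)
    (hUV : V < U ∨ (U = V ∧ 1 ≤ U ∧ c < d)) (hbig : (U + V) * t + (c.natAbs + d.natAbs) < p) :
    ((univ.filter (fun x : ZMod p => hh p ((U : ZMod p) * x + c) = hh p ((V : ZMod p) * x + d))).filter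
      (fun x => x + (t : ZMod p) ∈ (univ.filter (fun x : ZMod p =>
        hh p ((U : ZMod p) * x + c) = hh p ((V : ZMod p) * x + d))))).card ≤ 2 * ((U + V) * t) := by
  obtain ⟨i0, hi0, x0, hx0, hj⟩ := exists_pole (p := p) ht hUV hbig
  have hU1 : 1 ≤ U := by rcases hUV with h | h <;> omega
  have hadd : (U + V) * t = U * t + V * t := by ring
  have hUt : U ≤ U * t := Nat.le_mul_of_pos_right U ht
  have hVt : V ≤ V * t := Nat.le_mul_of_pos_right V ht
  have hU0 : (U : ZMod p) ≠ 0 := by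
    intro h
    rw [ZMod.natCast_eq_zero_iff] at h
    exact absurd (Nat.le_of_dvd (by omega) h) (by omega)
  have hV0 : (V : ZMod p) ≠ 0 ∨ V * t = 0 := by
    by_cases hV : V = 0
    · right; rw [hV]; ring
    · left
      intro h
      rw [ZMod.natCast_eq_zero_iff] at h
      exact absurd (Nat.le_of_dvd (by omega) h) (by omega)
  have hP := PP_ne (p := p) (by omega) hi0 hx0 hj
  have h1 := zeros_bound (Or.inl hU0) hV0 hP
  rw [← hadd] at h1
  refine (card_le_card ?_).trans h1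
  intro x hx
  rw [mem_filter, mem_filter, mem_filter] at hx
  rw [mem_filter]
  refine ⟨mem_univ _, ?_⟩
  rw [← hh_RR hp2, ← hh_RR hp2, hx.1.2, hx.2.2]

/-- the coincidence set -/
noncomputable def KK (p : ℕ) (u c v d : ℤ) [Fact p.Prime] : Finset (ZMod p) :=
  univ.filter (fun x : ZMod p => hh p ((u : ZMod p) * x + c) = hh p ((v : ZMod p) * x + d))

lemma KK_symm (u c v d : ℤ) : KK p u c v d = KK p v d u c := by
  unfold KK
  ext x
  simp [eq_comm]

lemma KK_refl (hp2 : p ≠ 2) (u c v d : ℤ) : KK p u c v d = KK p (-u) (-1 - c) v d := by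
  unfold KK
  ext x
  have e1 : (((-u : ℤ) : ZMod p)) * x + ((-1 - c : ℤ) : ZMod p) = -1 - ((u : ZMod p) * x + c) := by
    push_cast; ring
  simp only [mem_filter, mem_univ, true_and]
  rw [e1, hh_refl hp2]

end poly

lemma KK_card_le (p : ℕ) [hp : Fact p.Prime] (u c v d : ℤ) : (KK p u c v d).card ≤ p := by
  have := card_filter_le (univ : Finset (ZMod p))
    (fun x : ZMod p => hh p ((u : ZMod p) * x + c) = hh p ((v : ZMod p) * x + d))
  rwa [card_univ, ZMod.card] at this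

/-- the bound for large primes gives the bound for all primes -/
lemma KK_small {u c v d : ℤ} {D : ℝ} (hD : 0 ≤ D) {P0 : ℕ}
    (h : ∀ (p : ℕ) [Fact p.Prime], p ≠ 2 → P0 ≤ p →
      ((KK p u c v d).card : ℝ) ≤ D * (p : ℝ) ^ ((2 : ℝ) / 3)) :
    ∃ C : ℝ, 0 ≤ C ∧ ∀ (p : ℕ) [Fact p.Prime], p ≠ 2 →
      ((KK p u c v d).card : ℝ) ≤ C * (p : ℝ) ^ ((2 : ℝ) / 3) := by
  refine ⟨D + P0, by positivity, fun p hp hp2 => ?_⟩
  have hp1 : (1 : ℝ) ≤ p := by exact_mod_cast hp.out.one_le
  have h1 : (1 : ℝ) ≤ (p : ℝ) ^ ((2 : ℝ) / 3) := Real.one_le_rpow hp1 (by norm_num)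
  by_cases hP : P0 ≤ p
  · refine (h p hp2 hP).trans ?_
    apply mul_le_mul_of_nonneg_right _ (by positivity)
    have : (0 : ℝ) ≤ P0 := Nat.cast_nonneg _
    linarith
  · have h2 : ((KK p u c v d).card : ℝ) ≤ p := by exact_mod_cast KK_card_le p u c v d
    have h3 : (p : ℝ) ≤ P0 := by exact_mod_cast (by omega : p ≤ P0)
    have h4 : (0 : ℝ) ≤ P0 := Nat.cast_nonneg _
    nlinarith

/-- the main case -/
lemma KK_main {U V : ℕ} {c d : ℤ} (hUV : V < U ∨ (U = V ∧ 1 ≤ U ∧ c < d)) :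
    ∃ C : ℝ, 0 ≤ C ∧ ∀ (p : ℕ) [Fact p.Prime], p ≠ 2 →
      ((KK p U c V d).card : ℝ) ≤ C * (p : ℝ) ^ ((2 : ℝ) / 3) := by
  set E : ℕ := (U + V) + (c.natAbs + d.natAbs) + 1 with hE
  have hD : (0 : ℝ) ≤ 2 * ((U : ℝ) + V) := by positivity
  refine KK_small (D := 4 + 2 * (2 * ((U : ℝ) + V))) (by positivity) (P0 := E ^ 2) ?_
  intro p hp hp2 hP
  apply gap_bound' _ hD
  intro t ht1 ht2
  have hp1 : (1 : ℝ) ≤ p := by exact_mod_cast hp.out.one_le
  have hbig : (U + V) * t + (c.natAbs + d.natAbs) < p := by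
    set P : ℝ := (p : ℝ) ^ ((1 : ℝ) / 3) with hPdef
    have hP1 : 1 ≤ P := Real.one_le_rpow hp1 (by norm_num)
    have hP3 : P ^ 3 = p := by
      rw [hPdef, ← Real.rpow_natCast, ← Real.rpow_mul (by linarith)]
      norm_num
    have hE1 : (E : ℝ) ^ 2 ≤ P ^ 3 := by
      rw [hP3]; exact_mod_cast hP
    have hE0 : (1 : ℝ) ≤ E := by
      have : 1 ≤ E := by omega
      exact_mod_cast this
    have h3 : (((U + V) * t + (c.natAbs + d.natAbs) : ℕ) : ℝ) < P ^ 3 := by
      have a0 : ((U : ℝ) + V) + ((c.natAbs : ℝ) + d.natAbs) + 1 = E := by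
        rw [hE]; push_cast; ring
      push_cast
      have a1 : ((U : ℝ) + V) * t ≤ ((U : ℝ) + V) * P :=
        mul_le_mul_of_nonneg_left ht2.le (by positivity)
      have a2 : ((c.natAbs : ℝ) + d.natAbs) ≤ ((c.natAbs : ℝ) + d.natAbs) * P :=
        le_mul_of_one_le_right (by positivity) hP1
      have a3 : ((U : ℝ) + V) * t + ((c.natAbs : ℝ) + d.natAbs) ≤ (E - 1) * P := by
        rw [← a0]
        nlinarith
      have a4 : (E : ℝ) * P ≤ P ^ 3 := by
        have b1 : (E : ℝ) ≤ P ^ 2 := by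
          by_contra hcon
          push Not at hcon
          have b2 : P ^ 4 < E ^ 2 := by
            have : (P ^ 2) ^ 2 < (E : ℝ) ^ 2 := pow_lt_pow_left₀ hcon (by positivity) (by norm_num)
            calc P ^ 4 = (P ^ 2) ^ 2 := by ring
              _ < _ := this
          have b3 : P ^ 3 ≤ P ^ 4 := pow_le_pow_right₀ hP1 (by norm_num)
          linarith
        calc (E : ℝ) * P ≤ P ^ 2 * P := mul_le_mul_of_nonneg_right b1 (by linarith)
          _ = P ^ 3 := by ring
      have a5 : (E - 1) * P < E * P := by nlinarith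
      linarith
    rw [hP3] at h3
    exact_mod_cast h3
  have h1 := shift_count (p := p) hp2 ht1 hUV hbig
  have h2 : ((((KK p U c V d).filter (fun x => x + (t : ZMod p) ∈ KK p U c V d)).card : ℕ) : ℝ) ≤
      ((2 * ((U + V) * t) : ℕ) : ℝ) := by
    unfold KK
    simp only [Int.cast_natCast]
    exact Nat.cast_le.2 h1
  refine h2.trans (le_of_eq ?_)
  push_cast
  ring

/-- two different constants -/
lemma KK_const {c d : ℕ} (hcd : c < d) :
    ∃ C : ℝ, 0 ≤ C ∧ ∀ (p : ℕ) [Fact p.Prime], p ≠ 2 →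
      ((KK p 0 c 0 d).card : ℝ) ≤ C * (p : ℝ) ^ ((2 : ℝ) / 3) := by
  set N : ℕ := ∑ i ∈ Ioc c d, ∏ j ∈ (Ioc c d).erase i, j with hN
  have hN0 : 0 < N := by
    apply sum_pos
    · intro i _
      apply prod_pos
      intro j hj
      have := (mem_Ioc.1 (mem_of_mem_erase hj)).1
      omega
    · exact ⟨d, mem_Ioc.2 ⟨hcd, le_rfl⟩⟩
  refine KK_small (D := 0) le_rfl (P0 := N + d + 1) ?_
  intro p hp hp2 hP
  rw [zero_mul]
  have h0 : KK p 0 c 0 d = ∅ := by
    unfold KK
    rw [filter_eq_empty_iff]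
    intro x _ h
    have e1 : (((0 : ℤ) : ZMod p)) * x + ((c : ℤ) : ZMod p) = (c : ZMod p) := by push_cast; ring
    have e2 : (((0 : ℤ) : ZMod p)) * x + ((d : ℤ) : ZMod p) = (d : ZMod p) := by push_cast; ring
    rw [e1, e2] at h
    have h1 : hh p (d : ZMod p) = hh p (c : ZMod p) + ∑ i ∈ Ioc c d, ((i : ℕ) : ZMod p)⁻¹ := by
      unfold hh
      rw [ZMod.val_cast_of_lt (by omega), ZMod.val_cast_of_lt (by omega)]
      rw [← sum_union]
      · congr 1
        ext i
        simp only [mem_range, mem_union, mem_Ioc]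
        omega
      · rw [disjoint_left]
        intro i hi hi2
        rw [mem_range] at hi
        rw [mem_Ioc] at hi2
        omega
    rw [← h] at h1
    have h2 : ∑ i ∈ Ioc c d, ((i : ℕ) : ZMod p)⁻¹ = 0 := by
      linear_combination - h1
    have hne : ∀ j ∈ Ioc c d, ((j : ℕ) : ZMod p) ≠ 0 := by
      intro j hj hj0
      rw [mem_Ioc] at hj
      rw [ZMod.natCast_eq_zero_iff] at hj0
      exact absurd (Nat.le_of_dvd (by omega) hj0) (by omega)
    have h3 : ((N : ℕ) : ZMod p) = (∏ j ∈ Ioc c d, ((j : ℕ) : ZMod p)) *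
        ∑ i ∈ Ioc c d, ((i : ℕ) : ZMod p)⁻¹ := by
      rw [hN, mul_sum]
      push_cast
      apply sum_congr rfl
      intro i hi
      rw [← mul_prod_erase (Ioc c d) (fun j : ℕ => (j : ZMod p)) hi, mul_comm, ← mul_assoc,
        inv_mul_cancel₀ (hne i hi), one_mul]
    rw [h2, mul_zero, ZMod.natCast_eq_zero_iff] at h3
    have := Nat.le_of_dvd hN0 h3
    omega
  rw [h0]
  simp

/-- nonnegative slopes -/
lemma KK_nonneg {u c v d : ℤ} (hu : 0 < u ∨ (u = 0 ∧ 0 ≤ c)) (hv : 0 < v ∨ (v = 0 ∧ 0 ≤ d))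
    (hne : (u, c) ≠ (v, d)) :
    ∃ C : ℝ, 0 ≤ C ∧ ∀ (p : ℕ) [Fact p.Prime], p ≠ 2 →
      ((KK p u c v d).card : ℝ) ≤ C * (p : ℝ) ^ ((2 : ℝ) / 3) := by
  have hu0 : 0 ≤ u := by rcases hu with h | h <;> omega
  have hv0 : 0 ≤ v := by rcases hv with h | h <;> omega
  obtain ⟨U, rfl⟩ := Int.eq_ofNat_of_zero_le hu0
  obtain ⟨V, rfl⟩ := Int.eq_ofNat_of_zero_le hv0
  rcases lt_trichotomy U V with h | h | h
  · obtain ⟨C, hC0, hC⟩ := KK_main (U := V) (V := U) (c := d) (d := c) (Or.inl h)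
    refine ⟨C, hC0, fun p hp hp2 => ?_⟩
    rw [KK_symm]
    exact hC p hp2
  · subst h
    have hcd : c ≠ d := fun h => hne (by rw [h])
    by_cases hU : 1 ≤ U
    · rcases lt_or_gt_of_ne hcd with h | h
      · exact KK_main (Or.inr ⟨rfl, hU, h⟩)
      · obtain ⟨C, hC0, hC⟩ := KK_main (U := U) (V := U) (c := d) (d := c) (Or.inr ⟨rfl, hU, h⟩)
        refine ⟨C, hC0, fun p hp hp2 => ?_⟩
        rw [KK_symm]
        exact hC p hp2
    · have hU0 : U = 0 := by omega
      subst hU0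
      have hc : 0 ≤ c := by rcases hu with h | h <;> omega
      have hd : 0 ≤ d := by rcases hv with h | h <;> omega
      obtain ⟨c', rfl⟩ := Int.eq_ofNat_of_zero_le hc
      obtain ⟨d', rfl⟩ := Int.eq_ofNat_of_zero_le hd
      rcases lt_or_gt_of_ne hcd with h | h
      · obtain ⟨C, hC0, hC⟩ := KK_const (c := c') (d := d') (by omega)
        exact ⟨C, hC0, fun p hp hp2 => hC p hp2⟩
      · obtain ⟨C, hC0, hC⟩ := KK_const (c := d') (d := c') (by omega)
        refine ⟨C, hC0, fun p hp hp2 => ?_⟩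
        rw [KK_symm]
        exact hC p hp2
  · exact KK_main (Or.inl h)

/-- **coincidences along two linear forms** -/
theorem coll (u c v d : ℤ) (h1 : (u, c) ≠ (v, d)) (h2 : (u, c) ≠ (-v, -1 - d)) :
    ∃ C : ℝ, 0 ≤ C ∧ ∀ (p : ℕ) [Fact p.Prime], p ≠ 2 →
      ((KK p u c v d).card : ℝ) ≤ C * (p : ℝ) ^ ((2 : ℝ) / 3) := by
  have key : ∀ u c : ℤ, (0 < u ∨ (u = 0 ∧ 0 ≤ c)) ∨ (0 < -u ∨ (-u = 0 ∧ 0 ≤ -1 - c)) := by
    intro u c
    omega
  rcases key u c with hu | hu <;> rcases key v d with hv | hv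
  · exact KK_nonneg hu hv h1
  · obtain ⟨C, hC0, hC⟩ := KK_nonneg hu hv h2
    refine ⟨C, hC0, fun p hp hp2 => ?_⟩
    rw [KK_symm, KK_refl hp2, KK_symm]
    exact hC p hp2
  · obtain ⟨C, hC0, hC⟩ := KK_nonneg hu hv (by
      intro h
      rw [Prod.mk.injEq] at h
      apply h2
      rw [Prod.mk.injEq]
      constructor <;> omega)
    refine ⟨C, hC0, fun p hp hp2 => ?_⟩
    rw [KK_refl hp2]
    exact hC p hp2
  · obtain ⟨C, hC0, hC⟩ := KK_nonneg hu hv (by
      intro h
      rw [Prod.mk.injEq] at h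
      apply h1
      rw [Prod.mk.injEq]
      constructor <;> omega)
    refine ⟨C, hC0, fun p hp hp2 => ?_⟩
    rw [KK_refl hp2, KK_symm, KK_refl hp2, KK_symm]
    exact hC p hp2

end Pool.Agent.W2helper64.WJ
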