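import Mathlib

set_option autoImplicit false

/-!
# Elementary symmetric sums of small numbers
-/

namespace Pool.Agent.W2helper64.WJ

open Finset
open scoped Classical

/-- the elementary symmetric sum -/
noncomputable def es (f : ℕ → ℝ) (k : ℕ) (S : Finset ℕ) : ℝ :=
  ∑ U ∈ powersetCard k S, ∏ p ∈ U, f p

lemma es_zero (f : ℕ → ℝ) (S : Finset ℕ) : es f 0 S = 1 := by
  unfold es; simp

lemma es_one (f : ℕ → ℝ) (S : Finset ℕ) : es f 1 S = ∑ p ∈ S, f p := by
  unfold es
  rw [powersetCard_one, sum_map]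
  simp

lemma es_insert (f : ℕ → ℝ) (k : ℕ) {S : Finset ℕ} {q : ℕ} (hq : q ∉ S) :
    es f (k + 1) (insert q S) = es f (k + 1) S + f q * es f k S := by
  unfold es
  rw [powersetCard_succ_insert hq, sum_union]
  · congr 1
    rw [sum_image, mul_sum]
    · apply sum_congr rfl
      intro U hU
      rw [prod_insert]
      intro h
      exact hq ((mem_powersetCard.1 hU).1 h)
    · intro U hU V hV h
      have h1 : q ∉ U := fun h => hq ((mem_powersetCard.1 hU).1 h)
      have h2 : q ∉ V := fun h => hq ((mem_powersetCard.1 hV).1 h)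
      rw [← erase_insert h1, ← erase_insert h2]
      exact congrArg (fun W => W.erase q) h
  · rw [disjoint_left]
    intro U hU hU2
    rw [mem_image] at hU2
    obtain ⟨V, _, rfl⟩ := hU2
    exact hq ((mem_powersetCard.1 hU).1 (mem_insert_self q V))

lemma es_nonneg {f : ℕ → ℝ} {S : Finset ℕ} (hf : ∀ p ∈ S, 0 ≤ f p) (k : ℕ) : 0 ≤ es f k S :=
  sum_nonneg fun _ hU => prod_nonneg fun p hp => hf p ((mem_powersetCard.1 hU).1 hp)

lemma bern {x l : ℝ} (hx : 0 ≤ x) (hl : 0 ≤ l) (n : ℕ) :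
    x ^ (n + 1) + (n + 1) * l * x ^ n ≤ (x + l) ^ (n + 1) := by
  induction n with
  | zero => simp
  | succ n ih =>
    have h1 : (x + l) ^ (n + 1 + 1) = (x + l) * (x + l) ^ (n + 1) := by ring
    rw [h1]
    have h2 := mul_le_mul_of_nonneg_left ih (by linarith : 0 ≤ x + l)
    refine le_trans ?_ h2
    have h3 : 0 ≤ (n + 1) * l * l * x ^ n := by positivity
    push_cast
    ring_nf
    ring_nf at h3
    nlinarith

/-- the second binomial coefficient -/
noncomputable def c2 (n : ℕ) : ℝ := ((n : ℝ) + 2) * (n + 1) / 2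

lemma c2_nonneg (n : ℕ) : 0 ≤ c2 n := by unfold c2; positivity

lemma tay {x l : ℝ} (hx : 0 ≤ x) (hl : 0 ≤ l) (n : ℕ) :
    (x + l) ^ (n + 2) ≤ x ^ (n + 2) + (n + 2) * l * x ^ (n + 1) + c2 n * l ^ 2 * (x + l) ^ n := by
  induction n with
  | zero =>
    unfold c2
    apply le_of_eq
    push_cast
    ring
  | succ n ih =>
    have h1 : (x + l) ^ (n + 1 + 2) = (x + l) * (x + l) ^ (n + 2) := by ring
    rw [h1]
    refine (mul_le_mul_of_nonneg_left ih (by linarith : 0 ≤ x + l)).trans ?_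
    have h2 : x ^ (n + 1) ≤ (x + l) ^ (n + 1) := pow_le_pow_left₀ hx (by linarith) _
    have h3 : ((n : ℝ) + 2) * l ^ 2 * x ^ (n + 1) ≤ ((n : ℝ) + 2) * l ^ 2 * (x + l) ^ (n + 1) :=
      mul_le_mul_of_nonneg_left h2 (by positivity)
    have h4 : c2 (n + 1) = c2 n + (n + 2) := by
      unfold c2; push_cast; ring
    rw [h4]
    have e1 : (x + l) * (x ^ (n + 2) + (n + 2) * l * x ^ (n + 1) + c2 n * l ^ 2 * (x + l) ^ n) =
        x ^ (n + 1 + 2) + (n + 3) * l * x ^ (n + 1 + 1) + c2 n * l ^ 2 * (x + l) ^ (n + 1) +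
          ((n : ℝ) + 2) * l ^ 2 * x ^ (n + 1) := by ring
    rw [e1]
    push_cast
    have e2 : x ^ (n + 1 + 2) + ((n : ℝ) + 1 + 2) * l * x ^ (n + 1 + 1) +
        (c2 n + (n + 2)) * l ^ 2 * (x + l) ^ (n + 1) =
        x ^ (n + 1 + 2) + (n + 3) * l * x ^ (n + 1 + 1) + c2 n * l ^ 2 * (x + l) ^ (n + 1) +
          ((n : ℝ) + 2) * l ^ 2 * (x + l) ^ (n + 1) := by ring
    rw [e2]
    linarith

lemma es_le {f : ℕ → ℝ} (S : Finset ℕ) : (∀ p ∈ S, 0 ≤ f p) → ∀ k : ℕ,
    (k.factorial : ℝ) * es f k S ≤ (∑ p ∈ S, f p) ^ k := by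
  induction S using Finset.induction_on with
  | empty =>
    intro _ k
    rcases Nat.eq_zero_or_pos k with h | h
    · subst h; rw [es_zero]; simp
    · obtain ⟨m, rfl⟩ : ∃ m, k = m + 1 := ⟨k - 1, by omega⟩
      have : es f (m + 1) ∅ = 0 := by
        unfold es
        rw [powersetCard_eq_empty.2 (by simp)]
        simp
      rw [this]
      simp
  | insert q S hq ih =>
    intro hf k
    have hf' : ∀ p ∈ S, 0 ≤ f p := fun p hp => hf p (mem_insert_of_mem hp)
    have hfq : 0 ≤ f q := hf q (mem_insert_self _ _)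
    have hL0 : 0 ≤ ∑ p ∈ S, f p := sum_nonneg hf'
    rw [sum_insert hq]
    set L := ∑ p ∈ S, f p with hL
    rcases Nat.eq_zero_or_pos k with h | h
    · subst h; rw [es_zero]; simp
    · obtain ⟨m, rfl⟩ : ∃ m, k = m + 1 := ⟨k - 1, by omega⟩
      rw [es_insert f m hq]
      have h1 := ih hf' (m + 1)
      have h2 := ih hf' m
      have h3 := bern hL0 hfq m
      have h4 : ((m + 1).factorial : ℝ) = (m + 1) * m.factorial := by
        rw [Nat.factorial_succ]; push_cast; ring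
      have h5 : ((m : ℝ) + 1) * f q * (m.factorial * es f m S) ≤ ((m : ℝ) + 1) * f q * L ^ m :=
        mul_le_mul_of_nonneg_left h2 (by positivity)
      have e : ((m + 1).factorial : ℝ) * (es f (m + 1) S + f q * es f m S) =
          (m + 1).factorial * es f (m + 1) S + (m + 1) * f q * (m.factorial * es f m S) := by
        rw [mul_add, h4]; ring
      rw [e, add_comm (f q) L]
      linarith

lemma es_ge {f : ℕ → ℝ} (S : Finset ℕ) : (∀ p ∈ S, 0 ≤ f p) → ∀ k : ℕ,
    (∑ p ∈ S, f p) ^ (k + 2) ≤ ((k + 2).factorial : ℝ) * es f (k + 2) S +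
      c2 k * (∑ p ∈ S, f p ^ 2) * (∑ p ∈ S, f p) ^ k := by
  induction S using Finset.induction_on with
  | empty =>
    intro _ k
    have : es f (k + 2) ∅ = 0 := by
      unfold es
      rw [powersetCard_eq_empty.2 (by simp)]
      simp
    rw [this]
    simp
  | insert q S hq ih =>
    intro hf k
    have hf' : ∀ p ∈ S, 0 ≤ f p := fun p hp => hf p (mem_insert_of_mem hp)
    have hfq : 0 ≤ f q := hf q (mem_insert_self _ _)
    have hL0 : 0 ≤ ∑ p ∈ S, f p := sum_nonneg hf'
    have hS0 : 0 ≤ ∑ p ∈ S, f p ^ 2 := sum_nonneg fun p _ => sq_nonneg _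
    rw [sum_insert hq, sum_insert hq, es_insert f (k + 1) hq]
    set L := ∑ p ∈ S, f p with hL
    set S2 := ∑ p ∈ S, f p ^ 2 with hS2
    have h1 := ih hf' k
    have h3 := tay hL0 hfq k
    have h4 : ((k + 2).factorial : ℝ) = (k + 2) * (k + 1).factorial := by
      rw [Nat.factorial_succ]; push_cast; ring
    have e : ((k + 2).factorial : ℝ) * (es f (k + 2) S + f q * es f (k + 1) S) =
        (k + 2).factorial * es f (k + 2) S + (k + 2) * f q * ((k + 1).factorial * es f (k + 1) S) := by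
      rw [mul_add]
      congr 1
      rw [h4]; ring
    have e2 : es f (k + 1 + 1) S = es f (k + 2) S := rfl
    rw [e2, e, add_comm (f q) L]
    rcases Nat.eq_zero_or_pos k with h | h
    · subst h
      rw [es_one] at *
      rw [← hL]
      unfold c2 at *
      simp only [Nat.factorial, CharP.cast_eq_zero, zero_add, pow_zero, mul_one, Nat.cast_one] at *
      norm_num at *
      nlinarith
    · obtain ⟨m, rfl⟩ : ∃ m, k = m + 1 := ⟨k - 1, by omega⟩
      have h5 := ih hf' m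
      have h6 : ((m + 1 : ℕ) + 2 : ℝ) * f q * (L ^ (m + 2) - c2 m * S2 * L ^ m) ≤
          ((m + 1 : ℕ) + 2 : ℝ) * f q * ((m + 2).factorial * es f (m + 2) S) := by
        apply mul_le_mul_of_nonneg_left _ (by positivity)
        linarith
      have h7 := bern hL0 hfq m
      have h8 : c2 (m + 1) * S2 * (L ^ (m + 1) + (m + 1) * f q * L ^ m) ≤
          c2 (m + 1) * S2 * (L + f q) ^ (m + 1) :=
        mul_le_mul_of_nonneg_left h7 (mul_nonneg (c2_nonneg _) hS0)
      have h9 : c2 (m + 1) * (m + 1) = ((m + 1 : ℕ) + 2 : ℝ) * c2 m := by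
        unfold c2; push_cast; ring
      have h10 : c2 (m + 1) * S2 * ((m + 1) * f q * L ^ m) =
          ((m + 1 : ℕ) + 2 : ℝ) * f q * (c2 m * S2 * L ^ m) := by
        calc c2 (m + 1) * S2 * ((m + 1) * f q * L ^ m) =
              (c2 (m + 1) * (m + 1)) * (S2 * f q * L ^ m) := by ring
          _ = _ := by rw [h9]; ring
      have e3 : ((m + 1 : ℕ) : ℝ) + 2 = (((m + 1 : ℕ) : ℝ) + 2) := rfl
      have e4 : m + 1 + 1 = m + 2 := rfl
      rw [e4]
      have e5 : c2 (m + 1) * (f q ^ 2 + S2) * (L + f q) ^ (m + 1) =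
          c2 (m + 1) * f q ^ 2 * (L + f q) ^ (m + 1) + c2 (m + 1) * S2 * (L + f q) ^ (m + 1) := by ring
      rw [e5]
      have e6 : ((m + 1 : ℕ) + 2 : ℝ) * f q * (L ^ (m + 2) - c2 m * S2 * L ^ m) =
          ((m + 1 : ℕ) + 2 : ℝ) * f q * L ^ (m + 2) - ((m + 1 : ℕ) + 2 : ℝ) * f q * (c2 m * S2 * L ^ m) := by
        ring
      rw [mul_add, h10] at h8
      rw [e6] at h6
      linarith

end Pool.Agent.W2helper64.WJ
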