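import Pool.Agent.W2helper64.WJ.Tr

set_option autoImplicit false

/-!
# From characteristic functions to frequencies, and the Poisson limit measure
-/

namespace Pool.Agent.W2helper64.WJ

open Finset Filter MeasureTheory ProbabilityTheory
open scoped Classical Topology RealInnerProductSpace ENNReal

variable {ι : Type} [Fintype ι]

/-- the law (general index type) of `Z a`, `1 ≤ a ≤ X` -/
noncomputable def lawG (X : ℕ) (Z : ℕ → (ι → ℝ)) : Measure (EuclideanSpace ℝ (ι)) :=
  (X : ℝ≥0∞)⁻¹ • ∑ i ∈ range X, Measure.dirac (WithLp.toLp 2 (Z (i + 1)))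

lemma lawG_apply (X : ℕ) (Z : ℕ → (ι → ℝ)) {s : Set (EuclideanSpace ℝ (ι))}
    (hs : MeasurableSet s) : lawG X Z s =
      (X : ℝ≥0∞)⁻¹ * ((range X).filter (fun i => WithLp.toLp 2 (Z (i + 1)) ∈ s)).card := by
  unfold lawG
  rw [Measure.smul_apply, Measure.finsetSum_apply, smul_eq_mul]
  congr 1
  have : ∀ i ∈ range X, (Measure.dirac (WithLp.toLp 2 (Z (i + 1)))) s =
      if WithLp.toLp 2 (Z (i + 1)) ∈ s then (1 : ℝ≥0∞) else 0 := by
    intro i _
    rw [Measure.dirac_apply' _ hs, Set.indicator_apply]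
    rfl
  rw [sum_congr rfl this, sum_boole]

lemma lawG_prob {X : ℕ} (hX : 0 < X) (Z : ℕ → (ι → ℝ)) : IsProbabilityMeasure (lawG X Z) := by
  constructor
  rw [lawG_apply X Z MeasurableSet.univ]
  simp only [Set.mem_univ, filter_true, card_range]
  apply ENNReal.inv_mul_cancel
  · exact_mod_cast hX.ne'
  · exact ENNReal.natCast_ne_top X

lemma lawG_charFun {X : ℕ} (hX : 0 < X) (Z : ℕ → (ι → ℝ)) (t : ι → ℝ) :
    charFun (lawG X Z) (WithLp.toLp 2 t) = cf X (fun a => ∑ j, t j * Z a j) := by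
  rw [charFun_apply]
  unfold lawG
  rw [integral_smul_measure, integral_finsetSum_measure]
  · unfold cf av
    have h1 : ∀ i ∈ range X, ∫ x, Complex.exp (⟪x, WithLp.toLp 2 t⟫ * Complex.I)
        ∂(Measure.dirac (WithLp.toLp 2 (Z (i + 1)))) =
        Complex.exp (((∑ j, t j * Z (i + 1) j : ℝ) : ℂ) * Complex.I) := by
      intro i _
      rw [integral_dirac, EuclideanSpace.inner_eq_star_dotProduct]
      simp [dotProduct]
    rw [sum_congr rfl h1]
    rw [ENNReal.toReal_inv, ENNReal.toReal_natCast]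
    rw [Complex.real_smul]
    push_cast
    rw [div_eq_inv_mul]
  · intro i _
    exact integrable_dirac (by simp)

/-- **Lévy's theorem and the portmanteau theorem for averages** -/
theorem lawG_tendsto (X : ℕ → ℕ) (hX : ∀ n, 0 < X n) (Z : ℕ → ℕ → (ι → ℝ))
    (μ : Measure (EuclideanSpace ℝ (ι))) [hμ : IsProbabilityMeasure μ]
    (h : ∀ t : ι → ℝ, Tendsto (fun n => cf (X n) (fun a => ∑ j, t j * Z n a j)) atTop
      (𝓝 (charFun μ (WithLp.toLp 2 t)))) (s : Set (EuclideanSpace ℝ (ι)))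
    (hs : MeasurableSet s) (hf : μ (frontier s) = 0) :
    Tendsto (fun n => (((Icc 1 (X n)).filter (fun a => WithLp.toLp 2 (Z n a) ∈ s)).card : ℝ) / X n)
      atTop (𝓝 (μ s).toReal) := by
  set μs : ℕ → ProbabilityMeasure (EuclideanSpace ℝ (ι)) :=
    fun n => ⟨lawG (X n) (Z n), lawG_prob (hX n) (Z n)⟩ with hμs
  set μ0 : ProbabilityMeasure (EuclideanSpace ℝ (ι)) := ⟨μ, hμ⟩ with hμ0
  have h1 : Tendsto μs atTop (𝓝 μ0) := by
    rw [ProbabilityMeasure.tendsto_iff_tendsto_charFun]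
    intro t
    obtain ⟨t', rfl⟩ : ∃ t' : ι → ℝ, t = WithLp.toLp 2 t' := ⟨WithLp.ofLp t, rfl⟩
    refine (h t').congr fun n => ?_
    exact (lawG_charFun (hX n) (Z n) t').symm
  have h2 := ProbabilityMeasure.tendsto_measure_of_null_frontier_of_tendsto' h1 hf
  have h3 := (ENNReal.tendsto_toReal (measure_ne_top μ s)).comp h2
  refine h3.congr fun n => ?_
  simp only [Function.comp, hμs, ProbabilityMeasure.coe_mk]
  rw [lawG_apply _ _ hs, ENNReal.toReal_mul, ENNReal.toReal_inv, ENNReal.toReal_natCast,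
    ENNReal.toReal_natCast, inv_mul_eq_div]
  congr 2
  refine card_bij (fun i _ => i + 1) ?_ ?_ ?_
  · intro i hi
    rw [mem_filter, mem_range] at hi
    rw [mem_filter, mem_Icc]
    exact ⟨by omega, hi.2⟩
  · intro i _ j _ hij
    omega
  · intro a ha
    rw [mem_filter, mem_Icc] at ha
    refine ⟨a - 1, ?_, by omega⟩
    rw [mem_filter, mem_range]
    have : a - 1 + 1 = a := by omega
    rw [this]
    exact ⟨by omega, ha.2⟩

/-- the product of Poisson measures -/
noncomputable def poi (lam : ι → NNReal) : Measure (EuclideanSpace ℝ ι) :=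
  (Measure.pi (fun q => (poissonMeasure (lam q)).map (Nat.cast : ℕ → ℝ))).map (WithLp.toLp 2)

instance poi_one (l : NNReal) : IsProbabilityMeasure ((poissonMeasure l).map (Nat.cast : ℕ → ℝ)) :=
  Measure.isProbabilityMeasure_map (Measurable.aemeasurable (by fun_prop))

lemma toLp_measG : Measurable (WithLp.toLp 2 : (ι → ℝ) → EuclideanSpace ℝ ι) := by
  fun_prop

instance poi_prob (lam : ι → NNReal) : IsProbabilityMeasure (poi lam) := by
  unfold poi
  exact Measure.isProbabilityMeasure_map (toLp_measG.aemeasurable)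

lemma poi_charFun (lam : ι → NNReal) (t : ι → ℝ) :
    charFun (poi lam) (WithLp.toLp 2 t) =
      Complex.exp (∑ q, (Complex.exp ((t q : ℂ) * Complex.I) - 1) * ((lam q : ℝ) : ℂ)) := by
  unfold poi
  rw [charFun_pi, Complex.exp_sum]
  apply Finset.prod_congr rfl
  intro q _
  rw [charFun_map_cast_poissonMeasure]
  congr 1
  rw [mul_comm]

/-- the box around `k` for the coordinates in `F` -/
def box (F : Finset ι) (k : ι → ℕ) : Set (EuclideanSpace ℝ ι) :=
  {x | ∀ q ∈ F, |x q - k q| ≤ 1 / 2}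

lemma box_closed (F : Finset ι) (k : ι → ℕ) : IsClosed (box F k) := by
  have : box F k = ⋂ q ∈ F, {x : EuclideanSpace ℝ ι | |x q - k q| ≤ 1 / 2} := by
    ext x; simp [box]
  rw [this]
  refine isClosed_biInter fun q _ => isClosed_le ?_ continuous_const
  fun_prop

lemma box_frontier (F : Finset ι) (k : ι → ℕ) :
    frontier (box F k) ⊆ ⋃ q, {x : EuclideanSpace ℝ ι | |x q - k q| = 1 / 2} := by
  intro x hx
  rw [(box_closed F k).frontier_eq] at hx
  have hopen : IsOpen {x : EuclideanSpace ℝ ι | ∀ q ∈ F, |x q - k q| < 1 / 2} := by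
    have : {x : EuclideanSpace ℝ ι | ∀ q ∈ F, |x q - k q| < 1 / 2} =
        ⋂ q ∈ F, {x : EuclideanSpace ℝ ι | |x q - k q| < 1 / 2} := by
      ext x; simp
    rw [this]
    refine isOpen_biInter_finset fun q _ => isOpen_lt ?_ continuous_const
    fun_prop
  have hsub : {x : EuclideanSpace ℝ ι | ∀ q ∈ F, |x q - k q| < 1 / 2} ⊆ interior (box F k) :=
    interior_maximal (fun y hy q hq => (hy q hq).le) hopen
  have h1 : ¬ ∀ q ∈ F, |x q - k q| < 1 / 2 := fun h => hx.2 (hsub h)
  push Not at h1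
  obtain ⟨q, hq, hq2⟩ := h1
  rw [Set.mem_iUnion]
  exact ⟨q, le_antisymm (hx.1 q hq) hq2⟩

lemma half_null (l : NNReal) (k : ℕ) :
    ((poissonMeasure l).map (Nat.cast : ℕ → ℝ)) {x : ℝ | |x - k| = 1 / 2} = 0 := by
  have hm : MeasurableSet {x : ℝ | |x - k| = 1 / 2} :=
    (isClosed_eq (by fun_prop) continuous_const).measurableSet
  rw [Measure.map_apply (by fun_prop) hm]
  have : (Nat.cast : ℕ → ℝ) ⁻¹' {x : ℝ | |x - k| = 1 / 2} = ∅ := by
    ext n
    simp only [Set.mem_preimage, Set.mem_empty_iff_false, iff_false]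
    intro h
    change |(n : ℝ) - k| = 1 / 2 at h
    rcases (abs_eq (by norm_num)).1 h with h1 | h1
    · have : (2 * (n : ℤ) : ℝ) = ((2 * (k : ℤ) + 1 : ℤ) : ℝ) := by push_cast; linarith
      have h2 : 2 * (n : ℤ) = 2 * (k : ℤ) + 1 := by exact_mod_cast this
      omega
    · have : (2 * (n : ℤ) : ℝ) = ((2 * (k : ℤ) - 1 : ℤ) : ℝ) := by push_cast; linarith
      have h2 : 2 * (n : ℤ) = 2 * (k : ℤ) - 1 := by exact_mod_cast this
      omega
  rw [this, measure_empty]

lemma poi_frontier (lam : ι → NNReal) (F : Finset ι) (k : ι → ℕ) :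
    poi lam (frontier (box F k)) = 0 := by
  refine measure_mono_null (box_frontier F k) ?_
  rw [measure_iUnion_null_iff]
  intro q
  have hm : MeasurableSet {x : EuclideanSpace ℝ ι | |x q - k q| = 1 / 2} :=
    (isClosed_eq (by fun_prop) continuous_const).measurableSet
  unfold poi
  rw [Measure.map_apply toLp_measG hm]
  have h1 : (WithLp.toLp 2 : (ι → ℝ) → EuclideanSpace ℝ ι) ⁻¹'
      {x : EuclideanSpace ℝ ι | |x q - k q| = 1 / 2} =
      (Function.eval q) ⁻¹' {x : ℝ | |x - k q| = 1 / 2} := rfl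
  rw [h1]
  exact Measure.pi_eval_preimage_null _ (half_null (lam q) (k q))

lemma box_one (l : NNReal) (k : ℕ) :
    ((poissonMeasure l).map (Nat.cast : ℕ → ℝ)) {x : ℝ | |x - k| ≤ 1 / 2} =
      ENNReal.ofReal (Real.exp (-l) * l ^ k / (k.factorial : ℝ)) := by
  have hm : MeasurableSet {x : ℝ | |x - k| ≤ 1 / 2} :=
    (isClosed_le (by fun_prop) continuous_const).measurableSet
  rw [Measure.map_apply (by fun_prop) hm]
  have : (Nat.cast : ℕ → ℝ) ⁻¹' {x : ℝ | |x - k| ≤ 1 / 2} = {k} := by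
    ext n
    simp only [Set.mem_preimage, Set.mem_singleton_iff]
    change |(n : ℝ) - k| ≤ 1 / 2 ↔ n = k
    constructor
    · intro h
      rw [abs_le] at h
      have h1 : ((2 * (n : ℤ) : ℤ) : ℝ) ≤ ((2 * (k : ℤ) + 1 : ℤ) : ℝ) := by push_cast; linarith
      have h2 : ((2 * (k : ℤ) - 1 : ℤ) : ℝ) ≤ ((2 * (n : ℤ) : ℤ) : ℝ) := by push_cast; linarith
      have h3 : 2 * (n : ℤ) ≤ 2 * (k : ℤ) + 1 := by exact_mod_cast h1
      have h4 : 2 * (k : ℤ) - 1 ≤ 2 * (n : ℤ) := by exact_mod_cast h2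
      omega
    · rintro rfl
      norm_num
  rw [this, poissonMeasure_singleton]

lemma poi_box (lam : ι → NNReal) (F : Finset ι) (k : ι → ℕ) :
    (poi lam (box F k)).toReal =
      ∏ q ∈ F, (Real.exp (-(lam q)) * (lam q) ^ (k q) / ((k q).factorial : ℝ)) := by
  unfold poi
  rw [Measure.map_apply toLp_measG (box_closed F k).measurableSet]
  have h1 : (WithLp.toLp 2 : (ι → ℝ) → EuclideanSpace ℝ ι) ⁻¹' (box F k) =
      Set.pi Set.univ (fun q => if q ∈ F then {x : ℝ | |x - k q| ≤ 1 / 2} else Set.univ) := by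
    ext x
    simp only [Set.mem_preimage, Set.mem_pi, Set.mem_univ, forall_true_left]
    constructor
    · intro h q
      split_ifs with hq
      · exact h q hq
      · exact Set.mem_univ _
    · intro h q hq
      have := h q
      rw [if_pos hq] at this
      exact this
  rw [h1, Measure.pi_pi, ENNReal.toReal_prod]
  have h2 : ∀ q, (((poissonMeasure (lam q)).map (Nat.cast : ℕ → ℝ))
      (if q ∈ F then {x : ℝ | |x - k q| ≤ 1 / 2} else Set.univ)).toReal =
      if q ∈ F then Real.exp (-(lam q)) * (lam q) ^ (k q) / ((k q).factorial : ℝ) else 1 := by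
    intro q
    split_ifs with hq
    · rw [box_one, ENNReal.toReal_ofReal (by positivity)]
    · rw [measure_univ]; rfl
  rw [Finset.prod_congr rfl (fun q _ => h2 q), Finset.prod_ite_mem, Finset.univ_inter]

end Pool.Agent.W2helper64.WJ
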