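import Pool.Agent.W2helper64.WJ.Po
import Pool.Agent.W2helper64.WJ.Lp
import Pool.Agent.W2helper64.WJ.Cf
import Pool.Agent.H305R2.MertensM

set_option autoImplicit false

/-!
# The joint Poisson law in windows: the limit
-/

namespace Pool.Agent.W2helper64.WJ

open Finset Filter Pool.Agent.Helper92K9.WI MeasureTheory ProbabilityTheory
open scoped Classical Topology

lemma lam_tendsto : ∃ M : ℝ, Tendsto (fun N : ℕ => lam N - l2 N) atTop (𝓝 M) := by
  obtain ⟨M, hM⟩ := Pool.Agent.H305R2.mertens_inv_tendsto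
  set f : ℕ → ℝ := fun n => if n.Prime ∧ n ≠ 2 then 1 / (n : ℝ) ^ 2 else 0 with hf
  have hsum : Summable f := by
    refine Summable.of_nonneg_of_le (fun n => ?_) (fun n => ?_)
      (Real.summable_one_div_nat_pow.2 (by norm_num : 1 < 2))
    · rw [hf]; simp only; split_ifs <;> positivity
    · rw [hf]; simp only; split_ifs
      · exact le_rfl
      · positivity
  have h1 := hsum.hasSum.tendsto_sum_nat
  have h2 : Tendsto (fun N : ℕ => ∑ i ∈ range (N + 1), f i) atTop (𝓝 (∑' i, f i)) :=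
    h1.comp (tendsto_add_atTop_nat 1)
  refine ⟨M - 1 / 2 - ∑' i, f i, ?_⟩
  have h3 := (hM.sub_const (1 / 2)).sub h2
  refine h3.congr' ?_
  filter_upwards [eventually_ge_atTop 2] with N hN
  have e1 : (Icc 1 N).filter Nat.Prime = insert 2 (Od N) := by
    ext p
    rw [mem_insert, mem_Od, mem_filter, mem_Icc]
    constructor
    · intro h
      by_cases h2 : p = 2
      · exact Or.inl h2
      · exact Or.inr ⟨h.1, h.2, h2⟩
    · rintro (h | h)
      · subst h; exact ⟨⟨by omega, by omega⟩, Nat.prime_two⟩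
      · exact ⟨h.1, h.2.1⟩
  have e2 : 2 ∉ Od N := fun h => (mem_Od.1 h).2.2 rfl
  have e3 : lam N = ∑ p ∈ Od N, (1 : ℝ) / p - ∑ p ∈ Od N, 1 / (p : ℝ) ^ 2 := by
    rw [lam, ← sum_sub_distrib]
    apply sum_congr rfl
    intro p hp
    have : (p : ℝ) ≠ 0 := by
      have := (mem_Od.1 hp).1.1
      positivity
    unfold gg
    field_simp
  have e4 : ∑ i ∈ range (N + 1), f i = ∑ p ∈ Od N, 1 / (p : ℝ) ^ 2 := by
    rw [hf]
    simp only
    rw [← sum_filter]
    apply sum_congr _ (fun _ _ => rfl)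
    ext p
    rw [mem_filter, mem_range, mem_Od]
    constructor
    · rintro ⟨h, h4, h5⟩
      exact ⟨⟨h4.one_le, by omega⟩, h4, h5⟩
    · rintro ⟨⟨h, h3⟩, h4⟩
      exact ⟨by omega, h4⟩
  rw [e4, e1, sum_insert e2, e3]
  unfold l2
  push_cast
  ring

/-- the integer part of `y ^ v` -/
noncomputable def fl (v : ℝ) (y : ℕ) : ℕ := ⌊(y : ℝ) ^ v⌋₊

lemma fl_tendsto {v : ℝ} (hv : 0 < v) : Tendsto (fl v) atTop atTop := by
  unfold fl
  exact tendsto_nat_floor_atTop.comp ((tendsto_rpow_atTop hv).comp tendsto_natCast_atTop_atTop)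

lemma fl_l2 {v : ℝ} (hv : 0 < v) : Tendsto (fun y => l2 (fl v y) - l2 y) atTop (𝓝 (Real.log v)) := by
  have hlog : Tendsto (fun y : ℕ => Real.log y) atTop atTop :=
    Real.tendsto_log_atTop.comp tendsto_natCast_atTop_atTop
  have h1 : Tendsto (fun y : ℕ => Real.log (fl v y) / Real.log y) atTop (𝓝 v) := by
    have hlo : Tendsto (fun y : ℕ => v - Real.log 2 / Real.log y) atTop (𝓝 v) := by
      have := (tendsto_const_nhds (x := Real.log 2)).div_atTop hlog
      have := (tendsto_const_nhds (x := v)).sub this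
      simpa using this
    refine tendsto_of_tendsto_of_tendsto_of_le_of_le' hlo tendsto_const_nhds ?_ ?_
    · filter_upwards [hlog.eventually_gt_atTop 0, (fl_tendsto hv).eventually_ge_atTop 2,
        eventually_ge_atTop 2] with y hy hf hy2
      have hy0 : (0 : ℝ) < y := by exact_mod_cast (by omega : 0 < y)
      have hf' : (2 : ℝ) ≤ fl v y := by exact_mod_cast hf
      have h2 : (y : ℝ) ^ v < fl v y + 1 := Nat.lt_floor_add_one _
      have h3 : (y : ℝ) ^ v / 2 ≤ fl v y := by linarith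
      have h4 : Real.log ((y : ℝ) ^ v / 2) ≤ Real.log (fl v y) :=
        Real.log_le_log (by positivity) h3
      rw [Real.log_div (by positivity) (by norm_num), Real.log_rpow hy0] at h4
      rw [sub_le_iff_le_add, ← add_div, le_div_iff₀ hy]
      linarith
    · filter_upwards [hlog.eventually_gt_atTop 0, (fl_tendsto hv).eventually_ge_atTop 2,
        eventually_ge_atTop 2] with y hy hf hy2
      have hy0 : (0 : ℝ) < y := by exact_mod_cast (by omega : 0 < y)
      have hf' : (0 : ℝ) < fl v y := by exact_mod_cast (by omega : 0 < fl v y)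
      have h2 : (fl v y : ℝ) ≤ (y : ℝ) ^ v := Nat.floor_le (by positivity)
      have h4 : Real.log (fl v y) ≤ Real.log ((y : ℝ) ^ v) := Real.log_le_log hf' h2
      rw [Real.log_rpow hy0] at h4
      rw [div_le_iff₀ hy]
      exact h4
  have h2 := (Real.continuousAt_log hv.ne').tendsto.comp h1
  refine h2.congr' ?_
  filter_upwards [hlog.eventually_gt_atTop 0, (fl_tendsto hv).eventually_ge_atTop 2] with y hy hf
  have hf' : (1 : ℝ) < fl v y := by exact_mod_cast (by omega : 1 < fl v y)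
  simp only [Function.comp]
  rw [Real.log_div (Real.log_pos hf').ne' hy.ne']
  rfl

/-- the primes of a window -/
noncomputable def win (v w : ℝ) (y : ℕ) : Finset ℕ := (Ioc (fl v y) (fl w y)).filter Nat.Prime

lemma fl_mono {v w : ℝ} (hvw : v ≤ w) {y : ℕ} (hy : 1 ≤ y) : fl v y ≤ fl w y := by
  unfold fl
  apply Nat.floor_le_floor
  exact Real.rpow_le_rpow_of_exponent_le (by exact_mod_cast hy) hvw

lemma win_gg {v w : ℝ} (hv : 0 < v) (hvw : v ≤ w) :
    Tendsto (fun y => ∑ p ∈ win v w y, gg p) atTop (𝓝 (Real.log (w / v))) := by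
  obtain ⟨M, hM⟩ := lam_tendsto
  have hw : 0 < w := lt_of_lt_of_le hv hvw
  have h1 := hM.comp (fl_tendsto hv)
  have h2 := hM.comp (fl_tendsto hw)
  have h3 := fl_l2 hv
  have h4 := fl_l2 hw
  have h5 := (h2.sub h1).add (h4.sub h3)
  rw [sub_self, zero_add, ← Real.log_div hw.ne' hv.ne'] at h5
  refine h5.congr' ?_
  filter_upwards [(fl_tendsto hv).eventually_ge_atTop 2, eventually_ge_atTop 1] with y hy hy1
  simp only [Function.comp]
  have hsub : Od (fl v y) ⊆ Od (fl w y) := by
    intro p hp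
    rw [mem_Od] at hp ⊢
    exact ⟨⟨hp.1.1, hp.1.2.trans (fl_mono hvw hy1)⟩, hp.2⟩
  have e1 : win v w y = Od (fl w y) \ Od (fl v y) := by
    ext p
    unfold win
    rw [mem_filter, mem_Ioc, Finset.mem_sdiff, mem_Od, mem_Od]
    constructor
    · rintro ⟨⟨h1, h2⟩, h3⟩
      exact ⟨⟨⟨h3.one_le, h2⟩, h3, by omega⟩, fun h => by omega⟩
    · rintro ⟨⟨⟨h1, h2⟩, h3, h4⟩, h5⟩
      refine ⟨⟨?_, h2⟩, h3⟩
      by_contra hcon
      exact h5 ⟨⟨h1, by omega⟩, h3, h4⟩
  rw [e1]
  have := sum_sdiff (f := gg) hsub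
  unfold lam
  linarith

lemma win_tail {v w : ℝ} (hv : 0 < v) :
    Tendsto (fun y => ∑ p ∈ win v w y, (p : ℝ) ^ (-(4 : ℝ) / 3)) atTop (𝓝 0) := by
  have hs : Summable (fun n : ℕ => (n : ℝ) ^ (-(7 : ℝ) / 6)) := by
    rw [Real.summable_nat_rpow]; norm_num
  set S1 := ∑' n : ℕ, (n : ℝ) ^ (-(7 : ℝ) / 6) with hS1
  have h1 : Tendsto (fun y : ℕ => (fl v y : ℝ) ^ (-(1 : ℝ) / 6) * S1) atTop (𝓝 (0 * S1)) := by
    apply Tendsto.mul_const
    have h2 : Tendsto (fun x : ℝ => x ^ (-(1 : ℝ) / 6)) atTop (𝓝 0) := by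
      have := tendsto_rpow_neg_atTop (show (0 : ℝ) < 1 / 6 by norm_num)
      refine this.congr fun x => ?_
      congr 1
      norm_num
    exact h2.comp (tendsto_natCast_atTop_atTop.comp (fl_tendsto hv))
  rw [zero_mul] at h1
  refine tendsto_of_tendsto_of_tendsto_of_le_of_le' tendsto_const_nhds h1
    (Eventually.of_forall fun y => sum_nonneg fun p _ => by positivity) ?_
  filter_upwards [(fl_tendsto hv).eventually_ge_atTop 1] with y hy
  have hA : (0 : ℝ) < fl v y := by exact_mod_cast hy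
  calc ∑ p ∈ win v w y, (p : ℝ) ^ (-(4 : ℝ) / 3) ≤
        ∑ p ∈ win v w y, (fl v y : ℝ) ^ (-(1 : ℝ) / 6) * (p : ℝ) ^ (-(7 : ℝ) / 6) := by
        apply sum_le_sum
        intro p hp
        unfold win at hp
        rw [mem_filter, mem_Ioc] at hp
        have hp0 : (0 : ℝ) < p := by exact_mod_cast hp.2.pos
        have hpA : (fl v y : ℝ) ≤ p := by exact_mod_cast hp.1.1.le
        have e : (p : ℝ) ^ (-(4 : ℝ) / 3) = (p : ℝ) ^ (-(1 : ℝ) / 6) * (p : ℝ) ^ (-(7 : ℝ) / 6) := by
          rw [← Real.rpow_add hp0]; norm_num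
        rw [e]
        apply mul_le_mul_of_nonneg_right _ (by positivity)
        exact Real.rpow_le_rpow_of_nonpos hA hpA (by norm_num)
    _ = (fl v y : ℝ) ^ (-(1 : ℝ) / 6) * ∑ p ∈ win v w y, (p : ℝ) ^ (-(7 : ℝ) / 6) := by
        rw [mul_sum]
    _ ≤ _ := by
        apply mul_le_mul_of_nonneg_left _ (by positivity)
        exact hs.sum_le_tsum _ fun n _ => by positivity

section
variable {ι : Type} [Fintype ι] [DecidableEq ι] {κ : Type} [Fintype κ] [DecidableEq κ]

/-- **the limit of the characteristic functions** -/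
theorem pois_cf (β γ : ι → ℤ) (h : ∀ i j, i ≠ j → Ineq (β i) (γ i) (β j) (γ j))
    (t : ι → κ → ℝ) (lo hi : ι → κ → ℝ) (hlo : ∀ j i, 0 < lo j i) (hhi : ∀ j i, lo j i ≤ hi j i)
    (hd : ∀ j i i', i ≠ i' → hi j i ≤ lo j i' ∨ hi j i' ≤ lo j i)
    (y X : ℕ → ℕ) (hy : Tendsto y atTop atTop)
    (hX : Tendsto (fun n => Real.log (X n) / Real.log (y n)) atTop atTop) :
    Tendsto (fun n => cf (X n) (fun a => ∑ j, ∑ i, t j i *
      ∑ p ∈ win (lo j i) (hi j i) (y n), iw (β j) (γ j) p a)) atTop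
      (𝓝 (Complex.exp (∑ j, ∑ i, (Complex.exp ((t j i : ℂ) * Complex.I) - 1) *
          ((Real.log (hi j i / lo j i) : ℝ) : ℂ)))) := by
  obtain ⟨D, hD1, hD⟩ := pois_bound (κ := κ) β γ h t
  -- the model limit
  have hgg : ∀ j i, Tendsto (fun n => ∑ p ∈ win (lo j i) (hi j i) (y n), gg p) atTop
      (𝓝 (Real.log (hi j i / lo j i))) := fun j i => (win_gg (hlo j i) (hhi j i)).comp hy
  have hmod : Tendsto (fun n => Complex.exp (∑ j, ∑ i, (Complex.exp ((t j i : ℂ) * Complex.I) - 1) *
      ((∑ p ∈ win (lo j i) (hi j i) (y n), gg p : ℝ) : ℂ))) atTop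
      (𝓝 (Complex.exp (∑ j, ∑ i, (Complex.exp ((t j i : ℂ) * Complex.I) - 1) *
          ((Real.log (hi j i / lo j i) : ℝ) : ℂ)))) := by
    apply (Complex.continuous_exp.tendsto _).comp
    apply tendsto_finsetSum
    intro j _
    apply tendsto_finsetSum
    intro i _
    apply Tendsto.const_mul
    exact (Complex.continuous_ofReal.tendsto _).comp (hgg j i)
  -- bounds
  obtain ⟨V, hV0, hV⟩ : ∃ V : ℝ, 0 < V ∧ ∀ j i, hi j i ≤ V := by
    refine ⟨1 + ∑ j, ∑ i, |hi j i|, by positivity, fun j i => ?_⟩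
    have h1 : |hi j i| ≤ ∑ j, ∑ i, |hi j i| := by
      calc |hi j i| ≤ ∑ i, |hi j i| :=
            single_le_sum (f := fun i => |hi j i|) (fun i _ => abs_nonneg _) (mem_univ i)
        _ ≤ _ := single_le_sum (f := fun j => ∑ i, |hi j i|)
            (fun j _ => sum_nonneg fun i _ => abs_nonneg _) (mem_univ j)
    have := le_abs_self (hi j i)
    linarith
  have hLam : Tendsto (fun n => ∑ j, ∑ i, ∑ p ∈ win (lo j i) (hi j i) (y n), gg p) atTop
      (𝓝 (∑ j, ∑ i, Real.log (hi j i / lo j i))) :=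
    tendsto_finsetSum _ fun j _ => tendsto_finsetSum _ fun i _ => hgg j i
  have htail : Tendsto (fun n => D * ∑ j, ∑ i, ∑ p ∈ win (lo j i) (hi j i) (y n),
      (p : ℝ) ^ (-(4 : ℝ) / 3)) atTop (𝓝 0) := by
    have h1 : Tendsto (fun n => ∑ j, ∑ i, ∑ p ∈ win (lo j i) (hi j i) (y n),
      (p : ℝ) ^ (-(4 : ℝ) / 3)) atTop (𝓝 (∑ _j : ι, ∑ _i : κ, (0 : ℝ))) :=
      tendsto_finsetSum _ fun j _ => tendsto_finsetSum _ fun i _ => (win_tail (hlo j i)).comp hy
    have h2 := h1.const_mul D
    simpa using h2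
  set Λ := ∑ j, ∑ i, Real.log (hi j i / lo j i) with hΛ
  set BB := 4 * Real.exp (D * (Λ + 1)) with hBB
  have hBB0 : 0 < BB := by positivity
  have hlogy : Tendsto (fun n => Real.log (y n : ℝ)) atTop atTop :=
    Real.tendsto_log_atTop.comp (tendsto_natCast_atTop_atTop.comp hy)
  -- the difference tends to zero
  have hdiff : Tendsto (fun n => cf (X n) (fun a => ∑ j, ∑ i, t j i *
      ∑ p ∈ win (lo j i) (hi j i) (y n), iw (β j) (γ j) p a) -
      Complex.exp (∑ j, ∑ i, (Complex.exp ((t j i : ℂ) * Complex.I) - 1) *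
      ((∑ p ∈ win (lo j i) (hi j i) (y n), gg p : ℝ) : ℂ))) atTop (𝓝 0) := by
    rw [Metric.tendsto_nhds]
    intro ε hε
    obtain ⟨k, hk⟩ : ∃ k : ℕ, BB * (1 / 2 : ℝ) ^ k < ε / 4 := by
      have h1 : Tendsto (fun k : ℕ => BB * (1 / 2 : ℝ) ^ k) atTop (𝓝 (BB * 0)) :=
        (tendsto_pow_atTop_nhds_zero_of_lt_one (by norm_num) (by norm_num)).const_mul BB
      rw [mul_zero] at h1
      exact (h1.eventually_lt_const (by linarith : (0 : ℝ) < ε / 4)).exists
    set K := 2 * k with hKdef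
    have hK : Even K := even_two_mul k
    have hK2 : BB * (1 / 2 : ℝ) ^ K < ε / 4 := by
      refine lt_of_le_of_lt ?_ hk
      apply mul_le_mul_of_nonneg_left _ hBB0.le
      apply pow_le_pow_of_le_one (by norm_num) (by norm_num)
      omega
    -- the error of the transfer
    have herr : ∀ᶠ n in atTop, 2 * ((K : ℝ) + 1) * (D * (fl V (y n) : ℝ) ^ 3) ^ K / X n < ε / 4 := by
      have h1 : Tendsto (fun n => 2 * ((K : ℝ) + 1) * D ^ K / (y n : ℝ)) atTop (𝓝 0) :=
        tendsto_const_nhds.div_atTop (tendsto_natCast_atTop_atTop.comp hy)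
      filter_upwards [h1.eventually_lt_const (by linarith : (0 : ℝ) < ε / 4),
        hX.eventually_ge_atTop (V * (3 * K) + 1), hlogy.eventually_gt_atTop 0,
        hy.eventually_ge_atTop 2] with n h2 h3 h4 h5
      refine lt_of_le_of_lt ?_ h2
      have hy0 : (0 : ℝ) < y n := by exact_mod_cast (by omega : 0 < y n)
      have hXpos : (0 : ℝ) < X n := by
        rcases Nat.eq_zero_or_pos (X n) with h0 | h0
        · rw [h0] at h3
          simp only [CharP.cast_eq_zero, Real.log_zero, zero_div] at h3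
          have : 0 ≤ V * (3 * (K : ℝ)) := by positivity
          linarith
        · exact_mod_cast h0
      have h6 : (y n : ℝ) ^ (V * (3 * K) + 1) ≤ X n := by
        rw [le_div_iff₀ h4] at h3
        rw [← Real.log_le_log_iff (by positivity) hXpos, Real.log_rpow hy0]
        exact h3
      have h7 : ((fl V (y n) : ℝ) ^ 3) ^ K ≤ (y n : ℝ) ^ (V * (3 * K)) := by
        rw [← pow_mul]
        have h8 : (fl V (y n) : ℝ) ≤ (y n : ℝ) ^ V := Nat.floor_le (by positivity)
        calc (fl V (y n) : ℝ) ^ (3 * K) ≤ ((y n : ℝ) ^ V) ^ (3 * K) :=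
              pow_le_pow_left₀ (Nat.cast_nonneg _) h8 _
          _ = _ := by
              rw [← Real.rpow_natCast, ← Real.rpow_mul hy0.le]
              push_cast
              rfl
      rw [Real.rpow_add hy0, Real.rpow_one] at h6
      rw [mul_pow, div_le_div_iff₀ hXpos hy0]
      have h9 : ((fl V (y n) : ℝ) ^ 3) ^ K * y n ≤ X n :=
        (mul_le_mul_of_nonneg_right h7 hy0.le).trans h6
      calc 2 * ((K : ℝ) + 1) * (D ^ K * ((fl V (y n) : ℝ) ^ 3) ^ K) * y n =
            2 * ((K : ℝ) + 1) * D ^ K * (((fl V (y n) : ℝ) ^ 3) ^ K * y n) := by ring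
        _ ≤ _ := mul_le_mul_of_nonneg_left h9 (by positivity)
    have hlow : ∀ᶠ n in atTop, ∀ j i, max D 2 ≤ (fl (lo j i) (y n) : ℝ) := by
      rw [eventually_all]
      intro j
      rw [eventually_all]
      intro i
      exact ((tendsto_natCast_atTop_atTop.comp (fl_tendsto (hlo j i))).comp hy).eventually_ge_atTop _
    filter_upwards [herr, htail.eventually_lt_const (by linarith : (0 : ℝ) < ε / 4),
      hLam.eventually_lt_const (by linarith : Λ < Λ + 1), hlow, hy.eventually_ge_atTop 2,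
      hX.eventually_ge_atTop 1, hlogy.eventually_gt_atTop 0] with n h1 h2 h3 h4 h5 h6 h7
    rw [dist_zero_right]
    have hX0 : 0 < X n := by
      rcases Nat.eq_zero_or_pos (X n) with h0 | h0
      · rw [h0] at h6
        simp only [CharP.cast_eq_zero, Real.log_zero, zero_div] at h6
        linarith
      · exact h0
    have hz : 1 ≤ fl V (y n) := by
      unfold fl
      rw [Nat.one_le_floor_iff]
      exact Real.one_le_rpow (by exact_mod_cast (by omega : 1 ≤ y n)) hV0.le
    have hb := hD (fun j i => win (lo j i) (hi j i) (y n)) (fl V (y n)) (X n) K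
      (by
        intro j i i' hii
        rw [disjoint_left]
        intro p hp hp'
        unfold win at hp hp'
        rw [mem_filter, mem_Ioc] at hp hp'
        rcases hd j i i' hii with h8 | h8
        · have := fl_mono h8 (show 1 ≤ y n by omega)
          omega
        · have := fl_mono h8 (show 1 ≤ y n by omega)
          omega)
      (by
        intro j i p hp
        unfold win at hp
        rw [mem_filter, mem_Ioc] at hp
        have h8 := h4 j i
        have h9 : (fl (lo j i) (y n) : ℝ) < p := by exact_mod_cast hp.1.1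
        have h10 : (2 : ℝ) < p := lt_of_le_of_lt ((le_max_right _ _).trans h8) h9
        have h11 : 2 < p := by exact_mod_cast h10
        refine ⟨hp.2, by omega, hp.1.2.trans (fl_mono (hV j i) (by omega)), ?_⟩
        exact ((le_max_left _ _).trans h8).trans h9.le) hz hX0 hK
    refine lt_of_le_of_lt hb ?_
    have h8 : 4 * Real.exp (D * ∑ j, ∑ i, ∑ p ∈ win (lo j i) (hi j i) (y n), gg p) * (1 / 2) ^ K ≤
        BB * (1 / 2) ^ K := by
      apply mul_le_mul_of_nonneg_right _ (by positivity)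
      rw [hBB]
      apply mul_le_mul_of_nonneg_left _ (by norm_num)
      apply Real.exp_le_exp.2
      exact mul_le_mul_of_nonneg_left h3.le (by linarith)
    linarith
  have h1 := hdiff.add hmod
  rw [zero_add] at h1
  refine h1.congr fun n => ?_
  ring

end

end Pool.Agent.W2helper64.WJ
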