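import Pool.Agent.W2helper64.WJ.Fl
import Pool.Agent.W2helper64.WJ.Es
import Pool.Agent.W2helper64.WJ.Pl

set_option autoImplicit false

/-!
# Exactly `k` Wilson primes
-/

namespace Pool.Agent.W2helper64.WJ

open Finset Filter Pool.Agent.Helper92K9.WI
open scoped Classical Topology

section
variable {ι : Type} [Fintype ι] [DecidableEq ι] (β γ : ι → ℤ)

/-- the odds of `p` -/
noncomputable def lamb (p : ℕ) : ℝ := rh β γ p / (1 - rh β γ p)

/-- the density of the event that there is no odd Wilson prime up to `z` -/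
noncomputable def VV (z : ℕ) : ℝ := ∏ p ∈ Od z, (1 - rh β γ p)

omit [Fintype ι] [DecidableEq ι] in
lemma one_sub_rh_ge {p : ℕ} (hp : p.Prime) : 1 / (p : ℝ) ≤ 1 - rh β γ p := by
  have := rh_lt β γ hp
  linarith

omit [Fintype ι] [DecidableEq ι] in
lemma one_sub_rh_pos {p : ℕ} (hp : p.Prime) : 0 < 1 - rh β γ p := by
  have h1 := one_sub_rh_ge β γ hp
  have h2 : (0 : ℝ) < p := by exact_mod_cast hp.pos
  have h3 : (0 : ℝ) < 1 / p := by positivity
  linarith

omit [Fintype ι] [DecidableEq ι] in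
lemma lamb_nn {p : ℕ} (hp : p.Prime) : 0 ≤ lamb β γ p :=
  div_nonneg (rh_nn β γ p) (one_sub_rh_pos β γ hp).le

omit [Fintype ι] [DecidableEq ι] in
lemma VV_pos (z : ℕ) : 0 < VV β γ z :=
  prod_pos fun _ hp => one_sub_rh_pos β γ (mem_Od.1 hp).2.1

omit [Fintype ι] [DecidableEq ι] in
lemma dens_eq (z : ℕ) (U : Finset ℕ) (hU : U ⊆ Od z) :
    dens β γ z U = VV β γ z * ∏ p ∈ U, lamb β γ p := by
  unfold dens VV
  have h1 : ∏ p ∈ U, lamb β γ p = ∏ p ∈ Od z, if p ∈ U then lamb β γ p else 1 := by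
    rw [prod_ite_mem, inter_eq_right.2 hU]
  rw [h1, ← prod_mul_distrib]
  apply prod_congr rfl
  intro p hp
  have := one_sub_rh_pos β γ (mem_Od.1 hp).2.1
  split_ifs
  · unfold lamb; field_simp
  · ring

lemma two_le_rpow {p : ℕ} (hp : 1 ≤ p) : 1 / (p : ℝ) ^ 2 ≤ (p : ℝ) ^ (-(4 : ℝ) / 3) := by
  have hp1 : (1 : ℝ) ≤ p := by exact_mod_cast hp
  have e : 1 / (p : ℝ) ^ 2 = (p : ℝ) ^ (-(2 : ℝ)) := by
    rw [Real.rpow_neg (by linarith), one_div]
    congr 1
    norm_num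
  rw [e]
  exact Real.rpow_le_rpow_of_exponent_le hp1 (by norm_num)

lemma lamb_bd (h : ∀ i j, i ≠ j → Ineq (β i) (γ i) (β j) (γ j)) : ∃ C : ℝ, 0 ≤ C ∧ ∀ p : ℕ,
    p.Prime → p ≠ 2 →
    |lamb β γ p - Fintype.card ι * gg p| ≤ C * (p : ℝ) ^ (-(4 : ℝ) / 3) ∧
    |rh β γ p - Fintype.card ι * gg p| ≤ C * (p : ℝ) ^ (-(4 : ℝ) / 3) ∧
    |lamb β γ p ^ 2| ≤ C * (p : ℝ) ^ (-(4 : ℝ) / 3) := by
  obtain ⟨C, hC0, hC⟩ := rh_ge β γ h
  obtain ⟨R, hR⟩ : ∃ R : ℝ, R = (Fintype.card ι : ℝ) := ⟨_, rfl⟩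
  have hR0 : 0 ≤ R := by rw [hR]; exact Nat.cast_nonneg _
  rw [← hR]
  rw [← hR] at hC
  set C1 : ℝ := 2 * R ^ 2 + 8 * R ^ 3 + 4 * R ^ 2 + 16 * R ^ 4 with hC1
  refine ⟨C + C1, by positivity, fun p hp hp2 => ?_⟩
  have hp0 : (0 : ℝ) < p := by exact_mod_cast hp.pos
  have hx0 := rh_nn β γ p
  have hx1 := rh_le β γ hp hp2
  have hx2 := one_sub_rh_ge β γ hp
  have hx3 := one_sub_rh_pos β γ hp
  have hx4 := hC p hp hp2
  rw [← hR] at hx1
  have hgg : gg p ≤ 1 / p := by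
    unfold gg
    have hp2 : (2 : ℝ) ≤ p := by exact_mod_cast hp.two_le
    rw [div_le_div_iff₀ (by positivity) (by linarith)]
    nlinarith
  set x := rh β γ p with hx
  set t : ℝ := (p : ℝ) ^ (-(4 : ℝ) / 3) with ht
  have ht0 : 0 < t := by positivity
  have hpt : 1 / (p : ℝ) ^ 2 ≤ t := two_le_rpow hp.one_le
  have hxR : x ≤ R / p := by
    refine hx1.trans ?_
    rw [div_eq_mul_one_div]
    exact mul_le_mul_of_nonneg_left hgg hR0
  have el : lamb β γ p = x / (1 - x) := rfl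
  have el2 : lamb β γ p = x + x ^ 2 / (1 - x) := by
    rw [el]; field_simp; ring
  -- the two bounds
  have key : x ^ 2 / (1 - x) ≤ C1 * (1 / (p : ℝ) ^ 2) ∧ lamb β γ p ^ 2 ≤ C1 * (1 / (p : ℝ) ^ 2) := by
    by_cases hc : 2 * R ≤ p
    · have h1 : R / p ≤ 1 / 2 := by
        rw [div_le_div_iff₀ hp0 (by norm_num)]
        linarith
      have h2 : 1 / 2 ≤ 1 - x := by linarith
      have h3 : x ^ 2 ≤ (R / p) ^ 2 := pow_le_pow_left₀ hx0 hxR 2
      constructor
      · calc x ^ 2 / (1 - x) ≤ (R / p) ^ 2 / (1 / 2) := by gcongr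
          _ = 2 * R ^ 2 * (1 / (p : ℝ) ^ 2) := by field_simp
          _ ≤ _ := by
            apply mul_le_mul_of_nonneg_right _ (by positivity)
            rw [hC1]; nlinarith [pow_nonneg hR0 3, pow_nonneg hR0 4, sq_nonneg R]
      · have h4 : lamb β γ p ≤ 2 * (R / p) := by
          rw [el]
          calc x / (1 - x) ≤ (R / p) / (1 / 2) := by gcongr
            _ = _ := by ring
        calc lamb β γ p ^ 2 ≤ (2 * (R / p)) ^ 2 := pow_le_pow_left₀ (lamb_nn β γ hp) h4 2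
          _ = 4 * R ^ 2 * (1 / (p : ℝ) ^ 2) := by field_simp; ring
          _ ≤ _ := by
            apply mul_le_mul_of_nonneg_right _ (by positivity)
            rw [hC1]; nlinarith [pow_nonneg hR0 3, pow_nonneg hR0 4, sq_nonneg R]
    · push Not at hc
      have hx5 : x ≤ 1 := by linarith
      have h1 : x ^ 2 / (1 - x) ≤ p := by
        rw [div_le_iff₀ hx3]
        have h2 : (p : ℝ) * (1 / p) ≤ p * (1 - x) := mul_le_mul_of_nonneg_left hx2 hp0.le
        rw [mul_one_div_cancel hp0.ne'] at h2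
        nlinarith
      have h1' : lamb β γ p ≤ p := by
        rw [el, div_le_iff₀ hx3]
        have h2 : (p : ℝ) * (1 / p) ≤ p * (1 - x) := mul_le_mul_of_nonneg_left hx2 hp0.le
        rw [mul_one_div_cancel hp0.ne'] at h2
        nlinarith
      have h3 : (p : ℝ) ^ 3 ≤ (2 * R) ^ 3 := pow_le_pow_left₀ hp0.le hc.le 3
      have h4 : (p : ℝ) ^ 4 ≤ (2 * R) ^ 4 := pow_le_pow_left₀ hp0.le hc.le 4
      constructor
      · refine h1.trans ?_
        rw [mul_one_div, le_div_iff₀ (by positivity)]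
        calc (p : ℝ) * (p : ℝ) ^ 2 = (p : ℝ) ^ 3 := by ring
          _ ≤ (2 * R) ^ 3 := h3
          _ ≤ _ := by rw [hC1]; nlinarith [pow_nonneg hR0 3, pow_nonneg hR0 4, sq_nonneg R]
      · have h5 : lamb β γ p ^ 2 ≤ (p : ℝ) ^ 2 := pow_le_pow_left₀ (lamb_nn β γ hp) h1' 2
        refine h5.trans ?_
        rw [mul_one_div, le_div_iff₀ (by positivity)]
        calc (p : ℝ) ^ 2 * (p : ℝ) ^ 2 = (p : ℝ) ^ 4 := by ring
          _ ≤ (2 * R) ^ 4 := h4
          _ ≤ _ := by rw [hC1]; nlinarith [pow_nonneg hR0 3, pow_nonneg hR0 4, sq_nonneg R]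
  have hC10 : 0 ≤ C1 := by positivity
  have k1 : x ^ 2 / (1 - x) ≤ C1 * t := key.1.trans (mul_le_mul_of_nonneg_left hpt hC10)
  have k2 : lamb β γ p ^ 2 ≤ C1 * t := key.2.trans (mul_le_mul_of_nonneg_left hpt hC10)
  have k3 : 0 ≤ x ^ 2 / (1 - x) := by positivity
  have k4 : 0 ≤ C * t := by positivity
  have k5 : 0 ≤ C1 * t := by positivity
  refine ⟨?_, ?_, ?_⟩
  · rw [abs_le, el2]
    constructor <;> nlinarith
  · rw [abs_le]
    constructor <;> nlinarith
  · rw [abs_of_nonneg (sq_nonneg _)]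
    linarith

lemma od_tendsto (f : ℕ → ℝ) (C : ℝ) (hf : ∀ p : ℕ, p.Prime → p ≠ 2 →
    |f p| ≤ C * (p : ℝ) ^ (-(4 : ℝ) / 3)) (hC : 0 ≤ C) :
    ∃ S : ℝ, Tendsto (fun z => ∑ p ∈ Od z, f p) atTop (𝓝 S) := by
  set g : ℕ → ℝ := fun n => if n.Prime ∧ n ≠ 2 then f n else 0 with hg
  have hs : Summable (fun n : ℕ => C * (n : ℝ) ^ (-(4 : ℝ) / 3)) := by
    apply Summable.mul_left
    rw [Real.summable_nat_rpow]; norm_num
  have hsum : Summable g := by
    refine Summable.of_norm_bounded hs (fun n => ?_)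
    rw [Real.norm_eq_abs, hg]
    simp only
    split_ifs with hh
    · exact hf n hh.1 hh.2
    · rw [abs_zero]; positivity
  have h2 : Tendsto (fun N : ℕ => ∑ i ∈ range (N + 1), g i) atTop (𝓝 (∑' i, g i)) :=
    hsum.hasSum.tendsto_sum_nat.comp (tendsto_add_atTop_nat 1)
  refine ⟨_, h2.congr fun z => ?_⟩
  rw [hg]
  simp only
  rw [← sum_filter]
  apply sum_congr _ (fun _ _ => rfl)
  ext p
  rw [mem_filter, mem_range, mem_Od]
  constructor
  · rintro ⟨h, h4, h5⟩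
    exact ⟨⟨h4.one_le, by omega⟩, h4, h5⟩
  · rintro ⟨⟨h, h3⟩, h4⟩
    exact ⟨by omega, h4⟩

lemma Lam_div (h : ∀ i j, i ≠ j → Ineq (β i) (γ i) (β j) (γ j)) :
    Tendsto (fun z => (∑ p ∈ Od z, lamb β γ p) / l2 z) atTop (𝓝 (Fintype.card ι : ℝ)) := by
  obtain ⟨C, hC0, hC⟩ := lamb_bd β γ h
  obtain ⟨M, hM⟩ := lam_tendsto
  obtain ⟨S, hS⟩ := od_tendsto (fun p => lamb β γ p - Fintype.card ι * gg p) C
    (fun p hp hp2 => (hC p hp hp2).1) hC0
  have h1 : Tendsto (fun z => ∑ p ∈ Od z, lamb β γ p - Fintype.card ι * l2 z) atTop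
      (𝓝 (S + Fintype.card ι * M)) := by
    refine (hS.add (hM.const_mul (Fintype.card ι : ℝ))).congr fun z => ?_
    rw [sum_sub_distrib, ← mul_sum]
    unfold lam
    ring
  have h2 := h1.div_atTop l2_tendsto
  have h3 := h2.add_const (Fintype.card ι : ℝ)
  rw [zero_add] at h3
  refine h3.congr' ?_
  filter_upwards [l2_tendsto.eventually_gt_atTop 0] with z hz
  field_simp
  ring

lemma es_lim (h : ∀ i j, i ≠ j → Ineq (β i) (γ i) (β j) (γ j)) (k : ℕ) :
    Tendsto (fun z => es (lamb β γ) k (Od z) / l2 z ^ k) atTop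
      (𝓝 ((Fintype.card ι : ℝ) ^ k / (k.factorial : ℝ))) := by
  have hL := Lam_div β γ h
  rcases k with _ | _ | k
  · simp only [es_zero]
    simp
  · simp only [zero_add, es_one, pow_one, Nat.factorial_one, Nat.cast_one, div_one]
    exact hL
  · obtain ⟨C, hC0, hC⟩ := lamb_bd β γ h
    obtain ⟨S, hS⟩ := od_tendsto (fun p => lamb β γ p ^ 2) C
      (fun p hp hp2 => (hC p hp hp2).2.2) hC0
    have hS2 : Tendsto (fun z => (∑ p ∈ Od z, lamb β γ p ^ 2) / l2 z ^ 2) atTop (𝓝 0) :=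
      hS.div_atTop ((tendsto_pow_atTop (by norm_num)).comp l2_tendsto)
    have hfac : (0 : ℝ) < ((k + 1 + 1).factorial : ℝ) := by exact_mod_cast Nat.factorial_pos _
    have hup : Tendsto (fun z => ((∑ p ∈ Od z, lamb β γ p) / l2 z) ^ (k + 1 + 1) /
        ((k + 1 + 1).factorial : ℝ)) atTop
        (𝓝 ((Fintype.card ι : ℝ) ^ (k + 1 + 1) / ((k + 1 + 1).factorial : ℝ))) :=
      (hL.pow _).div_const _
    have hlo : Tendsto (fun z => (((∑ p ∈ Od z, lamb β γ p) / l2 z) ^ (k + 1 + 1) -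
        c2 k * ((∑ p ∈ Od z, lamb β γ p ^ 2) / l2 z ^ 2) *
          ((∑ p ∈ Od z, lamb β γ p) / l2 z) ^ k) / ((k + 1 + 1).factorial : ℝ)) atTop
        (𝓝 ((Fintype.card ι : ℝ) ^ (k + 1 + 1) / ((k + 1 + 1).factorial : ℝ))) := by
      have h1 := (((hL.pow (k + 1 + 1)).sub ((hS2.const_mul (c2 k)).mul (hL.pow k))).div_const
        ((k + 1 + 1).factorial : ℝ))
      rw [mul_zero, zero_mul, sub_zero] at h1
      exact h1
    refine tendsto_of_tendsto_of_tendsto_of_le_of_le' hlo hup ?_ ?_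
    · filter_upwards [l2_tendsto.eventually_gt_atTop 0] with z hz
      have h1 := es_ge (f := lamb β γ) (Od z) (fun p hp => lamb_nn β γ (mem_Od.1 hp).2.1) k
      rw [div_le_div_iff₀ hfac (by positivity)]
      have e : (((∑ p ∈ Od z, lamb β γ p) / l2 z) ^ (k + 1 + 1) -
        c2 k * ((∑ p ∈ Od z, lamb β γ p ^ 2) / l2 z ^ 2) *
          ((∑ p ∈ Od z, lamb β γ p) / l2 z) ^ k) * l2 z ^ (k + 1 + 1) =
          (∑ p ∈ Od z, lamb β γ p) ^ (k + 2) - c2 k * (∑ p ∈ Od z, lamb β γ p ^ 2) *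
            (∑ p ∈ Od z, lamb β γ p) ^ k := by
        have e9 : l2 z ^ (k + 1 + 1) = l2 z ^ k * l2 z ^ 2 := by ring
        simp only [div_pow]
        rw [e9, sub_mul]
        congr 1
        · field_simp
        · field_simp
      rw [e]
      have e2 : es (lamb β γ) (k + 1 + 1) (Od z) = es (lamb β γ) (k + 2) (Od z) := rfl
      have e3 : (k + 1 + 1).factorial = (k + 2).factorial := rfl
      rw [e2, e3]
      linarith
    · filter_upwards [l2_tendsto.eventually_gt_atTop 0] with z hz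
      have h1 := es_le (f := lamb β γ) (Od z) (fun p hp => lamb_nn β γ (mem_Od.1 hp).2.1) (k + 1 + 1)
      rw [div_pow, div_div, mul_comm (l2 z ^ (k + 1 + 1)), ← div_div]
      apply div_le_div_of_nonneg_right _ (by positivity)
      rw [le_div_iff₀ hfac, mul_comm]
      exact h1

lemma V_lim (h : ∀ i j, i ≠ j → Ineq (β i) (γ i) (β j) (γ j)) : ∃ c : ℝ, 0 < c ∧
    Tendsto (fun z : ℕ => VV β γ z * Real.log z ^ (Fintype.card ι)) atTop (𝓝 c) := by
  obtain ⟨C, hC0, hC⟩ := lamb_bd β γ h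
  obtain ⟨M, hM⟩ := lam_tendsto
  obtain ⟨S, hS⟩ := od_tendsto (fun p => Real.log (1 - rh β γ p) + Fintype.card ι * gg p) C
    (by
      intro p hp hp2
      obtain ⟨h1, h2, _⟩ := hC p hp hp2
      rw [abs_le] at h1 h2 ⊢
      have hx3 := one_sub_rh_pos β γ hp
      have h3 : Real.log (1 - rh β γ p) ≤ -rh β γ p := by
        have := Real.log_le_sub_one_of_pos hx3
        linarith
      have h4 : -lamb β γ p ≤ Real.log (1 - rh β γ p) := by
        have h5 := Real.one_sub_inv_le_log_of_pos hx3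
        have h6 : -lamb β γ p = 1 - (1 - rh β γ p)⁻¹ := by
          unfold lamb
          field_simp
          ring
        rw [h6]
        exact h5
      constructor <;> linarith) hC0
  refine ⟨Real.exp (S - Fintype.card ι * M), Real.exp_pos _, ?_⟩
  have h1 := (Real.continuous_exp.tendsto _).comp (hS.sub (hM.const_mul (Fintype.card ι : ℝ)))
  refine h1.congr' ?_
  filter_upwards [eventually_ge_atTop 3] with z hz
  have hz1 : (1 : ℝ) < z := by exact_mod_cast (by omega : 1 < z)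
  have hlog : 0 < Real.log z := Real.log_pos hz1
  simp only [Function.comp]
  have e1 : VV β γ z = Real.exp (∑ p ∈ Od z, Real.log (1 - rh β γ p)) := by
    unfold VV
    rw [Real.exp_sum]
    apply prod_congr rfl
    intro p hp
    rw [Real.exp_log (one_sub_rh_pos β γ (mem_Od.1 hp).2.1)]
  have e2 : Real.log z ^ (Fintype.card ι) = Real.exp (Fintype.card ι * l2 z) := by
    have : l2 z = Real.log (Real.log z) := rfl
    rw [this, ← Real.log_pow, Real.exp_log (by positivity)]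
  rw [e1, e2, ← Real.exp_add]
  congr 1
  rw [sum_add_distrib, ← mul_sum]
  unfold lam
  ring

/-- the number of odd primes up to `z` that are Wilson primes of some progression -/
noncomputable def nH (z a : ℕ) : ℕ := ((Od z).filter (fun p => Hit β γ p a)).card

omit [Fintype ι] [DecidableEq ι] in
lemma count_split (z X k : ℕ) : (((Icc 1 X).filter (fun a => nH β γ z a = k)).card : ℝ) =
    ∑ U ∈ powersetCard k (Od z),
      (((Icc 1 X).filter (fun a => ∀ p ∈ Od z, (Hit β γ p a ↔ p ∈ U))).card : ℝ) := by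
  have h1 := card_eq_sum_card_fiberwise (s := (Icc 1 X).filter (fun a => nH β γ z a = k))
    (t := powersetCard k (Od z)) (f := fun a => (Od z).filter (fun p => Hit β γ p a))
    (by
      intro a ha
      rw [mem_coe, mem_filter] at ha
      rw [mem_coe, mem_powersetCard]
      exact ⟨filter_subset _ _, ha.2⟩)
  rw [h1]
  push_cast
  apply sum_congr rfl
  intro U hU
  congr 2
  ext a
  rw [mem_filter, mem_filter, mem_filter]
  rw [mem_powersetCard] at hU
  constructor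
  · rintro ⟨⟨h2, h3⟩, h4⟩
    refine ⟨h2, fun p hp => ?_⟩
    rw [← h4, mem_filter]
    exact ⟨fun h => ⟨hp, h⟩, fun h => h.2⟩
  · rintro ⟨h2, h3⟩
    have h4 : (Od z).filter (fun p => Hit β γ p a) = U := by
      ext p
      rw [mem_filter]
      constructor
      · rintro ⟨h5, h6⟩
        exact (h3 p h5).1 h6
      · intro h5
        exact ⟨hU.1 h5, (h3 p (hU.1 h5)).2 h5⟩
    refine ⟨⟨h2, ?_⟩, h4⟩
    unfold nH
    rw [h4]
    exact hU.2

/-- **exactly `k` Wilson primes: the count with explicit error** -/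
theorem count_k : ∃ C0 : ℕ, 1 ≤ C0 ∧ ∀ (b z X k : ℕ), C0 ≤ b → 2 ≤ z →
    |(((Icc 1 X).filter (fun a => nH β γ z a = k)).card : ℝ) -
      X * (VV β γ z * es (lamb β γ) k (Od z))| ≤
      (1 / 2) ^ b * (X * (VV β γ z * es (lamb β γ) k (Od z))) +
        2 * MM (Od C0) * (z : ℝ) ^ (6 * C0 * b + 3 * k + 2) := by
  obtain ⟨C0, hC1, hC⟩ := exact_count β γ
  refine ⟨C0, hC1, fun b z X k hb hz => ?_⟩
  have e1 : (X : ℝ) * (VV β γ z * es (lamb β γ) k (Od z)) =
      ∑ U ∈ powersetCard k (Od z), (X : ℝ) * dens β γ z U := by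
    unfold es
    rw [mul_sum, mul_sum]
    apply sum_congr rfl
    intro U hU
    rw [dens_eq β γ z U (mem_powersetCard.1 hU).1]
  rw [count_split, e1, ← sum_sub_distrib]
  refine (abs_sum_le_sum_abs _ _).trans ?_
  have h1 : ∀ U ∈ powersetCard k (Od z),
      |(((Icc 1 X).filter (fun a => ∀ p ∈ Od z, (Hit β γ p a ↔ p ∈ U))).card : ℝ) -
        X * dens β γ z U| ≤ (1 / 2) ^ b * (X * dens β γ z U) +
        2 * MM (Od C0) * (z : ℝ) ^ (6 * C0 * b + 2 * k + 2) := by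
    intro U hU
    have h2 := hC b z X U hb hz (mem_powersetCard.1 hU).1
    rw [(mem_powersetCard.1 hU).2] at h2
    exact h2
  refine (sum_le_sum h1).trans ?_
  rw [sum_add_distrib, ← mul_sum, sum_const, nsmul_eq_mul]
  apply add_le_add le_rfl
  have h3 : (powersetCard k (Od z)).card ≤ z ^ k := by
    rw [card_powersetCard]
    refine (Nat.choose_le_pow _ _).trans ?_
    apply Nat.pow_le_pow_left
    have h4 : (Od z).card ≤ (Icc 1 z).card := by
      apply card_le_card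
      intro p hp
      rw [mem_Icc]
      exact (mem_Od.1 hp).1
    simpa using h4
  have h4 : ((powersetCard k (Od z)).card : ℝ) ≤ (z : ℝ) ^ k := by exact_mod_cast h3
  calc ((powersetCard k (Od z)).card : ℝ) * (2 * MM (Od C0) * (z : ℝ) ^ (6 * C0 * b + 2 * k + 2)) ≤
        (z : ℝ) ^ k * (2 * MM (Od C0) * (z : ℝ) ^ (6 * C0 * b + 2 * k + 2)) :=
        mul_le_mul_of_nonneg_right h4 (by positivity)
    _ = _ := by ring

/-- **exactly `k` Wilson primes up to `z`** -/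
theorem main_k (h : ∀ i j, i ≠ j → Ineq (β i) (γ i) (β j) (γ j)) : ∃ c : ℝ, 0 < c ∧
    ∀ (k : ℕ) (ε : ℝ), 0 < ε → ∃ B z1 : ℕ, 1 ≤ B ∧ ∀ z X : ℕ, z1 ≤ z → z ^ B ≤ X →
      |(((Icc 1 X).filter (fun a => nH β γ z a = k)).card : ℝ) -
        c * (Fintype.card ι : ℝ) ^ k / (k.factorial : ℝ) *
          (X * l2 z ^ k / Real.log z ^ (Fintype.card ι))| ≤
        ε * (X * l2 z ^ k / Real.log z ^ (Fintype.card ι)) := by
  obtain ⟨c, hc0, hc⟩ := V_lim β γ h
  obtain ⟨C0, hC1, hC⟩ := count_k β γ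
  refine ⟨c, hc0, fun k ε hε => ?_⟩
  set v : ℝ := c * (Fintype.card ι : ℝ) ^ k / (k.factorial : ℝ) with hv
  have hv0 : 0 ≤ v := by positivity
  have hu : Tendsto (fun z : ℕ => (VV β γ z * Real.log z ^ (Fintype.card ι)) *
      (es (lamb β γ) k (Od z) / l2 z ^ k)) atTop (𝓝 v) := by
    have := hc.mul (es_lim β γ h k)
    rw [← mul_div_assoc] at this
    exact this
  obtain ⟨b, hb1, hb2⟩ : ∃ b : ℕ, C0 ≤ b ∧ (1 / 2 : ℝ) ^ b * (v + 1) ≤ ε / 3 := by
    have h1 : Tendsto (fun b : ℕ => (1 / 2 : ℝ) ^ b * (v + 1)) atTop (𝓝 (0 * (v + 1))) :=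
      (tendsto_pow_atTop_nhds_zero_of_lt_one (by norm_num) (by norm_num)).mul_const _
    rw [zero_mul] at h1
    have h2 := (h1.eventually_lt_const (by linarith : (0 : ℝ) < ε / 3)).and (eventually_ge_atTop C0)
    obtain ⟨b, hb1, hb2⟩ := h2.exists
    exact ⟨b, hb2, hb1.le⟩
  set e : ℕ := 6 * C0 * b + 3 * k + 2 with he
  have hbig : ∀ᶠ z : ℕ in atTop, 2 * (MM (Od C0) : ℝ) * Real.log z ^ (Fintype.card ι) ≤
      ε / 3 * z := by
    have h1 : Tendsto (fun x : ℝ => Real.log x ^ (Fintype.card ι) / x) atTop (𝓝 0) := by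
      have := Real.isLittleO_pow_log_id_atTop (n := Fintype.card ι)
      exact this.tendsto_div_nhds_zero
    have h2 := (h1.comp tendsto_natCast_atTop_atTop).const_mul (2 * (MM (Od C0) : ℝ))
    rw [mul_zero] at h2
    filter_upwards [h2.eventually_lt_const (by linarith : (0 : ℝ) < ε / 3), eventually_ge_atTop 1]
      with z hz hz1
    simp only [Function.comp] at hz
    have hz0 : (0 : ℝ) < z := by exact_mod_cast (by omega : 0 < z)
    rw [← mul_div_assoc, div_lt_iff₀ hz0] at hz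
    exact hz.le
  have hev := hbig.and ((Metric.tendsto_nhds.1 hu (min (ε / 3) 1) (by positivity)).and
    ((l2_tendsto.eventually_ge_atTop 1).and (eventually_ge_atTop 3)))
  rw [eventually_atTop] at hev
  obtain ⟨z1, hz1⟩ := hev
  refine ⟨e + 1, z1, by omega, fun z X hz hX => ?_⟩
  obtain ⟨g1, g2, g3, g4⟩ := hz1 z hz
  have hz0 : (0 : ℝ) < z := by exact_mod_cast (by omega : 0 < z)
  have hz1' : (1 : ℝ) < z := by exact_mod_cast (by omega : 1 < z)
  have hlog : 0 < Real.log z := Real.log_pos hz1'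
  have hl2 : 0 < l2 z := by linarith
  set W : ℝ := X * l2 z ^ k / Real.log z ^ (Fintype.card ι) with hW
  have hW0 : 0 ≤ W := by positivity
  set u : ℝ := (VV β γ z * Real.log z ^ (Fintype.card ι)) *
      (es (lamb β γ) k (Od z) / l2 z ^ k) with hudef
  rw [Real.dist_eq, lt_min_iff, abs_lt, abs_lt] at g2
  have h1 := hC b z X k hb1 (by omega)
  have e1 : (X : ℝ) * (VV β γ z * es (lamb β γ) k (Od z)) = u * W := by
    rw [hudef, hW]
    field_simp
  rw [e1] at h1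
  have h2 : 2 * (MM (Od C0) : ℝ) * (z : ℝ) ^ e ≤ ε / 3 * W := by
    have h3 : (z : ℝ) ^ (e + 1) ≤ X := by exact_mod_cast hX
    have h4 : (1 : ℝ) ≤ l2 z ^ k := one_le_pow₀ g3
    rw [hW, ← mul_div_assoc, le_div_iff₀ (by positivity)]
    calc 2 * (MM (Od C0) : ℝ) * (z : ℝ) ^ e * Real.log z ^ (Fintype.card ι) =
          (2 * (MM (Od C0) : ℝ) * Real.log z ^ (Fintype.card ι)) * (z : ℝ) ^ e := by ring
      _ ≤ (ε / 3 * z) * (z : ℝ) ^ e := mul_le_mul_of_nonneg_right g1 (by positivity)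
      _ = ε / 3 * (z : ℝ) ^ (e + 1) := by ring
      _ ≤ ε / 3 * (X * l2 z ^ k) := by
        apply mul_le_mul_of_nonneg_left _ (by positivity)
        calc (z : ℝ) ^ (e + 1) ≤ X * 1 := by rw [mul_one]; exact h3
          _ ≤ _ := mul_le_mul_of_nonneg_left h4 (Nat.cast_nonneg _)
  have h5 : (1 / 2 : ℝ) ^ b * (u * W) ≤ ε / 3 * W := by
    rw [← mul_assoc]
    apply mul_le_mul_of_nonneg_right _ hW0
    refine le_trans ?_ hb2
    apply mul_le_mul_of_nonneg_left _ (by positivity)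
    linarith [g2.2.2]
  have h6 : |u * W - v * W| ≤ ε / 3 * W := by
    rw [← sub_mul, abs_mul, abs_of_nonneg hW0]
    apply mul_le_mul_of_nonneg_right _ hW0
    rw [abs_le]
    constructor <;> linarith [g2.1.1, g2.1.2]
  rw [abs_le] at h1 h6 ⊢
  constructor <;> linarith [h1.1, h1.2, h6.1, h6.2]

end

end Pool.Agent.W2helper64.WJ
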