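import Pool.Agent.W2helper64.WJ.Ek

set_option autoImplicit false

/-!
# Exactly `k` Wilson primes: corollaries
-/

namespace Pool.Agent.W2helper64.WJ

open Finset Filter Pool.Agent.Helper92K9.WI
open scoped Classical Topology

section
variable {ι : Type} [Fintype ι] [DecidableEq ι] (β γ : ι → ℤ)

/-- **the limit form** -/
theorem k_law (h : ∀ i j, i ≠ j → Ineq (β i) (γ i) (β j) (γ j)) : ∃ c : ℝ, 0 < c ∧
    ∀ (k : ℕ) (y X : ℕ → ℕ), Tendsto y atTop atTop →
      Tendsto (fun n => Real.log (X n) / Real.log (y n)) atTop atTop →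
      Tendsto (fun n => (((Icc 1 (X n)).filter (fun a => nH β γ (y n) a = k)).card : ℝ) / X n /
        (l2 (y n) ^ k / Real.log (y n) ^ (Fintype.card ι))) atTop
        (𝓝 (c * (Fintype.card ι : ℝ) ^ k / (k.factorial : ℝ))) := by
  obtain ⟨c, hc0, hc⟩ := main_k β γ h
  refine ⟨c, hc0, fun k y X hy hX => ?_⟩
  rw [Metric.tendsto_nhds]
  intro ε hε
  obtain ⟨B, z1, hB1, hB⟩ := hc k (ε / 2) (by linarith)
  have hlogy : Tendsto (fun n => Real.log (y n : ℝ)) atTop atTop :=
    Real.tendsto_log_atTop.comp (tendsto_natCast_atTop_atTop.comp hy)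
  filter_upwards [hX.eventually_ge_atTop (B : ℝ), hlogy.eventually_gt_atTop 0,
    hy.eventually_ge_atTop (max z1 3), (l2_tendsto.comp hy).eventually_gt_atTop 0] with n h1 h2 h3 h4
  have hy3 : 3 ≤ y n := (le_max_right _ _).trans h3
  have hy0 : (0 : ℝ) < y n := by exact_mod_cast (by omega : 0 < y n)
  have hX0 : (0 : ℝ) < X n := by
    rcases Nat.eq_zero_or_pos (X n) with h0 | h0
    · rw [h0] at h1
      simp only [CharP.cast_eq_zero, Real.log_zero, zero_div] at h1
      have : (1 : ℝ) ≤ B := by exact_mod_cast hB1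
      linarith
    · exact_mod_cast h0
  have h5 : (y n) ^ B ≤ X n := by
    rw [le_div_iff₀ h2] at h1
    have h6 : ((y n : ℝ)) ^ B ≤ X n := by
      rw [← Real.log_le_log_iff (by positivity) hX0, Real.log_pow]
      exact h1
    exact_mod_cast h6
  have h6 := hB (y n) (X n) ((le_max_left _ _).trans h3) h5
  simp only [Function.comp] at h4
  set W := l2 (y n) ^ k / Real.log (y n) ^ (Fintype.card ι) with hW
  have hW0 : 0 < W := by positivity
  rw [Real.dist_eq]
  have e1 : (X n : ℝ) * l2 (y n) ^ k / Real.log (y n) ^ (Fintype.card ι) = X n * W := by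
    rw [hW, mul_div_assoc]
  rw [e1] at h6
  set N : ℝ := (((Icc 1 (X n)).filter (fun a => nH β γ (y n) a = k)).card : ℝ) with hN
  set v : ℝ := c * (Fintype.card ι : ℝ) ^ k / (k.factorial : ℝ) with hv
  have e2 : N / X n / W - v = (N - v * (X n * W)) / (X n * W) := by
    field_simp
  rw [e2, abs_div, abs_of_pos (mul_pos hX0 hW0), div_lt_iff₀ (mul_pos hX0 hW0)]
  refine lt_of_le_of_lt h6 ?_
  apply mul_lt_mul_of_pos_right _ (mul_pos hX0 hW0)
  linarith

lemma fl_pow_le {B : ℕ} (hB : 1 ≤ B) {η : ℝ} (_hη : 0 < η) (hηB : η ≤ 1 / B) {X : ℕ} (hX : 1 ≤ X) :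
    fl η X ^ B ≤ X := by
  have hX0 : (0 : ℝ) < X := by exact_mod_cast hX
  have hB0 : (0 : ℝ) < B := by exact_mod_cast hB
  have h1 : (fl η X : ℝ) ≤ (X : ℝ) ^ η := Nat.floor_le (by positivity)
  have h2 : ((fl η X : ℝ)) ^ B ≤ X := by
    calc ((fl η X : ℝ)) ^ B ≤ ((X : ℝ) ^ η) ^ B := pow_le_pow_left₀ (Nat.cast_nonneg _) h1 B
      _ = (X : ℝ) ^ (η * B) := by rw [← Real.rpow_natCast, ← Real.rpow_mul hX0.le]
      _ ≤ (X : ℝ) ^ (1 : ℝ) := by
        apply Real.rpow_le_rpow_of_exponent_le (by exact_mod_cast hX)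
        rw [le_div_iff₀ hB0] at hηB
        exact hηB
      _ = X := Real.rpow_one _
  exact_mod_cast h2

lemma one_le_l2 {X : ℕ} (hX : 16 ≤ X) : 1 ≤ l2 X := by
  have h0 : l2 X = Real.log (Real.log X) := rfl
  rw [h0]
  have h1 : (2.7182818286 : ℝ) ≤ Real.log X := by
    have h2 : Real.log 16 ≤ Real.log X := Real.log_le_log (by norm_num) (by exact_mod_cast hX)
    have h3 : Real.log 16 = 4 * Real.log 2 := by
      rw [show (16 : ℝ) = 2 ^ 4 by norm_num, Real.log_pow]
      norm_num
    have h4 := Real.log_two_gt_d9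
    linarith
  have h5 : Real.exp 1 ≤ Real.log X := by
    have := Real.exp_one_lt_d9
    linarith
  calc (1 : ℝ) = Real.log (Real.exp 1) := (Real.log_exp 1).symm
    _ ≤ _ := Real.log_le_log (Real.exp_pos _) h5

/-- **few Wilson primes: the upper bound** -/
theorem few_upper (h : ∀ i j, i ≠ j → Ineq (β i) (γ i) (β j) (γ j)) (K : ℕ) (hK : 1 ≤ K) (θ : ℝ)
    (hθ : 0 < θ) : ∃ C : ℝ, 0 < C ∧ ∀ X : ℕ, 16 ≤ X →
      (((Icc 1 X).filter (fun a => nH β γ (fl θ X) a < K)).card : ℝ) ≤
        C * (X * l2 X ^ (K - 1) / Real.log X ^ (Fintype.card ι)) := by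
  obtain ⟨c, hc0, hc⟩ := main_k β γ h
  choose B z1 hB1 hB using fun k => hc k 1 one_pos
  set R : ℕ := Fintype.card ι with hR
  set BB : ℕ := ∑ k ∈ range K, B k + 1 with hBB
  have hBk : ∀ k ∈ range K, B k ≤ BB := by
    intro k hk
    have := single_le_sum (f := B) (fun _ _ => Nat.zero_le _) hk
    omega
  have hBB0 : (0 : ℝ) < BB := by
    have : 0 < BB := by omega
    exact_mod_cast this
  set η : ℝ := min θ (1 / BB) with hη
  have hη0 : 0 < η := by
    rw [hη]
    exact lt_min hθ (by positivity)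
  have hηθ : η ≤ θ := min_le_left _ _
  have hηB : ∀ k ∈ range K, η ≤ 1 / (B k : ℝ) := by
    intro k hk
    have h0 : (0 : ℝ) < B k := by exact_mod_cast hB1 k
    calc η ≤ 1 / (BB : ℝ) := min_le_right _ _
      _ ≤ 1 / (B k : ℝ) := one_div_le_one_div_of_le h0 (by exact_mod_cast hBk k hk)
  -- eventually
  have hev : ∀ᶠ X : ℕ in atTop, (∀ k ∈ range K, z1 k ≤ fl η X) ∧ 3 ≤ fl η X ∧
      η / 2 * Real.log X ≤ Real.log (fl η X) ∧ 0 < l2 (fl η X) := by
    have h1 : ∀ᶠ X : ℕ in atTop, ∀ k ∈ range K, z1 k ≤ fl η X := by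
      have h1 := (fl_tendsto hη0).eventually_ge_atTop (∑ k ∈ range K, z1 k)
      filter_upwards [h1] with X hX k hk
      have := single_le_sum (f := z1) (fun _ _ => Nat.zero_le _) hk
      omega
    have hlog : Tendsto (fun X : ℕ => Real.log X) atTop atTop :=
      Real.tendsto_log_atTop.comp tendsto_natCast_atTop_atTop
    filter_upwards [h1, (fl_tendsto hη0).eventually_ge_atTop 3,
      (l2_tendsto.comp (fl_tendsto hη0)).eventually_gt_atTop 0,
      hlog.eventually_ge_atTop (2 * Real.log 2 / η), eventually_ge_atTop 2] with X h2 h3 h4 h5 h6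
    refine ⟨h2, h3, ?_, h4⟩
    have hX0 : (0 : ℝ) < X := by exact_mod_cast (by omega : 0 < X)
    have hf' : (2 : ℝ) ≤ fl η X := by exact_mod_cast (by omega : 2 ≤ fl η X)
    have h7 : (X : ℝ) ^ η < fl η X + 1 := Nat.lt_floor_add_one _
    have h8 : (X : ℝ) ^ η / 2 ≤ fl η X := by linarith
    have h9 : Real.log ((X : ℝ) ^ η / 2) ≤ Real.log (fl η X) :=
      Real.log_le_log (by positivity) h8
    rw [Real.log_div (by positivity) (by norm_num), Real.log_rpow hX0] at h9
    rw [div_le_iff₀ hη0] at h5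
    linarith
  rw [eventually_atTop] at hev
  obtain ⟨X1, hX1⟩ := hev
  set D : ℝ := ∑ k ∈ range K, (c * (R : ℝ) ^ k / (k.factorial : ℝ) + 1) with hD
  have hD0 : 0 ≤ D := sum_nonneg fun k _ => by positivity
  set X2 : ℕ := max X1 16 with hX2
  have hX216 : (16 : ℝ) ≤ X2 := by exact_mod_cast le_max_right X1 16
  have hlogX2 : 0 < Real.log X2 := Real.log_pos (by linarith)
  refine ⟨D / (η / 2) ^ R + Real.log X2 ^ R, by positivity, fun X hX => ?_⟩
  have hX0 : (0 : ℝ) < X := by exact_mod_cast (by omega : 0 < X)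
  have hXlog : 0 < Real.log X := Real.log_pos (by exact_mod_cast (by omega : 1 < X))
  have hl2 := one_le_l2 hX
  have hl2p : 1 ≤ l2 X ^ (K - 1) := one_le_pow₀ hl2
  by_cases hc2 : X2 ≤ X
  · obtain ⟨g1, g2, g3, g4⟩ := hX1 X ((le_max_left _ _).trans hc2)
    set z := fl η X with hz
    have hzX : z ≤ fl θ X := fl_mono hηθ (by omega)
    have hzX' : (z : ℝ) ≤ X := by
      have h1 := fl_pow_le (hB1 0) hη0 (hηB 0 (mem_range.2 hK)) (show 1 ≤ X by omega)
      have h2 : z ≤ z ^ B 0 := Nat.le_self_pow (by have := hB1 0; omega) z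
      exact_mod_cast h2.trans h1
    have hz1 : (1 : ℝ) < z := by exact_mod_cast (by omega : 1 < z)
    have hzlog : 0 < Real.log z := Real.log_pos hz1
    have hl2z : l2 z ≤ l2 X := by
      have e1 : l2 z = Real.log (Real.log z) := rfl
      have e2 : l2 X = Real.log (Real.log X) := rfl
      rw [e1, e2]
      exact Real.log_le_log hzlog (Real.log_le_log (by linarith) hzX')
    have hsub : ((Icc 1 X).filter (fun a => nH β γ (fl θ X) a < K)).card ≤
        ∑ k ∈ range K, ((Icc 1 X).filter (fun a => nH β γ z a = k)).card := by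
      refine (card_le_card ?_).trans card_biUnion_le
      intro a ha
      rw [mem_filter] at ha
      rw [mem_biUnion]
      refine ⟨nH β γ z a, ?_, ?_⟩
      · rw [mem_range]
        refine lt_of_le_of_lt ?_ ha.2
        unfold nH
        apply card_le_card
        intro p hp
        rw [mem_filter, mem_Od] at hp ⊢
        exact ⟨⟨⟨hp.1.1.1, hp.1.1.2.trans hzX⟩, hp.1.2⟩, hp.2⟩
      · rw [mem_filter]
        exact ⟨ha.1, rfl⟩
    have hterm : ∀ k ∈ range K, (((Icc 1 X).filter (fun a => nH β γ z a = k)).card : ℝ) ≤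
        (c * (R : ℝ) ^ k / (k.factorial : ℝ) + 1) *
          (X * l2 X ^ (K - 1) / ((η / 2) ^ R * Real.log X ^ R)) := by
      intro k hk
      have h1 := hB k z X (g1 k hk) (fl_pow_le (hB1 k) hη0 (hηB k hk) (show 1 ≤ X by omega))
      rw [abs_le] at h1
      have h2 : (X : ℝ) * l2 z ^ k / Real.log z ^ R ≤
          X * l2 X ^ (K - 1) / ((η / 2) ^ R * Real.log X ^ R) := by
        have h3 : l2 z ^ k ≤ l2 X ^ (K - 1) := by
          calc l2 z ^ k ≤ l2 X ^ k := pow_le_pow_left₀ g4.le hl2z k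
            _ ≤ _ := pow_le_pow_right₀ hl2 (by rw [mem_range] at hk; omega)
        have h4 : (η / 2) ^ R * Real.log X ^ R ≤ Real.log z ^ R := by
          rw [← mul_pow]
          exact pow_le_pow_left₀ (by positivity) g3 R
        gcongr
      calc (((Icc 1 X).filter (fun a => nH β γ z a = k)).card : ℝ) ≤
            (c * (R : ℝ) ^ k / (k.factorial : ℝ) + 1) * (X * l2 z ^ k / Real.log z ^ R) := by
            linarith [h1.2]
        _ ≤ _ := mul_le_mul_of_nonneg_left h2 (by positivity)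
    have hsub' : (((Icc 1 X).filter (fun a => nH β γ (fl θ X) a < K)).card : ℝ) ≤
        ∑ k ∈ range K, (((Icc 1 X).filter (fun a => nH β γ z a = k)).card : ℝ) := by
      exact_mod_cast hsub
    refine hsub'.trans ((sum_le_sum hterm).trans ?_)
    rw [← sum_mul, ← hD]
    have h5 : D * (X * l2 X ^ (K - 1) / ((η / 2) ^ R * Real.log X ^ R)) =
        D / (η / 2) ^ R * (X * l2 X ^ (K - 1) / Real.log X ^ R) := by
      field_simp
    rw [h5]
    apply mul_le_mul_of_nonneg_right _ (by positivity)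
    have : 0 ≤ Real.log (X2 : ℝ) ^ R := by positivity
    linarith
  · push Not at hc2
    have h1 : (((Icc 1 X).filter (fun a => nH β γ (fl θ X) a < K)).card : ℝ) ≤ X := by
      have : ((Icc 1 X).filter (fun a => nH β γ (fl θ X) a < K)).card ≤ X := by
        refine (card_filter_le _ _).trans ?_
        simp
      exact_mod_cast this
    have h2 : Real.log X ≤ Real.log X2 := Real.log_le_log hX0 (by exact_mod_cast hc2.le)
    have h3 : Real.log X ^ R ≤ Real.log X2 ^ R := pow_le_pow_left₀ hXlog.le h2 R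
    refine h1.trans ?_
    have h4 : (X : ℝ) ≤ Real.log X2 ^ R * (X * l2 X ^ (K - 1) / Real.log X ^ R) := by
      rw [← mul_div_assoc, le_div_iff₀ (by positivity)]
      calc (X : ℝ) * Real.log X ^ R ≤ X * Real.log X2 ^ R :=
            mul_le_mul_of_nonneg_left h3 hX0.le
        _ = Real.log X2 ^ R * (X * 1) := by ring
        _ ≤ _ := by
          apply mul_le_mul_of_nonneg_left _ (by positivity)
          exact mul_le_mul_of_nonneg_left hl2p hX0.le
    refine h4.trans ?_
    apply mul_le_mul_of_nonneg_right _ (by positivity)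
    have : 0 ≤ D / (η / 2) ^ R := by positivity
    linarith

/-- **no Wilson prime: the lower bound** -/
theorem none_lower (h : ∀ i j, i ≠ j → Ineq (β i) (γ i) (β j) (γ j)) :
    ∃ c δ : ℝ, 0 < c ∧ 0 < δ ∧ ∀ᶠ X : ℕ in atTop,
      c * (X / Real.log X ^ (Fintype.card ι)) ≤
        (((Icc 1 X).filter (fun a => nH β γ (fl δ X) a = 0)).card : ℝ) := by
  obtain ⟨c, hc0, hc⟩ := main_k β γ h
  obtain ⟨B, z1, hB1, hB⟩ := hc 0 (c / 2) (by linarith)
  have hB0 : (0 : ℝ) < B := by exact_mod_cast hB1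
  refine ⟨c / 2, 1 / B, by linarith, by positivity, ?_⟩
  have hδ : (0 : ℝ) < 1 / B := by positivity
  filter_upwards [(fl_tendsto hδ).eventually_ge_atTop (max z1 3), eventually_ge_atTop 3] with X h1 h2
  have hz := fl_pow_le hB1 hδ le_rfl (show 1 ≤ X by omega)
  set z := fl (1 / B) X with hzdef
  have h3 := hB z X ((le_max_left _ _).trans h1) hz
  have hz3 : 3 ≤ z := (le_max_right _ _).trans h1
  have hz1 : (1 : ℝ) < z := by exact_mod_cast (by omega : 1 < z)
  have hzlog : 0 < Real.log z := Real.log_pos hz1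
  have hzX : (z : ℝ) ≤ X := by
    have h2 : z ≤ z ^ B := Nat.le_self_pow (by omega) z
    exact_mod_cast h2.trans hz
  have hlog : Real.log z ≤ Real.log X := Real.log_le_log (by linarith) hzX
  simp only [pow_zero, mul_one, Nat.factorial_zero, Nat.cast_one, div_one] at h3
  rw [abs_le] at h3
  have h4 : (X : ℝ) / Real.log X ^ (Fintype.card ι) ≤ X / Real.log z ^ (Fintype.card ι) := by
    have : Real.log z ^ (Fintype.card ι) ≤ Real.log X ^ (Fintype.card ι) :=
      pow_le_pow_left₀ hzlog.le hlog _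
    gcongr
  have h5 := mul_le_mul_of_nonneg_left h4 (by linarith : 0 ≤ c / 2)
  linarith [h3.1]

end

end Pool.Agent.W2helper64.WJ
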