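import Pool.Agent.W2helper64.WJ.Ga
import Pool.Agent.H20R2.EN.FLem

set_option autoImplicit false

/-!
# The fundamental lemma for Wilson primes: the set of Wilson primes is prescribed
-/

namespace Pool.Agent.W2helper64.WJ

open Finset Filter Pool.Agent.Helper92K9.WI
open scoped Classical Topology

section
variable {ι : Type} [Fintype ι] [DecidableEq ι] (β γ : ι → ℤ)

/-- some progression has the Wilson prime `p` -/
def Hit (p a : ℕ) : Prop := ∃ j, WW (β j) (γ j) p (a : ℤ)

/-- the indicator -/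
noncomputable def hv (p a : ℕ) : ℝ := if Hit β γ p a then 1 else 0

/-- the density -/
noncomputable def rh (p : ℕ) : ℝ := av (p ^ 2) (hv β γ p)

omit [Fintype ι] [DecidableEq ι] in
lemma hv_per {p : ℕ} (hp2 : p ≠ 2) (a : ℕ) : hv β γ p (a + p ^ 2) = hv β γ p a := by
  unfold hv Hit
  have : (∃ j, WW (β j) (γ j) p ((a + p ^ 2 : ℕ) : ℤ)) ↔ (∃ j, WW (β j) (γ j) p (a : ℤ)) :=
    exists_congr fun j => WW_perN (β j) (γ j) hp2 a
  simp only [this]

omit [Fintype ι] [DecidableEq ι] in
lemma hv_nn (p a : ℕ) : 0 ≤ hv β γ p a := by unfold hv; split_ifs <;> norm_num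
omit [Fintype ι] [DecidableEq ι] in
lemma hv_le (p a : ℕ) : hv β γ p a ≤ 1 := by unfold hv; split_ifs <;> norm_num

omit [Fintype ι] [DecidableEq ι] in
lemma rh_nn (p : ℕ) : 0 ≤ rh β γ p := av_nonneg fun a => hv_nn β γ p a

lemma rh_le {p : ℕ} (hp : p.Prime) (hp2 : p ≠ 2) : rh β γ p ≤ Fintype.card ι * gg p := by
  have h1 : ∀ a, hv β γ p a ≤ ∑ j, iw (β j) (γ j) p a := by
    intro a
    unfold hv
    split_ifs with h
    · obtain ⟨j, hj⟩ := h
      have : iw (β j) (γ j) p a = 1 := by unfold iw; rw [if_pos hj]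
      calc (1 : ℝ) = iw (β j) (γ j) p a := this.symm
        _ ≤ _ := single_le_sum (f := fun j => iw (β j) (γ j) p a)
            (fun j _ => iw_nonneg _ _ _ _) (mem_univ j)
    · exact sum_nonneg fun j _ => iw_nonneg _ _ _ _
  unfold rh
  refine (av_mono h1).trans ?_
  rw [av_sum]
  have : ∀ j ∈ (univ : Finset ι), av (p ^ 2) (fun a => iw (β j) (γ j) p a) = gg p :=
    fun j _ => av_iw (β j) (γ j) hp hp2
  rw [sum_congr rfl this, sum_const, card_univ, nsmul_eq_mul]

lemma rh_ge (h : ∀ i j, i ≠ j → Ineq (β i) (γ i) (β j) (γ j)) : ∃ C : ℝ, 0 ≤ C ∧ ∀ p : ℕ,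
    p.Prime → p ≠ 2 → Fintype.card ι * gg p - C * (p : ℝ) ^ (-(4 : ℝ) / 3) ≤ rh β γ p := by
  obtain ⟨C, hC0, hC⟩ := pair_all β γ h
  refine ⟨(Fintype.card ι) ^ 2 * C, by positivity, fun p hp hp2 => ?_⟩
  have hN : 0 < p ^ 2 := pow_pos hp.pos 2
  have h1 : ∀ a, ∑ j, iw (β j) (γ j) p a - ∑ i, ∑ j, (if i = j then 0 else
      iw (β i) (γ i) p a * iw (β j) (γ j) p a) ≤ hv β γ p a := by
    intro a
    have e1 : ∑ i, ∑ j, (if i = j then 0 else iw (β i) (γ i) p a * iw (β j) (γ j) p a) =
        (∑ i, iw (β i) (γ i) p a) ^ 2 - ∑ i, iw (β i) (γ i) p a := by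
      have e2 : ∀ i, ∑ j, (if i = j then 0 else iw (β i) (γ i) p a * iw (β j) (γ j) p a) =
          iw (β i) (γ i) p a * (∑ j, iw (β j) (γ j) p a) - iw (β i) (γ i) p a := by
        intro i
        have : ∀ j, (if i = j then 0 else iw (β i) (γ i) p a * iw (β j) (γ j) p a) =
            iw (β i) (γ i) p a * iw (β j) (γ j) p a - (if i = j then
              iw (β i) (γ i) p a * iw (β j) (γ j) p a else 0) := by
          intro j; split_ifs <;> ring
        simp only [this]
        rw [sum_sub_distrib, sum_ite_eq, if_pos (mem_univ i), iw_sq, mul_sum]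
      simp only [e2]
      rw [sum_sub_distrib, ← sum_mul]
      ring
    rw [e1]
    set m : ℝ := ∑ i, iw (β i) (γ i) p a with hm
    have hm1 : m = 0 ∨ 1 ≤ m ∧ hv β γ p a = 1 := by
      by_cases hh : Hit β γ p a
      · right
        obtain ⟨j, hj⟩ := hh
        have : iw (β j) (γ j) p a = 1 := by unfold iw; rw [if_pos hj]
        refine ⟨?_, ?_⟩
        · calc (1 : ℝ) = iw (β j) (γ j) p a := this.symm
            _ ≤ _ := single_le_sum (f := fun j => iw (β j) (γ j) p a)
              (fun j _ => iw_nonneg _ _ _ _) (mem_univ j)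
        · unfold hv; rw [if_pos ⟨j, hj⟩]
      · left
        rw [hm]
        apply sum_eq_zero
        intro i _
        unfold iw
        rw [if_neg (fun h => hh ⟨i, h⟩)]
    rcases hm1 with h0 | ⟨h0, h2⟩
    · rw [h0]
      have := hv_nn β γ p a
      linarith
    · rw [h2]
      nlinarith
  have h2 := av_mono (N := p ^ 2) h1
  rw [av_sub, av_sum] at h2
  have h3 : ∑ j, av (p ^ 2) (fun a => iw (β j) (γ j) p a) = Fintype.card ι * gg p := by
    have : ∀ j ∈ (univ : Finset ι), av (p ^ 2) (fun a => iw (β j) (γ j) p a) = gg p :=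
      fun j _ => av_iw (β j) (γ j) hp hp2
    rw [sum_congr rfl this, sum_const, card_univ, nsmul_eq_mul]
  rw [h3] at h2
  have h4 : av (p ^ 2) (fun a => ∑ i, ∑ j, (if i = j then 0 else
      iw (β i) (γ i) p a * iw (β j) (γ j) p a)) ≤
      (Fintype.card ι) ^ 2 * C * (p : ℝ) ^ (-(4 : ℝ) / 3) := by
    rw [av_sum]
    have : ∀ i ∈ (univ : Finset ι), av (p ^ 2) (fun a => ∑ j, (if i = j then 0 else
        iw (β i) (γ i) p a * iw (β j) (γ j) p a)) ≤ Fintype.card ι * (C * (p : ℝ) ^ (-(4 : ℝ) / 3)) := by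
      intro i _
      rw [av_sum]
      have h4 : ∀ j ∈ (univ : Finset ι), av (p ^ 2) (fun a => (if i = j then 0 else
          iw (β i) (γ i) p a * iw (β j) (γ j) p a)) ≤ C * (p : ℝ) ^ (-(4 : ℝ) / 3) := by
        intro j _
        by_cases hij : i = j
        · simp only [if_pos hij]
          rw [av_const hN]
          positivity
        · simp only [if_neg hij]
          exact hC i j hij p hp hp2
      refine (sum_le_sum h4).trans ?_
      rw [sum_const, card_univ, nsmul_eq_mul]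
    refine (sum_le_sum this).trans ?_
    rw [sum_const, card_univ, nsmul_eq_mul]
    apply le_of_eq
    ring
  unfold rh
  have h5 : av (p ^ 2) (fun a => hv β γ p a) = av (p ^ 2) (hv β γ p) := rfl
  linarith

omit [Fintype ι] [DecidableEq ι] in
lemma rh_lt {p : ℕ} (hp : p.Prime) : rh β γ p ≤ 1 - 1 / p := by
  have hN : 0 < p ^ 2 := pow_pos hp.pos 2
  have hp0 : (0 : ℝ) < p := by exact_mod_cast hp.pos
  have h1 : ∀ a, hv β γ p a ≤ 1 - (if p ∣ a then (1 : ℝ) else 0) := by
    intro a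
    by_cases hd : p ∣ a
    · rw [if_pos hd]
      unfold hv
      rw [if_neg]
      · norm_num
      · rintro ⟨j, hj⟩
        exact hj.2.1 (by exact_mod_cast hd)
    · rw [if_neg hd, sub_zero]
      exact hv_le β γ p a
  have h2 := av_mono (N := p ^ 2) h1
  rw [av_sub, av_const hN] at h2
  have h3 : av (p ^ 2) (fun a => if p ∣ a then (1 : ℝ) else 0) = 1 / p := by
    have h4 := av_block (𝕜 := ℝ) (fun a => if p ∣ a then (1 : ℝ) else 0) (D := p)
      (fun a => by
        have : p ∣ a + p ↔ p ∣ a := Nat.dvd_add_left (dvd_refl p)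
        simp only [this]) (q := p) hp.pos
    rw [← pow_two] at h4
    rw [h4]
    unfold av
    congr 1
    have h5 : ∀ i ∈ range p, (if p ∣ i + 1 then (1 : ℝ) else 0) = if i = p - 1 then 1 else 0 := by
      intro i hi
      rw [mem_range] at hi
      have : p ∣ i + 1 ↔ i = p - 1 := by
        constructor
        · intro h
          have := Nat.le_of_dvd (by omega) h
          omega
        · intro h
          have : i + 1 = p := by have := hp.pos; omega
          rw [this]
      simp only [this]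
    rw [sum_congr rfl h5, sum_ite_eq', if_pos (mem_range.2 (by have := hp.pos; omega))]
  rw [h3] at h2
  exact h2

/-- counting a product of periodic conditions -/
lemma count_prod (S : Finset ℕ) (hS : ∀ p ∈ S, p.Prime) (f : ℕ → ℕ → ℝ)
    (hf : ∀ p a, |f p a| ≤ 1) (pf : ∀ p ∈ S, ∀ a, f p (a + p ^ 2) = f p a) (X : ℕ) :
    |∑ a ∈ Icc 1 X, ∏ p ∈ S, f p a - X * ∏ p ∈ S, av (p ^ 2) (f p)| ≤ 2 * MM S := by
  rcases Nat.eq_zero_or_pos X with hX | hX
  · subst hX
    simp
  · have hXr : (0 : ℝ) < X := by exact_mod_cast hX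
    have hb : ∀ a, ‖∏ p ∈ S, f p a‖ ≤ 1 := by
      intro a
      rw [norm_prod]
      exact prod_le_one (fun p _ => norm_nonneg _) (fun p _ => hf p a)
    have h1 := av_close (fun a => ∏ p ∈ S, f p a) (MM_pos hS) (prod_per S f pf) hb hX
    rw [av_prod S hS f pf, av_eq, Real.norm_eq_abs] at h1
    have e : ∑ a ∈ Icc 1 X, ∏ p ∈ S, f p a - X * ∏ p ∈ S, av (p ^ 2) (f p) =
        X * ((∑ a ∈ Icc 1 X, ∏ p ∈ S, f p a) / X - ∏ p ∈ S, av (p ^ 2) (f p)) := by
      field_simp
    rw [e, abs_mul, abs_of_pos hXr]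
    calc (X : ℝ) * _ ≤ X * (2 * 1 * MM S / X) := mul_le_mul_of_nonneg_left h1 hXr.le
      _ = _ := by field_simp

lemma MM_mono {S T : Finset ℕ} (h : S ⊆ T) (hT : ∀ p ∈ T, p.Prime) : MM S ≤ MM T := by
  unfold MM
  exact prod_le_prod_of_subset_of_one_le' h (fun p hp _ => Nat.one_le_pow _ _ (hT p hp).pos)

lemma MM_union (S T : Finset ℕ) (hT : ∀ p ∈ T, p.Prime) : MM (S ∪ T) ≤ MM S * MM T := by
  have h1 : MM (S ∪ T) = MM S * MM (T \ S) := by
    unfold MM
    rw [← prod_union disjoint_sdiff, union_sdiff_self_eq_union]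
  rw [h1]
  exact Nat.mul_le_mul_left _ (MM_mono sdiff_subset hT)

lemma MM_le_pow {S : Finset ℕ} {z : ℕ} (h : ∀ p ∈ S, p ≤ z) : MM S ≤ z ^ (2 * S.card) := by
  unfold MM
  calc ∏ p ∈ S, p ^ 2 ≤ ∏ _p ∈ S, z ^ 2 := Finset.prod_le_prod' fun p hp => Nat.pow_le_pow_left (h p hp) 2
    _ = _ := by rw [prod_const, ← pow_mul]

lemma exists_J (z1 : ℕ) (hz : 2 ≤ z1) : ∃ J : ℕ, z1 ≤ 2 ^ 2 ^ J ∧ 2 ^ 2 ^ J ≤ z1 ^ 2 := by
  have hex : ∃ J : ℕ, z1 ≤ 2 ^ 2 ^ J := by
    refine ⟨z1, ?_⟩
    have h1 : z1 < 2 ^ z1 := Nat.lt_two_pow_self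
    have h2 : 2 ^ z1 < 2 ^ 2 ^ z1 := Nat.pow_lt_pow_right (by norm_num) h1
    omega
  refine ⟨Nat.find hex, Nat.find_spec hex, ?_⟩
  rcases Nat.eq_zero_or_pos (Nat.find hex) with h | h
  · rw [h, pow_zero, pow_one]
    nlinarith
  · have h1 : ¬ z1 ≤ 2 ^ 2 ^ (Nat.find hex - 1) := Nat.find_min hex (by omega)
    push Not at h1
    obtain ⟨j, hj⟩ : ∃ j, Nat.find hex = j + 1 := ⟨Nat.find hex - 1, by omega⟩
    rw [hj] at h1 ⊢
    rw [Nat.add_sub_cancel] at h1
    rw [pow_succ 2 j, pow_mul]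
    exact Nat.pow_le_pow_left h1.le 2

/-- the density of the event that the set of odd Wilson primes up to `z` is `U` -/
noncomputable def dens (z : ℕ) (U : Finset ℕ) : ℝ :=
  ∏ p ∈ Od z, (if p ∈ U then rh β γ p else 1 - rh β γ p)

/-- **the set of odd Wilson primes up to `z` is prescribed** -/
theorem exact_count : ∃ C0 : ℕ, 1 ≤ C0 ∧ ∀ (b z X : ℕ) (U : Finset ℕ), C0 ≤ b → 2 ≤ z → U ⊆ Od z →
    |(((Icc 1 X).filter (fun a => ∀ p ∈ Od z, (Hit β γ p a ↔ p ∈ U))).card : ℝ) -
      X * dens β γ z U| ≤ (1 / 2) ^ b * (X * dens β γ z U) +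
        2 * MM (Od C0) * (z : ℝ) ^ (6 * C0 * b + 2 * U.card + 2) := by
  obtain ⟨C0, hC1, hC⟩ := Pool.Agent.H20R2.fLem (Fintype.card ι)
  refine ⟨C0, hC1, fun b z X U hb hz hU => ?_⟩
  obtain ⟨J, hJ1, hJ2⟩ := exists_J z hz
  have hOdp : ∀ w, ∀ p ∈ Od w, p.Prime ∧ p ≠ 2 ∧ p ≤ w :=
    fun w p hp => ⟨(mem_Od.1 hp).2.1, (mem_Od.1 hp).2.2, (mem_Od.1 hp).1.2⟩
  set P : Finset ℕ := ((Od z).filter (fun p => C0 < p)) \ U with hP
  set Q : Finset ℕ := Od z \ P with hQ
  have hPO : P ⊆ Od z := fun p hp => (mem_filter.1 (Finset.mem_sdiff.1 hp).1).1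
  have hQO : Q ⊆ Od z := sdiff_subset
  have hPU : ∀ p ∈ P, p ∉ U := fun p hp => (Finset.mem_sdiff.1 hp).2
  have hQsub : Q ⊆ Od C0 ∪ U := by
    intro p hp
    rw [hQ, Finset.mem_sdiff, hP, Finset.mem_sdiff, mem_filter] at hp
    rw [mem_union]
    by_cases hpU : p ∈ U
    · exact Or.inr hpU
    · left
      have h1 := hp.1
      rw [mem_Od] at h1 ⊢
      refine ⟨⟨h1.1.1, ?_⟩, h1.2⟩
      by_contra hcon
      exact hp.2 ⟨⟨hp.1, by omega⟩, hpU⟩
  set φ : ℕ → ℕ → ℝ := fun p a => if p ∈ U then hv β γ p a else 1 - hv β γ p a with hφ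
  have hφ0 : ∀ p a, 0 ≤ φ p a ∧ φ p a ≤ 1 := by
    intro p a
    have h1 := hv_nn β γ p a
    have h2 := hv_le β γ p a
    rw [hφ]
    simp only
    split_ifs
    · exact ⟨h1, h2⟩
    · constructor <;> linarith
  have hφper : ∀ p, p ≠ 2 → ∀ a, φ p (a + p ^ 2) = φ p a := by
    intro p hp2 a
    rw [hφ]
    simp only [hv_per β γ hp2]
  have hφav : ∀ p, p.Prime → av (p ^ 2) (φ p) = if p ∈ U then rh β γ p else 1 - rh β γ p := by
    intro p hp
    by_cases hpU : p ∈ U
    · rw [if_pos hpU]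
      have : φ p = hv β γ p := by
        funext a; rw [hφ]; simp only [if_pos hpU]
      rw [this]
      rfl
    · rw [if_neg hpU]
      have : φ p = fun a => 1 - hv β γ p a := by
        funext a; rw [hφ]; simp only [if_neg hpU]
      rw [this, av_sub, av_const (pow_pos hp.pos 2)]
      rfl
  set w : ℕ → ℝ := fun a => ∏ p ∈ Q, φ p a with hw
  set A : ℝ := X * ∏ p ∈ Q, (if p ∈ U then rh β γ p else 1 - rh β γ p) with hA
  have hrh1 : ∀ p ∈ Od z, 0 ≤ (if p ∈ U then rh β γ p else 1 - rh β γ p) := by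
    intro p hp
    have h1 := rh_nn β γ p
    have h2 := rh_lt β γ (hOdp z p hp).1
    have h3 : (0 : ℝ) ≤ 1 / p := by positivity
    split_ifs
    · exact h1
    · linarith
  have hA0 : 0 ≤ A := mul_nonneg (Nat.cast_nonneg _) (prod_nonneg fun p hp => hrh1 p (hQO hp))
  set D : ℕ := (2 ^ 2 ^ J) ^ (C0 * b) with hD
  set E : ℝ := 2 * MM Q * (D : ℝ) ^ 2 with hE
  have key := hC b J C0 P (rh β γ) hb le_rfl
    (by
      intro p hp
      have h1 := hP ▸ hp
      rw [Finset.mem_sdiff, mem_filter] at h1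
      exact ⟨(hOdp z p h1.1.1).1, h1.1.2, (hOdp z p h1.1.1).2.2.trans hJ1⟩)
    (by
      intro p hp
      have hp' := hOdp z p (hPO hp)
      refine ⟨rh_nn β γ p, (rh_le β γ hp'.1 hp'.2.1).trans ?_⟩
      rw [div_eq_mul_one_div]
      apply mul_le_mul_of_nonneg_left _ (Nat.cast_nonneg _)
      unfold gg
      have hp2 : (2 : ℝ) ≤ p := by exact_mod_cast hp'.1.two_le
      rw [div_le_div_iff₀ (by positivity) (by linarith)]
      nlinarith)
    (Icc 1 X) w (Hit β γ) A (fun _ => E) (fun m _ => prod_nonneg fun p _ => (hφ0 p m).1) hA0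
    (by
      intro T hT hTD
      have hTO : T ⊆ Od z := hT.trans hPO
      have hdis : Disjoint T Q := by
        rw [disjoint_left]
        intro p hpT hpQ
        rw [hQ, Finset.mem_sdiff] at hpQ
        exact hpQ.2 (hT hpT)
      set ψ : ℕ → ℕ → ℝ := fun p a => if p ∈ T then hv β γ p a else φ p a with hψ
      have hSO : T ∪ Q ⊆ Od z := union_subset hTO hQO
      have h1 := count_prod (T ∪ Q) (fun p hp => (hOdp z p (hSO hp)).1) ψ
        (by
          intro p a
          rw [hψ]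
          simp only
          split_ifs
          · rw [abs_of_nonneg (hv_nn β γ p a)]; exact hv_le β γ p a
          · rw [abs_of_nonneg (hφ0 p a).1]; exact (hφ0 p a).2)
        (by
          intro p hp a
          have hp2 := (hOdp z p (hSO hp)).2.1
          rw [hψ]
          simp only
          split_ifs
          · exact hv_per β γ hp2 a
          · exact hφper p hp2 a) X
      have e1 : ∑ m ∈ (Icc 1 X).filter (fun m => ∀ p ∈ T, Hit β γ p m), w m =
          ∑ a ∈ Icc 1 X, ∏ p ∈ T ∪ Q, ψ p a := by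
        rw [sum_filter]
        apply sum_congr rfl
        intro m _
        rw [prod_union hdis]
        have e2 : ∏ p ∈ Q, ψ p m = w m := by
          rw [hw]
          apply prod_congr rfl
          intro p hp
          rw [hψ]
          simp only
          rw [if_neg (fun h => disjoint_left.1 hdis h hp)]
        have e3 : ∏ p ∈ T, ψ p m = if ∀ p ∈ T, Hit β γ p m then 1 else 0 := by
          have : ∀ p ∈ T, ψ p m = if Hit β γ p m then 1 else 0 := by
            intro p hp
            rw [hψ]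
            simp only
            rw [if_pos hp]
            rfl
          rw [prod_congr rfl this, prod_ite_zero]
          simp
        rw [e2, e3]
        split_ifs <;> simp
      have e4 : X * ∏ p ∈ T ∪ Q, av (p ^ 2) (ψ p) = A * ∏ p ∈ T, rh β γ p := by
        rw [prod_union hdis]
        have e5 : ∏ p ∈ T, av (p ^ 2) (ψ p) = ∏ p ∈ T, rh β γ p := by
          apply prod_congr rfl
          intro p hp
          have : ψ p = hv β γ p := by
            funext a; rw [hψ]; simp only [if_pos hp]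
          rw [this]
          rfl
        have e6 : ∏ p ∈ Q, av (p ^ 2) (ψ p) =
            ∏ p ∈ Q, (if p ∈ U then rh β γ p else 1 - rh β γ p) := by
          apply prod_congr rfl
          intro p hp
          have : ψ p = φ p := by
            funext a; rw [hψ]; simp only [if_neg (fun h => disjoint_left.1 hdis h hp)]
          rw [this]
          exact hφav p (hOdp z p (hQO hp)).1
        rw [e5, e6, hA]
        ring
      rw [e1, ← e4]
      refine h1.trans ?_
      rw [hE, mul_assoc]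
      apply mul_le_mul_of_nonneg_left _ (by norm_num)
      have h2 : MM (T ∪ Q) ≤ MM Q * D ^ 2 := by
        rw [union_comm]
        refine (MM_union Q T (fun p hp => (hOdp z p (hTO hp)).1)).trans ?_
        apply Nat.mul_le_mul_left
        unfold MM
        rw [prod_pow]
        exact Nat.pow_le_pow_left hTD 2
      exact_mod_cast h2)
  -- identify both sides
  have e7 : ∑ m ∈ (Icc 1 X).filter (fun m => ∀ p ∈ P, ¬ Hit β γ p m), w m =
      (((Icc 1 X).filter (fun a => ∀ p ∈ Od z, (Hit β γ p a ↔ p ∈ U))).card : ℝ) := by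
    rw [sum_filter, card_filter]
    push_cast
    apply sum_congr rfl
    intro m _
    by_cases hall : ∀ p ∈ Od z, (Hit β γ p m ↔ p ∈ U)
    · rw [if_pos hall, if_pos]
      · rw [hw]
        apply prod_eq_one
        intro p hp
        have h1 := hall p (hQO hp)
        rw [hφ]
        simp only
        unfold hv
        by_cases hpU : p ∈ U
        · rw [if_pos hpU, if_pos (h1.2 hpU)]
        · rw [if_neg hpU, if_neg (fun h => hpU (h1.1 h)), sub_zero]
      · intro p hp h
        exact hPU p hp ((hall p (hPO hp)).1 h)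
    · rw [if_neg hall]
      split_ifs with hP2
      · push Not at hall
        obtain ⟨p, hp, hp2⟩ := hall
        have hpQ : p ∈ Q := by
          rw [hQ, Finset.mem_sdiff]
          refine ⟨hp, fun hpP => ?_⟩
          rcases hp2 with ⟨h1, _⟩ | ⟨h1, h2⟩
          · exact hP2 p hpP h1
          · exact hPU p hpP h2
        rw [hw]
        apply prod_eq_zero hpQ
        rw [hφ]
        simp only
        unfold hv
        rcases hp2 with ⟨h1, h2⟩ | ⟨h1, h2⟩
        · rw [if_neg h2, if_pos h1, sub_self]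
        · rw [if_pos h2, if_neg h1]
      · rfl
  have e8 : A * ∏ p ∈ P, (1 - rh β γ p) = X * dens β γ z U := by
    rw [hA, dens, mul_assoc]
    congr 1
    have h1 : ∏ p ∈ P, (1 - rh β γ p) = ∏ p ∈ P, (if p ∈ U then rh β γ p else 1 - rh β γ p) := by
      apply prod_congr rfl
      intro p hp
      rw [if_neg (hPU p hp)]
    rw [h1, mul_comm, hQ, mul_comm, prod_sdiff hPO]
  rw [e7, e8] at key
  refine key.trans ?_
  apply add_le_add le_rfl
  -- the error term
  rw [sum_const, nsmul_eq_mul]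
  have hcardT : (P.powerset.filter (fun T : Finset ℕ => ∏ p ∈ T, p ≤ D)).card ≤ D := by
    have : (P.powerset.filter (fun T : Finset ℕ => ∏ p ∈ T, p ≤ D)).card ≤ (Icc 1 D).card := by
      refine card_le_card_of_injOn (fun T => ∏ p ∈ T, p) ?_ ?_
      · intro T hT
        rw [coe_filter] at hT
        rw [coe_Icc]
        refine ⟨?_, hT.2⟩
        apply Nat.pos_of_ne_zero
        rw [prod_ne_zero_iff]
        intro p hp
        exact (hOdp z p (hPO ((mem_powerset.1 hT.1) hp))).1.ne_zero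
      · intro T hT T' hT' h
        rw [coe_filter] at hT hT'
        have a1 := Nat.primeFactors_prod (s := T) (fun p hp => (hOdp z p (hPO ((mem_powerset.1 hT.1) hp))).1)
        have a2 := Nat.primeFactors_prod (s := T') (fun p hp => (hOdp z p (hPO ((mem_powerset.1 hT'.1) hp))).1)
        simp only at h
        rw [← a1, ← a2, h]
    simpa using this
  have hJz : J + 2 ≤ z ^ 2 := by
    refine le_trans ?_ hJ2
    have h3 : J < 2 ^ J := Nat.lt_two_pow_self
    have h4 : 2 ^ J < 2 ^ 2 ^ J := Nat.lt_two_pow_self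
    omega
  have hDz : D ≤ z ^ (2 * C0 * b) := by
    calc D ≤ (z ^ 2) ^ (C0 * b) := Nat.pow_le_pow_left hJ2 _
      _ = _ := by rw [← pow_mul]; congr 1; ring
  have hMQ : MM Q ≤ MM (Od C0) * z ^ (2 * U.card) := by
    have hUp : ∀ p ∈ U, p.Prime := fun p hp => (hOdp z p (hU hp)).1
    have hall : ∀ p ∈ Od C0 ∪ U, p.Prime := by
      intro p hp
      rcases mem_union.1 hp with h | h
      · exact (hOdp C0 p h).1
      · exact hUp p h
    refine (MM_mono hQsub hall).trans ((MM_union _ _ hUp).trans ?_)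
    exact Nat.mul_le_mul_left _ (MM_le_pow fun p hp => (hOdp z p (hU hp)).2.2)
  have hfin : (J + 2) * ((P.powerset.filter (fun T : Finset ℕ => ∏ p ∈ T, p ≤ D)).card *
      (2 * MM Q * D ^ 2)) ≤ 2 * MM (Od C0) * z ^ (6 * C0 * b + 2 * U.card + 2) := by
    calc (J + 2) * ((P.powerset.filter (fun T : Finset ℕ => ∏ p ∈ T, p ≤ D)).card *
          (2 * MM Q * D ^ 2)) ≤ z ^ 2 * (z ^ (2 * C0 * b) * (2 * (MM (Od C0) * z ^ (2 * U.card)) *
            (z ^ (2 * C0 * b)) ^ 2)) := by
          apply Nat.mul_le_mul hJz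
          apply Nat.mul_le_mul (hcardT.trans hDz)
          apply Nat.mul_le_mul (Nat.mul_le_mul_left _ hMQ)
          exact Nat.pow_le_pow_left hDz 2
      _ = _ := by ring
  rw [hE]
  exact_mod_cast hfin

end

end Pool.Agent.W2helper64.WJ
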