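import Pool.Agent.W2helper64.WJ.Avg

set_option autoImplicit false

/-!
# Transfer of characteristic functions from the independent model
-/

namespace Pool.Agent.W2helper64.WJ

open Finset Filter
open scoped Classical Topology

/-- the characteristic function -/
noncomputable def cf (N : ℕ) (S : ℕ → ℝ) : ℂ := av N (fun a => Complex.exp ((S a : ℂ) * Complex.I))

lemma cf_taylor (N K : ℕ) (S : ℕ → ℝ) :
    ‖cf N S - ∑ k ∈ range K, (Complex.I ^ k / (k.factorial : ℂ)) * ((av N (fun a => S a ^ k) : ℝ) : ℂ)‖ ≤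
      av N (fun a => |S a| ^ K) / K.factorial := by
  have e1 : cf N S - ∑ k ∈ range K, (Complex.I ^ k / (k.factorial : ℂ)) *
      ((av N (fun a => S a ^ k) : ℝ) : ℂ) =
      av N (fun a => Complex.exp ((S a : ℂ) * Complex.I) -
        ∑ k ∈ range K, ((S a : ℂ) * Complex.I) ^ k / (k.factorial : ℂ)) := by
    rw [av_sub, av_sum]
    unfold cf
    congr 1
    apply sum_congr rfl
    intro k _
    rw [av_ofReal, ← av_mul_left]
    congr 1
    funext a
    push_cast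
    rw [mul_pow]
    ring
  rw [e1]
  refine (norm_av_le _ _).trans ?_
  have e2 : av N (fun a => |S a| ^ K) / K.factorial = av N (fun a => |S a| ^ K / K.factorial) := by
    have := av_mul_left N ((K.factorial : ℝ)⁻¹) (fun a => |S a| ^ K)
    rw [div_eq_inv_mul, ← this]
    congr 1
    funext a
    ring
  rw [e2]
  exact av_mono fun a => exp_taylor K (S a)

lemma pow_le_exp (x : ℝ) (K : ℕ) : |x| ^ K / K.factorial ≤ (1 / 2) ^ K * (Real.exp (2 * x) + Real.exp (-(2 * x))) := by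
  have h1 : (2 * |x|) ^ K / K.factorial ≤ Real.exp (2 * |x|) :=
    Real.pow_div_factorial_le_exp _ (by positivity) K
  have h2 : Real.exp (2 * |x|) ≤ Real.exp (2 * x) + Real.exp (-(2 * x)) := by
    rcases abs_cases x with ⟨h, _⟩ | ⟨h, _⟩
    · rw [h]; linarith [Real.exp_pos (-(2 * x))]
    · rw [h]
      have : 2 * -x = -(2 * x) := by ring
      rw [this]
      linarith [Real.exp_pos (2 * x)]
  have h3 : |x| ^ K / K.factorial = (1 / 2) ^ K * ((2 * |x|) ^ K / K.factorial) := by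
    rw [mul_pow, div_pow, one_pow]
    field_simp
  rw [h3]
  exact mul_le_mul_of_nonneg_left (h1.trans h2) (by positivity)

/-- **the transfer inequality** -/
theorem transfer (P : Finset ℕ) (hP : ∀ p ∈ P, p.Prime) {z : ℕ} (hz : ∀ p ∈ P, p ≤ z)
    (hz1 : 1 ≤ z) (ξ : ℕ → ℕ → ℝ) {C : ℝ} (hC : ∀ p a, |ξ p a| ≤ C)
    (pf : ∀ p ∈ P, ∀ a, ξ p (a + p ^ 2) = ξ p a) {B : ℝ}
    (hB1 : av (MM P) (fun a => Real.exp (2 * ∑ p ∈ P, ξ p a)) ≤ B)
    (hB2 : av (MM P) (fun a => Real.exp (-(2 * ∑ p ∈ P, ξ p a))) ≤ B)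
    {K : ℕ} (hK : Even K) {X : ℕ} (hX : 0 < X) {Q : ℝ} (hQ1 : 1 ≤ Q)
    (hQ : C * P.card * (z : ℝ) ^ 2 ≤ Q) :
    ‖cf X (fun a => ∑ p ∈ P, ξ p a) - cf (MM P) (fun a => ∑ p ∈ P, ξ p a)‖ ≤
      2 * (K + 1) * Q ^ K / X + 4 * B * (1 / 2) ^ K := by
  have hC0 : 0 ≤ C := (abs_nonneg _).trans (hC 0 0)
  have hXr : (0 : ℝ) < X := by exact_mod_cast hX
  set S : ℕ → ℝ := fun a => ∑ p ∈ P, ξ p a with hS
  set M := MM P with hM
  have hQ0 : 0 ≤ C * P.card * (z : ℝ) ^ 2 := by positivity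
  have hmom : ∀ k ≤ K, |av X (fun a => S a ^ k) - av M (fun a => S a ^ k)| ≤ 2 * Q ^ K / X := by
    intro k hk
    refine (moment_close P hP hz hz1 ξ hC pf k hX).trans ?_
    apply div_le_div_of_nonneg_right _ hXr.le
    apply mul_le_mul_of_nonneg_left _ (by norm_num)
    exact (pow_le_pow_left₀ hQ0 hQ k).trans (pow_le_pow_right₀ hQ1 hk)
  have habs : ∀ N, av N (fun a => |S a| ^ K) = av N (fun a => S a ^ K) := by
    intro N
    congr 1
    funext a
    exact hK.pow_abs (S a)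
  have hmodel : av M (fun a => |S a| ^ K) / K.factorial ≤ 2 * B * (1 / 2) ^ K := by
    have e2 : av M (fun a => |S a| ^ K) / K.factorial = av M (fun a => |S a| ^ K / K.factorial) := by
      have := av_mul_left M ((K.factorial : ℝ)⁻¹) (fun a => |S a| ^ K)
      rw [div_eq_inv_mul, ← this]
      congr 1
      funext a
      ring
    rw [e2]
    refine (av_mono fun a => pow_le_exp (S a) K).trans ?_
    rw [av_mul_left, av_add]
    have : (0 : ℝ) < (1 / 2) ^ K := by positivity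
    nlinarith
  have hKf : (1 : ℝ) ≤ K.factorial := by exact_mod_cast K.factorial_pos
  have hXm : av X (fun a => |S a| ^ K) / K.factorial ≤ 2 * Q ^ K / X + 2 * B * (1 / 2) ^ K := by
    rw [habs] at hmodel ⊢
    have h1 := (abs_le.1 (hmom K le_rfl)).2
    have h2 : 0 ≤ 2 * Q ^ K / X := by positivity
    have h3 : av X (fun a => S a ^ K) / K.factorial ≤
        (av M (fun a => S a ^ K) + 2 * Q ^ K / X) / K.factorial :=
      div_le_div_of_nonneg_right (by linarith) (by linarith)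
    have h4 : 2 * Q ^ K / X / K.factorial ≤ 2 * Q ^ K / X := div_le_self h2 hKf
    rw [add_div] at h3
    linarith
  have t1 := cf_taylor X K S
  have t2 := cf_taylor M K S
  set A : ℕ → ℂ := fun N => ∑ k ∈ range K, (Complex.I ^ k / (k.factorial : ℂ)) *
    ((av N (fun a => S a ^ k) : ℝ) : ℂ) with hA
  have t3 : ‖A X - A M‖ ≤ K * (2 * Q ^ K / X) := by
    rw [hA]
    simp only
    rw [← sum_sub_distrib]
    refine (norm_sum_le _ _).trans ?_
    have : ∀ k ∈ range K, ‖(Complex.I ^ k / (k.factorial : ℂ)) * ((av X (fun a => S a ^ k) : ℝ) : ℂ) -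
        (Complex.I ^ k / (k.factorial : ℂ)) * ((av M (fun a => S a ^ k) : ℝ) : ℂ)‖ ≤
        2 * Q ^ K / X := by
      intro k hk
      rw [← mul_sub, norm_mul, norm_div, norm_pow, Complex.norm_I, one_pow, Complex.norm_natCast,
        ← Complex.ofReal_sub, Complex.norm_real, Real.norm_eq_abs]
      have hkf : (1 : ℝ) ≤ k.factorial := by exact_mod_cast k.factorial_pos
      have h1 := hmom k (mem_range.1 hk).le
      have h2 : 1 / (k.factorial : ℝ) ≤ 1 := by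
        rw [div_le_one (by linarith)]
        exact hkf
      calc 1 / (k.factorial : ℝ) * _ ≤ 1 * (2 * Q ^ K / X) :=
            mul_le_mul h2 h1 (abs_nonneg _) zero_le_one
        _ = _ := one_mul _
    refine (sum_le_sum this).trans ?_
    rw [sum_const, card_range, nsmul_eq_mul]
  have e : cf X S - cf M S = (cf X S - A X) + (A X - A M) - (cf M S - A M) := by ring
  rw [e]
  refine (norm_sub_le _ _).trans ?_
  have := norm_add_le (cf X S - A X) (A X - A M)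
  have e2 : 2 * ((K : ℝ) + 1) * Q ^ K / X = K * (2 * Q ^ K / X) + 2 * Q ^ K / X := by ring
  rw [e2]
  linarith

/-- the characteristic function of the model is a product -/
lemma cf_model (P : Finset ℕ) (hP : ∀ p ∈ P, p.Prime) (ξ : ℕ → ℕ → ℝ)
    (pf : ∀ p ∈ P, ∀ a, ξ p (a + p ^ 2) = ξ p a) :
    cf (MM P) (fun a => ∑ p ∈ P, ξ p a) = ∏ p ∈ P, cf (p ^ 2) (ξ p) := by
  unfold cf
  rw [← av_prod P hP (fun p a => Complex.exp ((ξ p a : ℂ) * Complex.I))
    (fun p hp a => by rw [pf p hp a])]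
  congr 1
  funext a
  push_cast
  rw [sum_mul, Complex.exp_sum]

/-- the Laplace transform of the model is a product -/
lemma exp_model (P : Finset ℕ) (hP : ∀ p ∈ P, p.Prime) (ξ : ℕ → ℕ → ℝ)
    (pf : ∀ p ∈ P, ∀ a, ξ p (a + p ^ 2) = ξ p a) (s : ℝ) :
    av (MM P) (fun a => Real.exp (s * ∑ p ∈ P, ξ p a)) =
      ∏ p ∈ P, av (p ^ 2) (fun a => Real.exp (s * ξ p a)) := by
  rw [← av_prod P hP (fun p a => Real.exp (s * ξ p a)) (fun p hp a => by rw [pf p hp a])]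
  congr 1
  funext a
  rw [mul_sum, Real.exp_sum]

lemma norm_cf_le {N : ℕ} (hN : 0 < N) (S : ℕ → ℝ) : ‖cf N S‖ ≤ 1 := by
  unfold cf
  refine (norm_av_le _ _).trans ?_
  have : (fun a => ‖Complex.exp ((S a : ℂ) * Complex.I)‖) = fun _ => (1 : ℝ) := by
    funext a
    exact Complex.norm_exp_ofReal_mul_I _
  rw [this, av_const hN]

/-- products of complex numbers in the unit disc -/
lemma prod_close {ι : Type*} (s : Finset ι) (z w : ι → ℂ) (hz : ∀ i ∈ s, ‖z i‖ ≤ 1)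
    (hw : ∀ i ∈ s, ‖w i‖ ≤ 1) : ‖∏ i ∈ s, z i - ∏ i ∈ s, w i‖ ≤ ∑ i ∈ s, ‖z i - w i‖ := by
  induction s using Finset.induction_on with
  | empty => simp
  | insert i s hi ih =>
    rw [prod_insert hi, prod_insert hi, sum_insert hi]
    have h1 := ih (fun j hj => hz j (mem_insert_of_mem hj)) (fun j hj => hw j (mem_insert_of_mem hj))
    have e : z i * ∏ j ∈ s, z j - w i * ∏ j ∈ s, w j =
        (z i - w i) * ∏ j ∈ s, z j + w i * (∏ j ∈ s, z j - ∏ j ∈ s, w j) := by ring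
    rw [e]
    refine (norm_add_le _ _).trans ?_
    rw [norm_mul, norm_mul]
    have h2 : ‖∏ j ∈ s, z j‖ ≤ 1 := by
      rw [norm_prod]
      exact prod_le_one (fun j _ => norm_nonneg _) (fun j hj => hz j (mem_insert_of_mem hj))
    have h3 : ‖z i - w i‖ * ‖∏ j ∈ s, z j‖ ≤ ‖z i - w i‖ := mul_le_of_le_one_right (norm_nonneg _) h2
    have h4 : ‖w i‖ * ‖∏ j ∈ s, z j - ∏ j ∈ s, w j‖ ≤ ‖∏ j ∈ s, z j - ∏ j ∈ s, w j‖ :=
      mul_le_of_le_one_left (norm_nonneg _) (hw i (mem_insert_self _ _))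
    linarith

/-- one factor -/
lemma cf_one_factor {N : ℕ} (hN : 0 < N) (ξ : ℕ → ℝ) {c : ℝ} (hc : ∀ a, |ξ a| ≤ c) (hc1 : c ≤ 1)
    (h0 : av N ξ = 0) :
    ‖cf N ξ - ((Real.exp (-(av N (fun a => ξ a ^ 2) / 2)) : ℝ) : ℂ)‖ ≤
      2 * c * av N (fun a => ξ a ^ 2) := by
  set v := av N (fun a => ξ a ^ 2) with hv
  have hc0 : 0 ≤ c := (abs_nonneg _).trans (hc 0)
  have hv0 : 0 ≤ v := av_nonneg fun a => sq_nonneg _
  have hvc : v ≤ c ^ 2 := by
    have : v ≤ av N (fun _ => c ^ 2) := av_mono fun a => by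
      rw [← sq_abs]
      exact pow_le_pow_left₀ (abs_nonneg _) (hc a) 2
    rwa [av_const hN] at this
  have h1 := cf_taylor N 3 ξ
  have hsum : ∑ k ∈ range 3, (Complex.I ^ k / (k.factorial : ℂ)) *
      ((av N (fun a => ξ a ^ k) : ℝ) : ℂ) = ((1 - v / 2 : ℝ) : ℂ) := by
    rw [sum_range_succ, sum_range_succ, sum_range_succ, sum_range_zero]
    have a0 : av N (fun a => ξ a ^ 0) = 1 := by
      simp only [pow_zero]
      exact av_const hN 1
    have a1 : av N (fun a => ξ a ^ 1) = 0 := by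
      simp only [pow_one]
      exact h0
    rw [a0, a1, ← hv, Complex.I_sq]
    norm_num [Nat.factorial]
    ring
  rw [hsum] at h1
  have e1 : av N (fun a => |ξ a| ^ 3) ≤ c * v := by
    rw [hv, ← av_mul_left]
    apply av_mono
    intro a
    have h2 : |ξ a| ^ 3 = |ξ a| * ξ a ^ 2 := by rw [← sq_abs (ξ a)]; ring
    rw [h2]
    exact mul_le_mul_of_nonneg_right (hc a) (sq_nonneg _)
  have h3 : ‖cf N ξ - (1 - v / 2 : ℝ)‖ ≤ c * v := by
    refine h1.trans ?_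
    have h4 : 0 ≤ c * v := mul_nonneg hc0 hv0
    have h5 : ((Nat.factorial 3 : ℕ) : ℝ) = 6 := by norm_num [Nat.factorial]
    rw [h5, div_le_iff₀ (by norm_num)]
    nlinarith
  have h5 : |Real.exp (-(v / 2)) - (1 - v / 2)| ≤ v ^ 2 := by
    have h6 : |-(v / 2)| ≤ 1 := by
      rw [abs_neg, abs_of_nonneg (by linarith)]
      nlinarith
    have := Real.abs_exp_sub_one_sub_id_le h6
    have e3 : Real.exp (-(v / 2)) - (1 - v / 2) = Real.exp (-(v / 2)) - 1 - -(v / 2) := by ring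
    rw [e3]
    refine this.trans ?_
    nlinarith [sq_nonneg v]
  have h6 : ‖((Real.exp (-(v / 2)) : ℝ) : ℂ) - ((1 - v / 2 : ℝ) : ℂ)‖ ≤ v ^ 2 := by
    rw [← Complex.ofReal_sub, Complex.norm_real, Real.norm_eq_abs]
    exact h5
  have h7 : v ^ 2 ≤ c * v := by
    have : v ≤ c := hvc.trans (by nlinarith)
    nlinarith
  have e4 : cf N ξ - ((Real.exp (-(v / 2)) : ℝ) : ℂ) = (cf N ξ - ((1 - v / 2 : ℝ) : ℂ)) -
      (((Real.exp (-(v / 2)) : ℝ) : ℂ) - ((1 - v / 2 : ℝ) : ℂ)) := by ring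
  rw [e4]
  refine (norm_sub_le _ _).trans ?_
  linarith

/-- **the model is nearly Gaussian** -/
theorem cf_model_gauss (P : Finset ℕ) (hP : ∀ p ∈ P, p.Prime) (ξ : ℕ → ℕ → ℝ)
    (pf : ∀ p ∈ P, ∀ a, ξ p (a + p ^ 2) = ξ p a) {c : ℝ} (hc : ∀ p a, |ξ p a| ≤ c) (hc1 : c ≤ 1)
    (h0 : ∀ p ∈ P, av (p ^ 2) (ξ p) = 0) :
    ‖cf (MM P) (fun a => ∑ p ∈ P, ξ p a) -
      ((Real.exp (-((∑ p ∈ P, av (p ^ 2) (fun a => ξ p a ^ 2)) / 2)) : ℝ) : ℂ)‖ ≤
      2 * c * ∑ p ∈ P, av (p ^ 2) (fun a => ξ p a ^ 2) := by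
  rw [cf_model P hP ξ pf]
  have e1 : ((Real.exp (-((∑ p ∈ P, av (p ^ 2) (fun a => ξ p a ^ 2)) / 2)) : ℝ) : ℂ) =
      ∏ p ∈ P, ((Real.exp (-(av (p ^ 2) (fun a => ξ p a ^ 2) / 2)) : ℝ) : ℂ) := by
    rw [← Complex.ofReal_prod, ← Real.exp_sum, sum_neg_distrib, sum_div]
  rw [e1, mul_sum]
  refine (prod_close P _ _ (fun p hp => norm_cf_le (pow_pos (hP p hp).pos 2) _) ?_).trans ?_
  · intro p hp
    rw [Complex.norm_real, Real.norm_eq_abs, abs_of_pos (Real.exp_pos _), Real.exp_le_one_iff]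
    have : 0 ≤ av (p ^ 2) (fun a => ξ p a ^ 2) := av_nonneg fun a => sq_nonneg _
    linarith
  · exact sum_le_sum fun p hp => cf_one_factor (pow_pos (hP p hp).pos 2) (ξ p) (hc p) hc1 (h0 p hp)

/-- exponential moments of the model -/
theorem exp_model_le (P : Finset ℕ) (hP : ∀ p ∈ P, p.Prime) (ξ : ℕ → ℕ → ℝ)
    (pf : ∀ p ∈ P, ∀ a, ξ p (a + p ^ 2) = ξ p a) {c : ℝ} (hc : ∀ p a, |ξ p a| ≤ c) {s : ℝ}
    (hc1 : |s| * c ≤ 1) (h0 : ∀ p ∈ P, av (p ^ 2) (ξ p) = 0) :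
    av (MM P) (fun a => Real.exp (s * ∑ p ∈ P, ξ p a)) ≤
      Real.exp (s ^ 2 * ∑ p ∈ P, av (p ^ 2) (fun a => ξ p a ^ 2)) := by
  rw [exp_model P hP ξ pf, mul_sum, Real.exp_sum]
  apply Finset.prod_le_prod
  · intro p _
    exact av_nonneg fun a => (Real.exp_pos _).le
  · intro p hp
    have hN : 0 < p ^ 2 := pow_pos (hP p hp).pos 2
    have h1 : av (p ^ 2) (fun a => Real.exp (s * ξ p a)) ≤
        av (p ^ 2) (fun a => (1 + s * ξ p a) + s ^ 2 * ξ p a ^ 2) := by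
      apply av_mono
      intro a
      have h2 : |s * ξ p a| ≤ 1 := by
        rw [abs_mul]
        exact (mul_le_mul_of_nonneg_left (hc p a) (abs_nonneg _)).trans hc1
      have h3 := (abs_le.1 (Real.abs_exp_sub_one_sub_id_le h2)).2
      nlinarith
    rw [av_add, av_add, av_const hN, av_mul_left, av_mul_left, h0 p hp, mul_zero, add_zero] at h1
    refine h1.trans ?_
    have := Real.add_one_le_exp (s ^ 2 * av (p ^ 2) (fun a => ξ p a ^ 2))
    linarith

end Pool.Agent.W2helper64.WJ
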