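import Pool.Agent.W2helper64.WJ.Loc2
import Pool.Agent.W2helper64.WJ.Tr
import Pool.Agent.Helper92K9.WI.Var

set_option autoImplicit false

/-!
# The variance, the tail, and the characteristic function
-/

namespace Pool.Agent.W2helper64.WJ

open Finset Filter Pool.Agent.Helper92K9.WI
open scoped Classical Topology

/-- the indicator -/
noncomputable def iw (β γ : ℤ) (p a : ℕ) : ℝ := if WW β γ p (a : ℤ) then 1 else 0

lemma iw_nonneg (β γ : ℤ) (p a : ℕ) : 0 ≤ iw β γ p a := by unfold iw; split_ifs <;> norm_num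
lemma iw_le (β γ : ℤ) (p a : ℕ) : iw β γ p a ≤ 1 := by unfold iw; split_ifs <;> norm_num

lemma iw_sq (β γ : ℤ) (p a : ℕ) : iw β γ p a * iw β γ p a = iw β γ p a := by
  unfold iw; split_ifs <;> norm_num

lemma iw_per (β γ : ℤ) {p : ℕ} (hp2 : p ≠ 2) (a : ℕ) : iw β γ p (a + p ^ 2) = iw β γ p a := by
  unfold iw
  have := WW_perN β γ hp2 a
  simp only [this]

lemma gg_nn (p : ℕ) : 0 ≤ gg p := by
  rcases Nat.eq_zero_or_pos p with h | h
  · subst h; unfold gg; simp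
  · exact gg_nonneg h

lemma gg_le_inv (p : ℕ) : gg p ≤ 1 / p := by
  rcases Nat.eq_zero_or_pos p with h | h
  · subst h; unfold gg; simp
  · unfold gg
    have : (0 : ℝ) < p := by exact_mod_cast h
    rw [div_le_div_iff₀ (by positivity) this]
    nlinarith

lemma gg_le_one (p : ℕ) : gg p ≤ 1 := by
  refine (gg_le_inv p).trans ?_
  rcases Nat.eq_zero_or_pos p with h | h
  · subst h; simp
  · have : (1 : ℝ) ≤ p := by exact_mod_cast h
    rw [div_le_one (by linarith)]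
    exact this

lemma sum_shift_one (f : ℕ → ℝ) {N : ℕ} (per : ∀ a, f (a + N) = f a) :
    ∑ i ∈ range N, f (i + 1) = ∑ i ∈ range N, f i := by
  have h1 := sum_range_succ' f N
  have h2 := sum_range_succ f N
  have h3 := per 0
  rw [zero_add] at h3
  linarith

lemma av_iw (β γ : ℤ) {p : ℕ} (hp : p.Prime) (hp2 : p ≠ 2) : av (p ^ 2) (iw β γ p) = gg p := by
  unfold av
  rw [sum_shift_one _ (iw_per β γ hp2)]
  unfold iw
  rw [sum_boole, card_WW β γ hp hp2, Nat.cast_sub hp.one_le]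
  unfold gg
  push_cast
  rfl

lemma av_iw_mul (β γ β' γ' : ℤ) {p : ℕ} (hp2 : p ≠ 2) :
    av (p ^ 2) (fun a => iw β γ p a * iw β' γ' p a) =
      (((range (p ^ 2)).filter (fun a : ℕ => WW β γ p (a : ℤ) ∧ WW β' γ' p (a : ℤ))).card : ℝ) /
        (p : ℝ) ^ 2 := by
  unfold av
  rw [sum_shift_one (fun a => iw β γ p a * iw β' γ' p a)
    (fun a => by rw [iw_per β γ hp2, iw_per β' γ' hp2])]
  push_cast
  congr 1
  rw [← sum_boole]
  apply sum_congr rfl
  intro a _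
  unfold iw
  by_cases h1 : WW β γ p (a : ℤ) <;> by_cases h2 : WW β' γ' p (a : ℤ) <;> simp [h1, h2]

lemma rpow_aux {p : ℕ} (hp : 1 ≤ p) : (p : ℝ) ^ ((2 : ℝ) / 3) / (p : ℝ) ^ 2 = (p : ℝ) ^ (-(4 : ℝ) / 3) := by
  have h0 : (0 : ℝ) < p := by exact_mod_cast hp
  rw [← Real.rpow_natCast, ← Real.rpow_sub h0]
  norm_num

lemma rpow_aux2 {p : ℕ} (hp : 1 ≤ p) : 1 / (p : ℝ) ^ 2 ≤ (p : ℝ) ^ (-(4 : ℝ) / 3) := by
  rw [← rpow_aux hp]
  have h1 : (1 : ℝ) ≤ p := by exact_mod_cast hp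
  apply div_le_div_of_nonneg_right _ (by positivity)
  exact Real.one_le_rpow h1 (by norm_num)

section main
variable {ι : Type*} [Fintype ι] [DecidableEq ι]

/-- the local variable -/
noncomputable def uu (β γ : ι → ℤ) (t : ι → ℝ) (p a : ℕ) : ℝ :=
  ∑ j, t j * (iw (β j) (γ j) p a - gg p)

lemma uu_abs (β γ : ι → ℤ) (t : ι → ℝ) (p a : ℕ) : |uu β γ t p a| ≤ ∑ j, |t j| := by
  unfold uu
  refine (abs_sum_le_sum_abs _ _).trans (sum_le_sum fun j _ => ?_)
  rw [abs_mul]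
  apply mul_le_of_le_one_right (abs_nonneg _)
  rw [abs_le]
  have h1 := iw_nonneg (β j) (γ j) p a
  have h2 := iw_le (β j) (γ j) p a
  have h3 := gg_nn p
  have h4 := gg_le_one p
  constructor <;> linarith

lemma uu_per (β γ : ι → ℤ) (t : ι → ℝ) {p : ℕ} (hp2 : p ≠ 2) (a : ℕ) :
    uu β γ t p (a + p ^ 2) = uu β γ t p a := by
  unfold uu
  apply sum_congr rfl
  intro j _
  rw [iw_per _ _ hp2]

lemma uu_mean (β γ : ι → ℤ) (t : ι → ℝ) {p : ℕ} (hp : p.Prime) (hp2 : p ≠ 2) :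
    av (p ^ 2) (uu β γ t p) = 0 := by
  have hN : 0 < p ^ 2 := pow_pos hp.pos 2
  have e1 : uu β γ t p = fun a => ∑ j, t j * (iw (β j) (γ j) p a - gg p) := rfl
  rw [e1, av_sum]
  apply sum_eq_zero
  intro j _
  rw [av_mul_left, av_sub, av_const hN]
  have : av (p ^ 2) (fun a => iw (β j) (γ j) p a) = gg p := av_iw (β j) (γ j) hp hp2
  rw [this]
  ring

/-- all pairs at once -/
lemma pair_all (β γ : ι → ℤ) (h : ∀ i j, i ≠ j → Ineq (β i) (γ i) (β j) (γ j)) :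
    ∃ C : ℝ, 0 ≤ C ∧ ∀ i j, i ≠ j → ∀ p : ℕ, p.Prime → p ≠ 2 →
      av (p ^ 2) (fun a => iw (β i) (γ i) p a * iw (β j) (γ j) p a) ≤
        C * (p : ℝ) ^ (-(4 : ℝ) / 3) := by
  have h1 : ∀ i j, ∃ C : ℝ, 0 ≤ C ∧ (i ≠ j → ∀ p : ℕ, p.Prime → p ≠ 2 →
      av (p ^ 2) (fun a => iw (β i) (γ i) p a * iw (β j) (γ j) p a) ≤
        C * (p : ℝ) ^ (-(4 : ℝ) / 3)) := by
    intro i j
    by_cases hij : i = j
    · exact ⟨0, le_rfl, fun h => absurd hij h⟩
    · obtain ⟨C, hC0, hC⟩ := pair_bound (h i j hij)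
      refine ⟨C, hC0, fun _ p hp hp2 => ?_⟩
      rw [av_iw_mul _ _ _ _ hp2, ← rpow_aux hp.one_le, ← mul_div_assoc]
      exact div_le_div_of_nonneg_right (hC p hp hp2) (by positivity)
  choose C hC0 hC using h1
  refine ⟨∑ i, ∑ j, C i j, sum_nonneg fun i _ => sum_nonneg fun j _ => hC0 i j, ?_⟩
  intro i j hij p hp hp2
  refine (hC i j hij p hp hp2).trans ?_
  apply mul_le_mul_of_nonneg_right _ (by positivity)
  calc C i j ≤ ∑ j, C i j := single_le_sum (f := fun j => C i j) (fun j _ => hC0 i j) (mem_univ j)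
    _ ≤ _ := single_le_sum (f := fun i => ∑ j, C i j)
        (fun i _ => sum_nonneg fun j _ => hC0 i j) (mem_univ i)

/-- **the local variance** -/
lemma var_local (β γ : ι → ℤ) (t : ι → ℝ) {C : ℝ} (hC0 : 0 ≤ C)
    (hC : ∀ i j, i ≠ j → ∀ p : ℕ, p.Prime → p ≠ 2 →
      av (p ^ 2) (fun a => iw (β i) (γ i) p a * iw (β j) (γ j) p a) ≤
        C * (p : ℝ) ^ (-(4 : ℝ) / 3)) {p : ℕ} (hp : p.Prime) (hp2 : p ≠ 2) :
    |av (p ^ 2) (fun a => uu β γ t p a ^ 2) - (∑ j, t j ^ 2) * gg p| ≤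
      (∑ j, |t j|) ^ 2 * (1 + C) * (p : ℝ) ^ (-(4 : ℝ) / 3) := by
  have hN : 0 < p ^ 2 := pow_pos hp.pos 2
  set R : ℝ := (p : ℝ) ^ (-(4 : ℝ) / 3) with hR
  have hR0 : 0 ≤ R := by positivity
  have hg2 : gg p ^ 2 ≤ R := by
    refine le_trans ?_ (rpow_aux2 hp.one_le)
    rw [← one_div_pow]
    exact pow_le_pow_left₀ (gg_nn p) (gg_le_inv p) 2
  have hg20 : 0 ≤ gg p ^ 2 := sq_nonneg _
  set κ : ι → ι → ℝ := fun i j => av (p ^ 2) (fun a => iw (β i) (γ i) p a * iw (β j) (γ j) p a) with hκ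
  have hκ0 : ∀ i j, 0 ≤ κ i j := fun i j => av_nonneg fun a => mul_nonneg (iw_nonneg _ _ _ _) (iw_nonneg _ _ _ _)
  have e1 : av (p ^ 2) (fun a => uu β γ t p a ^ 2) = ∑ i, ∑ j, t i * t j * (κ i j - gg p ^ 2) := by
    have h1 : (fun a => uu β γ t p a ^ 2) = fun a => ∑ i, ∑ j, t i * t j *
        (iw (β i) (γ i) p a * iw (β j) (γ j) p a - gg p * iw (β i) (γ i) p a -
          gg p * iw (β j) (γ j) p a + gg p ^ 2) := by
      funext a
      unfold uu
      rw [pow_two, sum_mul_sum]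
      apply sum_congr rfl
      intro i _
      apply sum_congr rfl
      intro j _
      ring
    rw [h1, av_sum]
    apply sum_congr rfl
    intro i _
    rw [av_sum]
    apply sum_congr rfl
    intro j _
    rw [av_mul_left, av_add, av_sub, av_sub, av_mul_left, av_mul_left, av_const hN]
    have a1 : av (p ^ 2) (fun a => iw (β i) (γ i) p a) = gg p := av_iw _ _ hp hp2
    have a2 : av (p ^ 2) (fun a => iw (β j) (γ j) p a) = gg p := av_iw _ _ hp hp2
    rw [a1, a2]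
    ring
  have e2 : (∑ j, t j ^ 2) * gg p = ∑ i, ∑ j, t i * t j * (if i = j then gg p else 0) := by
    rw [sum_mul]
    apply sum_congr rfl
    intro i _
    simp only [mul_ite, mul_zero]
    rw [sum_ite_eq, if_pos (mem_univ i)]
    ring
  have e3 : (∑ j, |t j|) ^ 2 * (1 + C) * R = ∑ i, ∑ j, |t i| * |t j| * ((1 + C) * R) := by
    rw [pow_two, sum_mul_sum, mul_assoc, sum_mul]
    apply sum_congr rfl
    intro i _
    rw [sum_mul]
  rw [e1, e2, e3, ← sum_sub_distrib]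
  refine (abs_sum_le_sum_abs _ _).trans (sum_le_sum fun i _ => ?_)
  rw [← sum_sub_distrib]
  refine (abs_sum_le_sum_abs _ _).trans (sum_le_sum fun j _ => ?_)
  rw [← mul_sub, abs_mul, abs_mul]
  apply mul_le_mul_of_nonneg_left _ (by positivity)
  have hCR : 0 ≤ C * R := mul_nonneg hC0 hR0
  by_cases hij : i = j
  · subst hij
    rw [if_pos rfl]
    have : κ i i = gg p := by
      rw [hκ]
      simp only [iw_sq]
      exact av_iw _ _ hp hp2
    rw [this, abs_le]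
    constructor <;> nlinarith
  · rw [if_neg hij, sub_zero]
    have h1 := hC i j hij p hp hp2
    have h2 := hκ0 i j
    have h3 : κ i j ≤ C * R := h1
    rw [abs_le]
    constructor <;> nlinarith

lemma summable_43 : Summable (fun n : ℕ => (n : ℝ) ^ (-(4 : ℝ) / 3)) := by
  rw [Real.summable_nat_rpow]
  norm_num

/-- **the variance** -/
lemma var_sum (β γ : ι → ℤ) (h : ∀ i j, i ≠ j → Ineq (β i) (γ i) (β j) (γ j)) (t : ι → ℝ) :
    ∃ A : ℝ, 0 ≤ A ∧ ∀ z : ℕ,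
      |∑ p ∈ Od z, av (p ^ 2) (fun a => uu β γ t p a ^ 2) - (∑ j, t j ^ 2) * lam z| ≤ A := by
  obtain ⟨C, hC0, hC⟩ := pair_all β γ h
  set S0 := ∑' n : ℕ, (n : ℝ) ^ (-(4 : ℝ) / 3) with hS0
  have hS00 : 0 ≤ S0 := tsum_nonneg fun n => by positivity
  refine ⟨(∑ j, |t j|) ^ 2 * (1 + C) * S0, by positivity, fun z => ?_⟩
  unfold lam
  rw [mul_sum, ← sum_sub_distrib]
  refine (abs_sum_le_sum_abs _ _).trans ?_
  refine (sum_le_sum fun p hp => var_local β γ t hC0 hC (mem_Od.1 hp).2.1 (mem_Od.1 hp).2.2).trans ?_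
  rw [← mul_sum]
  apply mul_le_mul_of_nonneg_left _ (by positivity)
  exact summable_43.sum_le_tsum _ fun n _ => by positivity

end main

end Pool.Agent.W2helper64.WJ
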