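import Pool.Agent.W2helper64.WJ.Tr

set_option autoImplicit false

/-!
# From characteristic functions to distribution functions
-/

namespace Pool.Agent.W2helper64.WJ

open Finset Filter MeasureTheory ProbabilityTheory
open scoped Classical Topology RealInnerProductSpace ENNReal

variable {r : ℕ}

/-- the law of `Z a`, `1 ≤ a ≤ X` -/
noncomputable def law (X : ℕ) (Z : ℕ → (Fin r → ℝ)) : Measure (EuclideanSpace ℝ (Fin r)) :=
  (X : ℝ≥0∞)⁻¹ • ∑ i ∈ range X, Measure.dirac (WithLp.toLp 2 (Z (i + 1)))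

lemma law_apply (X : ℕ) (Z : ℕ → (Fin r → ℝ)) {s : Set (EuclideanSpace ℝ (Fin r))}
    (hs : MeasurableSet s) : law X Z s =
      (X : ℝ≥0∞)⁻¹ * ((range X).filter (fun i => WithLp.toLp 2 (Z (i + 1)) ∈ s)).card := by
  unfold law
  rw [Measure.smul_apply, Measure.finsetSum_apply, smul_eq_mul]
  congr 1
  have : ∀ i ∈ range X, (Measure.dirac (WithLp.toLp 2 (Z (i + 1)))) s =
      if WithLp.toLp 2 (Z (i + 1)) ∈ s then (1 : ℝ≥0∞) else 0 := by
    intro i _
    rw [Measure.dirac_apply' _ hs, Set.indicator_apply]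
    rfl
  rw [sum_congr rfl this, sum_boole]

lemma law_prob {X : ℕ} (hX : 0 < X) (Z : ℕ → (Fin r → ℝ)) : IsProbabilityMeasure (law X Z) := by
  constructor
  rw [law_apply X Z MeasurableSet.univ]
  simp only [Set.mem_univ, filter_true, card_range]
  apply ENNReal.inv_mul_cancel
  · exact_mod_cast hX.ne'
  · exact ENNReal.natCast_ne_top X

lemma law_charFun {X : ℕ} (hX : 0 < X) (Z : ℕ → (Fin r → ℝ)) (t : Fin r → ℝ) :
    charFun (law X Z) (WithLp.toLp 2 t) = cf X (fun a => ∑ j, t j * Z a j) := by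
  rw [charFun_apply]
  unfold law
  rw [integral_smul_measure, integral_finsetSum_measure]
  · unfold cf av
    have h1 : ∀ i ∈ range X, ∫ x, Complex.exp (⟪x, WithLp.toLp 2 t⟫ * Complex.I)
        ∂(Measure.dirac (WithLp.toLp 2 (Z (i + 1)))) =
        Complex.exp (((∑ j, t j * Z (i + 1) j : ℝ) : ℂ) * Complex.I) := by
      intro i _
      rw [integral_dirac, EuclideanSpace.inner_eq_star_dotProduct]
      simp [dotProduct]
    rw [sum_congr rfl h1]
    rw [ENNReal.toReal_inv, ENNReal.toReal_natCast]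
    rw [Complex.real_smul]
    push_cast
    rw [div_eq_inv_mul]
  · intro i _
    exact integrable_dirac (by simp)

/-- **Lévy's theorem and the portmanteau theorem for averages** -/
theorem law_tendsto (X : ℕ → ℕ) (hX : ∀ n, 0 < X n) (Z : ℕ → ℕ → (Fin r → ℝ))
    (μ : Measure (EuclideanSpace ℝ (Fin r))) [hμ : IsProbabilityMeasure μ]
    (h : ∀ t : Fin r → ℝ, Tendsto (fun n => cf (X n) (fun a => ∑ j, t j * Z n a j)) atTop
      (𝓝 (charFun μ (WithLp.toLp 2 t)))) (s : Set (EuclideanSpace ℝ (Fin r)))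
    (hs : MeasurableSet s) (hf : μ (frontier s) = 0) :
    Tendsto (fun n => (((Icc 1 (X n)).filter (fun a => WithLp.toLp 2 (Z n a) ∈ s)).card : ℝ) / X n)
      atTop (𝓝 (μ s).toReal) := by
  set μs : ℕ → ProbabilityMeasure (EuclideanSpace ℝ (Fin r)) :=
    fun n => ⟨law (X n) (Z n), law_prob (hX n) (Z n)⟩ with hμs
  set μ0 : ProbabilityMeasure (EuclideanSpace ℝ (Fin r)) := ⟨μ, hμ⟩ with hμ0
  have h1 : Tendsto μs atTop (𝓝 μ0) := by
    rw [ProbabilityMeasure.tendsto_iff_tendsto_charFun]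
    intro t
    obtain ⟨t', rfl⟩ : ∃ t' : Fin r → ℝ, t = WithLp.toLp 2 t' := ⟨WithLp.ofLp t, rfl⟩
    refine (h t').congr fun n => ?_
    exact (law_charFun (hX n) (Z n) t').symm
  have h2 := ProbabilityMeasure.tendsto_measure_of_null_frontier_of_tendsto' h1 hf
  have h3 := (ENNReal.tendsto_toReal (measure_ne_top μ s)).comp h2
  refine h3.congr fun n => ?_
  simp only [Function.comp, hμs, ProbabilityMeasure.coe_mk]
  rw [law_apply _ _ hs, ENNReal.toReal_mul, ENNReal.toReal_inv, ENNReal.toReal_natCast,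
    ENNReal.toReal_natCast, inv_mul_eq_div]
  congr 2
  refine card_bij (fun i _ => i + 1) ?_ ?_ ?_
  · intro i hi
    rw [mem_filter, mem_range] at hi
    rw [mem_filter, mem_Icc]
    exact ⟨by omega, hi.2⟩
  · intro i _ j _ hij
    omega
  · intro a ha
    rw [mem_filter, mem_Icc] at ha
    refine ⟨a - 1, ?_, by omega⟩
    rw [mem_filter, mem_range]
    have : a - 1 + 1 = a := by omega
    rw [this]
    exact ⟨by omega, ha.2⟩

/-- the orthant -/
def orth (z : Fin r → ℝ) : Set (EuclideanSpace ℝ (Fin r)) := {x | ∀ j, x j ≤ z j}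

lemma orth_closed (z : Fin r → ℝ) : IsClosed (orth z) := by
  have : orth z = ⋂ j, {x : EuclideanSpace ℝ (Fin r) | x j ≤ z j} := by
    ext x; simp [orth]
  rw [this]
  exact isClosed_iInter fun j => isClosed_le (by fun_prop) continuous_const

lemma orth_frontier (z : Fin r → ℝ) :
    frontier (orth z) ⊆ ⋃ j, {x : EuclideanSpace ℝ (Fin r) | x j = z j} := by
  intro x hx
  rw [(orth_closed z).frontier_eq] at hx
  have hopen : IsOpen {x : EuclideanSpace ℝ (Fin r) | ∀ j, x j < z j} := by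
    have : {x : EuclideanSpace ℝ (Fin r) | ∀ j, x j < z j} =
        ⋂ j, {x : EuclideanSpace ℝ (Fin r) | x j < z j} := by
      ext x; simp
    rw [this]
    exact isOpen_iInter_of_finite fun j => isOpen_lt (by fun_prop) continuous_const
  have hsub : {x : EuclideanSpace ℝ (Fin r) | ∀ j, x j < z j} ⊆ interior (orth z) :=
    interior_maximal (fun y hy j => (hy j).le) hopen
  have h1 : x ∉ {x : EuclideanSpace ℝ (Fin r) | ∀ j, x j < z j} := fun h => hx.2 (hsub h)
  simp only [Set.mem_setOf_eq, not_forall, not_lt] at h1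
  obtain ⟨j, hj⟩ := h1
  rw [Set.mem_iUnion]
  exact ⟨j, le_antisymm (hx.1 j) hj⟩

lemma toLp_meas : Measurable (WithLp.toLp 2 : (Fin r → ℝ) → EuclideanSpace ℝ (Fin r)) := by
  fun_prop

lemma gauss_frontier (z : Fin r → ℝ) :
    (stdGaussian (EuclideanSpace ℝ (Fin r))) (frontier (orth z)) = 0 := by
  refine measure_mono_null (orth_frontier z) ?_
  rw [measure_iUnion_null_iff]
  intro j
  rw [← map_pi_eq_stdGaussian]
  have hm : MeasurableSet {x : EuclideanSpace ℝ (Fin r) | x j = z j} := by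
    have : IsClosed {x : EuclideanSpace ℝ (Fin r) | x j = z j} :=
      isClosed_eq (by fun_prop) continuous_const
    exact this.measurableSet
  rw [Measure.map_apply toLp_meas hm]
  have : (WithLp.toLp 2 : (Fin r → ℝ) → EuclideanSpace ℝ (Fin r)) ⁻¹'
      {x : EuclideanSpace ℝ (Fin r) | x j = z j} = {f : Fin r → ℝ | f j = z j} := rfl
  rw [this]
  have : NullSingletonClass (gaussianReal 0 1) := nullSingletonClass_gaussianReal (by norm_num)
  exact Measure.pi_hyperplane (fun _ : Fin r => gaussianReal 0 1) j (z j)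

lemma gauss_orth (z : Fin r → ℝ) : ((stdGaussian (EuclideanSpace ℝ (Fin r))) (orth z)).toReal =
    ∏ j, ((gaussianReal 0 1) (Set.Iic (z j))).toReal := by
  rw [← map_pi_eq_stdGaussian, Measure.map_apply toLp_meas (orth_closed z).measurableSet]
  have : (WithLp.toLp 2 : (Fin r → ℝ) → EuclideanSpace ℝ (Fin r)) ⁻¹' (orth z) =
      Set.pi Set.univ (fun j => Set.Iic (z j)) := by
    ext x
    simp only [orth, Set.mem_preimage, Set.mem_setOf_eq, Set.mem_pi, Set.mem_univ, Set.mem_Iic,
      forall_true_left]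
  rw [this, Measure.pi_pi, ENNReal.toReal_prod]

end Pool.Agent.W2helper64.WJ
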