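import Pool.Agent.W2helper64.WJ.Cf
import Pool.Agent.W2helper64.WJ.Lw

set_option autoImplicit false

/-!
# The joint Gaussian law
-/

namespace Pool.Agent.W2helper64.WJ

open Finset Filter Pool.Agent.Helper92K9.WI MeasureTheory ProbabilityTheory
open scoped Classical Topology

section
variable {ι : Type*} [Fintype ι] [DecidableEq ι]

lemma small_tendsto : Tendsto (fun L : ℝ => (1 + Real.log L) / √L) atTop (𝓝 0) := by
  have h1 : Tendsto (fun L : ℝ => 1 / √L) atTop (𝓝 0) :=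
    tendsto_const_nhds.div_atTop (Real.tendsto_sqrt_atTop)
  have h2 : Tendsto (fun L : ℝ => Real.log L / √L) atTop (𝓝 0) := by
    have := (isLittleO_log_rpow_atTop (show (0 : ℝ) < 1 / 2 by norm_num)).tendsto_div_nhds_zero
    refine this.congr fun L => ?_
    rw [Real.sqrt_eq_rpow]
  have h3 := h1.add h2
  rw [add_zero] at h3
  refine h3.congr fun L => ?_
  ring

theorem cf_limit (β γ : ι → ℤ) (h : ∀ i j, i ≠ j → Ineq (β i) (γ i) (β j) (γ j)) (t : ι → ℝ)
    (y X : ℕ → ℕ) (hy : Tendsto y atTop atTop) (hX : ∀ᶠ n in atTop, y n ^ 2 ≤ X n) :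
    Tendsto (fun n => cf (X n) (ZZ β γ t (y n))) atTop
      (𝓝 ((Real.exp (-((∑ j, t j ^ 2) / 2)) : ℝ) : ℂ)) := by
  obtain ⟨A, hA0, hA⟩ := cf_bound β γ h t
  rw [Metric.tendsto_nhds]
  intro ε hε
  obtain ⟨k, hk⟩ : ∃ k : ℕ, A * (1 / 2 : ℝ) ^ k < ε / 4 := by
    have h1 : Tendsto (fun k : ℕ => A * (1 / 2 : ℝ) ^ k) atTop (𝓝 (A * 0)) :=
      (tendsto_pow_atTop_nhds_zero_of_lt_one (by norm_num) (by norm_num)).const_mul A
    rw [mul_zero] at h1
    exact (h1.eventually_lt_const (by linarith : (0 : ℝ) < ε / 4)).exists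
  set K := 2 * k with hKdef
  have hK : Even K := even_two_mul k
  have hK2 : A * (1 / 2 : ℝ) ^ K < ε / 4 := by
    refine lt_of_le_of_lt ?_ hk
    apply mul_le_mul_of_nonneg_left _ hA0
    apply pow_le_pow_of_le_one (by norm_num) (by norm_num)
    omega
  have hl : Tendsto (fun n => l2 (y n)) atTop atTop := l2_tendsto.comp hy
  have e1 : ∀ᶠ n in atTop, A * ((1 + Real.log (l2 (y n))) / √(l2 (y n))) < ε / 4 := by
    have h1 := ((small_tendsto.comp hl).const_mul A)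
    rw [mul_zero] at h1
    exact h1.eventually_lt_const (by linarith)
  have hyr : Tendsto (fun n => ((y n : ℕ) : ℝ)) atTop atTop := tendsto_natCast_atTop_atTop.comp hy
  have e2 : ∀ᶠ n in atTop, A ^ K * (2 * ((K : ℝ) + 1)) / (y n : ℝ) < ε / 4 := by
    have h1 : Tendsto (fun n => A ^ K * (2 * ((K : ℝ) + 1)) / (y n : ℝ)) atTop (𝓝 0) :=
      tendsto_const_nhds.div_atTop hyr
    exact h1.eventually_lt_const (by linarith)
  filter_upwards [e1, e2, hl.eventually_ge_atTop A, hl.eventually_ge_atTop (3 * (K : ℝ)),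
    hy.eventually_ge_atTop 3, hX] with n h1 h2 h3 h4 h5 h6
  rw [dist_eq_norm]
  have := hA K (y n) (X n) hK h5 h3 h4 h6
  refine lt_of_le_of_lt this ?_
  rw [mul_add]
  linarith

end

/-- the normalised counts -/
noncomputable def nc {r : ℕ} (β γ : Fin r → ℤ) (y a : ℕ) : Fin r → ℝ :=
  fun j => ((cnt (β j) (γ j) y a : ℝ) - l2 y) / √(l2 y)

/-- **the joint Gaussian law** -/
theorem gauss_law {r : ℕ} (β γ : Fin r → ℤ)
    (h : ∀ i j, i ≠ j → Ineq (β i) (γ i) (β j) (γ j)) (y X : ℕ → ℕ) (hy : Tendsto y atTop atTop)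
    (hX : ∀ n, y n ^ 2 ≤ X n) (s : Set (EuclideanSpace ℝ (Fin r))) (hs : MeasurableSet s)
    (hf : stdGaussian (EuclideanSpace ℝ (Fin r)) (frontier s) = 0) :
    Tendsto (fun n => (((Icc 1 (X n)).filter
      (fun a => WithLp.toLp 2 (nc β γ (y n) a) ∈ s)).card : ℝ) / X n) atTop
      (𝓝 ((stdGaussian (EuclideanSpace ℝ (Fin r))) s).toReal) := by
  have key := law_tendsto (r := r) (fun n => max (X n) 1) (fun n => by
      exact lt_of_lt_of_le one_pos (le_max_right _ _)) (fun n => nc β γ (y n))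
    (stdGaussian (EuclideanSpace ℝ (Fin r))) (fun t => by
      have h1 := cf_limit β γ h t y (fun n => max (X n) 1) hy
        (Eventually.of_forall fun n => (hX n).trans (le_max_left _ _))
      rw [charFun_stdGaussian]
      have e : ((Real.exp (-((∑ j, t j ^ 2) / 2)) : ℝ) : ℂ) =
          Complex.exp (-((‖(WithLp.toLp 2 t : EuclideanSpace ℝ (Fin r))‖ : ℝ) : ℂ) ^ 2 / 2) := by
        rw [← Complex.ofReal_pow, EuclideanSpace.real_norm_sq_eq]
        push_cast
        congr 1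
        ring
      rw [e] at h1
      exact h1) s hs hf
  refine key.congr' ?_
  filter_upwards [hy.eventually_ge_atTop 1] with n hn
  have h1 : 1 ≤ X n := (Nat.one_le_pow _ _ (by omega)).trans (hX n)
  rw [max_eq_left h1]

/-- the joint distribution function -/
theorem gauss_df {r : ℕ} (β γ : Fin r → ℤ)
    (h : ∀ i j, i ≠ j → Ineq (β i) (γ i) (β j) (γ j)) (y X : ℕ → ℕ) (hy : Tendsto y atTop atTop)
    (hX : ∀ n, y n ^ 2 ≤ X n) (z : Fin r → ℝ) :
    Tendsto (fun n => (((Icc 1 (X n)).filter (fun a => ∀ j, nc β γ (y n) a j ≤ z j)).card : ℝ) /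
      X n) atTop (𝓝 (∏ j, ((gaussianReal 0 1) (Set.Iic (z j))).toReal)) := by
  have := gauss_law β γ h y X hy hX (orth z) (orth_closed z).measurableSet (gauss_frontier z)
  rw [gauss_orth] at this
  refine this.congr fun n => ?_
  have e : ((Icc 1 (X n)).filter (fun a => WithLp.toLp 2 (nc β γ (y n) a) ∈ orth z)) =
      ((Icc 1 (X n)).filter (fun a => ∀ j, nc β γ (y n) a j ≤ z j)) := by
    ext a
    simp only [mem_filter]
    rfl
  rw [e]

/-- **coincidences are rare** -/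
theorem coincidences {β γ β' γ' : ℤ} (h : Ineq β γ β' γ') :
    ∃ C : ℝ, 0 < C ∧ ∀ X y : ℕ, y ^ 2 ≤ X →
      ∑ a ∈ Icc 1 X, ((((Icc 1 y).filter (fun p => WW β γ p (a : ℤ) ∧ WW β' γ' p (a : ℤ))).card : ℕ) : ℝ) ≤
        C * X := by
  obtain ⟨C, hC0, hC⟩ := pair_bound h
  set S0 := ∑' n : ℕ, (n : ℝ) ^ (-(4 : ℝ) / 3) with hS0
  have hS00 : 0 ≤ S0 := tsum_nonneg fun n => by positivity
  refine ⟨C * S0 + C + 1, by positivity, fun X y hX => ?_⟩
  have hX' : (y : ℝ) ^ 2 ≤ X := by exact_mod_cast hX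
  have hX0 : (0 : ℝ) ≤ X := Nat.cast_nonneg X
  -- exchange
  have e1 : ∑ a ∈ Icc 1 X, ((((Icc 1 y).filter
      (fun p => WW β γ p (a : ℤ) ∧ WW β' γ' p (a : ℤ))).card : ℕ) : ℝ) =
      ∑ p ∈ Icc 1 y, (((Icc 1 X).filter
        (fun a : ℕ => WW β γ p (a : ℤ) ∧ WW β' γ' p (a : ℤ))).card : ℝ) := by
    simp only [← sum_boole]
    rw [sum_comm]
  rw [e1]
  have hodd : ∀ p : ℕ, p.Prime → p ≠ 2 → (((Icc 1 X).filter
      (fun a : ℕ => WW β γ p (a : ℤ) ∧ WW β' γ' p (a : ℤ))).card : ℝ) ≤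
      C * (p : ℝ) ^ (-(4 : ℝ) / 3) * X + C * p := by
    intro p hp hp2
    have hcb := count_bound (fun a : ℕ => WW β γ p (a : ℤ) ∧ WW β' γ' p (a : ℤ)) (M := p ^ 2)
      (pow_pos hp.pos 2) (fun a => by rw [WW_perN β γ hp2, WW_perN β' γ' hp2]) rfl X
    have h1 := (abs_le.1 hcb).2
    have h2 := hC p hp hp2
    set κ : ℝ := (((range (p ^ 2)).filter (fun a : ℕ => WW β γ p (a : ℤ) ∧ WW β' γ' p (a : ℤ))).card : ℝ)
      with hκ
    have hp0 : (0 : ℝ) < p := by exact_mod_cast hp.pos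
    have hp1 : (1 : ℝ) ≤ p := by exact_mod_cast hp.one_le
    have h3 : κ * X / ((p ^ 2 : ℕ) : ℝ) ≤ C * (p : ℝ) ^ (-(4 : ℝ) / 3) * X := by
      push_cast
      rw [mul_div_right_comm]
      apply mul_le_mul_of_nonneg_right _ hX0
      rw [← rpow_aux hp.one_le, ← mul_div_assoc]
      exact div_le_div_of_nonneg_right h2 (by positivity)
    have h4 : κ ≤ C * p := by
      refine h2.trans (mul_le_mul_of_nonneg_left ?_ hC0)
      calc (p : ℝ) ^ ((2 : ℝ) / 3) ≤ (p : ℝ) ^ (1 : ℝ) :=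
            Real.rpow_le_rpow_of_exponent_le hp1 (by norm_num)
        _ = p := Real.rpow_one _
    linarith
  have hall : ∀ p ∈ Icc 1 y, (((Icc 1 X).filter
      (fun a : ℕ => WW β γ p (a : ℤ) ∧ WW β' γ' p (a : ℤ))).card : ℝ) ≤
      C * (p : ℝ) ^ (-(4 : ℝ) / 3) * X + C * y + (if p = 2 then (X : ℝ) else 0) := by
    intro p hp
    rw [mem_Icc] at hp
    have hpy : (p : ℝ) ≤ y := by exact_mod_cast hp.2
    have a1 : 0 ≤ C * (p : ℝ) ^ (-(4 : ℝ) / 3) * X := by positivity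
    have a2 : 0 ≤ C * (y : ℝ) := by positivity
    by_cases hp2 : p = 2
    · rw [if_pos hp2]
      have : (((Icc 1 X).filter
        (fun a : ℕ => WW β γ p (a : ℤ) ∧ WW β' γ' p (a : ℤ))).card : ℝ) ≤ X := by
        have := card_filter_le (Icc 1 X) (fun a : ℕ => WW β γ p (a : ℤ) ∧ WW β' γ' p (a : ℤ))
        simp only [Nat.card_Icc, Nat.add_sub_cancel] at this
        exact_mod_cast this
      linarith
    · rw [if_neg hp2, add_zero]
      by_cases hpp : p.Prime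
      · refine (hodd p hpp hp2).trans ?_
        have := mul_le_mul_of_nonneg_left hpy hC0
        linarith
      · have : ((Icc 1 X).filter (fun a : ℕ => WW β γ p (a : ℤ) ∧ WW β' γ' p (a : ℤ))) = ∅ := by
          rw [filter_eq_empty_iff]
          intro a _ h
          exact hpp h.1.1
        rw [this]
        simp only [card_empty, Nat.cast_zero]
        linarith
  refine (sum_le_sum hall).trans ?_
  rw [sum_add_distrib, sum_add_distrib, ← sum_mul, ← mul_sum, sum_const, Nat.card_Icc,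
    Nat.add_sub_cancel, nsmul_eq_mul, sum_ite_eq']
  have b1 : ∑ p ∈ Icc 1 y, (p : ℝ) ^ (-(4 : ℝ) / 3) ≤ S0 :=
    summable_43.sum_le_tsum _ fun n _ => by positivity
  have b2 : (y : ℝ) * (C * y) ≤ C * X := by
    calc (y : ℝ) * (C * y) = C * (y : ℝ) ^ 2 := by ring
      _ ≤ _ := mul_le_mul_of_nonneg_left hX' hC0
  have b3 : (if 2 ∈ Icc 1 y then (X : ℝ) else 0) ≤ X := by
    split_ifs
    · exact le_rfl
    · exact hX0
  have b4 : C * (∑ p ∈ Icc 1 y, (p : ℝ) ^ (-(4 : ℝ) / 3)) * X ≤ C * S0 * X :=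
    mul_le_mul_of_nonneg_right (mul_le_mul_of_nonneg_left b1 hC0) hX0
  linarith

end Pool.Agent.W2helper64.WJ
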