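import Pool.Agent.Helper92K9.WI.Cnt

set_option autoImplicit false

/-!
# Wilson primes of progressions and harmonic sums modulo `p`
-/

namespace Pool.Agent.W2helper64.WJ

open Finset Pool.Agent.Helper92K9.WI
open scoped Classical

/-- the Wilson quotient of the progression, modulo `p` -/
def Fq (b a : ℤ) (p : ℕ) : ZMod p := (((wprod b a p + 1) / (p : ℤ) : ℤ) : ZMod p)

/-- the harmonic sum `1 + 1/2 + … + 1/x` modulo `p` -/
def hh (p : ℕ) (x : ZMod p) : ZMod p := ∑ i ∈ range (x.val + 1), ((i : ℕ) : ZMod p)⁻¹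

/-- the term of the product -/
noncomputable def term (b a : ℤ) (p k : ℕ) : ℤ := if ¬ (p : ℤ) ∣ b + a * k then b + a * k else 1

lemma wprod_term (b a : ℤ) (p : ℕ) : wprod b a p = ∏ k ∈ range p, term b a p k := by
  unfold wprod term
  rw [prod_filter]

lemma shift_term (b a : ℤ) (p : ℕ) :
    term b a p 0 * wprod (b + a) a p = wprod b a p * term b a p p := by
  have h1 : wprod (b + a) a p = ∏ k ∈ range p, term b a p (k + 1) := by
    rw [wprod_term]
    apply prod_congr rfl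
    intro k _
    unfold term
    have : b + a + a * (k : ℤ) = b + a * ((k + 1 : ℕ) : ℤ) := by push_cast; ring
    rw [this]
  rw [h1, wprod_term, mul_comm, ← prod_range_succ' (fun k => term b a p k) p, prod_range_succ]

section field
variable {p : ℕ} [hp : Fact p.Prime]

lemma cast_ne {a : ℤ} (ha : ¬ (p : ℤ) ∣ a) : (a : ZMod p) ≠ 0 :=
  fun h => ha ((ZMod.intCast_zmod_eq_zero_iff_dvd a p).1 h)

lemma Fq_spec {b a : ℤ} (ha : ¬ (p : ℤ) ∣ a) :
    wprod b a p + 1 = p * ((wprod b a p + 1) / (p : ℤ)) := by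
  have hP : (p : ℤ) ∣ wprod b a p + 1 := by
    rw [← ZMod.intCast_zmod_eq_zero_iff_dvd, wprod_eq]
    push_cast
    rw [prod_eq_neg_one (cast_ne ha)]
    ring
  rw [Int.mul_ediv_cancel' hP]

lemma Fq_zero {b a : ℤ} (ha : ¬ (p : ℤ) ∣ a) :
    (p : ℤ) ^ 2 ∣ wprod b a p + 1 ↔ Fq b a p = 0 := by
  have hp0 : (p : ℤ) ≠ 0 := by exact_mod_cast hp.out.ne_zero
  unfold Fq
  rw [ZMod.intCast_zmod_eq_zero_iff_dvd]
  conv_lhs => rw [Fq_spec ha, pow_two, mul_dvd_mul_iff_left hp0]

lemma Fq_shift {b a : ℤ} (ha : ¬ (p : ℤ) ∣ a) :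
    Fq (b + a) a p = Fq b a p - (a : ZMod p) * ((b : ZMod p))⁻¹ := by
  have hp0 : (p : ℤ) ≠ 0 := by exact_mod_cast hp.out.ne_zero
  have h1 := shift_term b a p
  have hbb : (p : ℤ) ∣ b + a * (p : ℕ) ↔ (p : ℤ) ∣ b := by
    rw [Int.dvd_add_left (Dvd.intro_left _ rfl)]
  by_cases hb : (p : ℤ) ∣ b
  · have e0 : term b a p 0 = 1 := by
      unfold term
      rw [if_neg]
      simpa using hb
    have e1 : term b a p p = 1 := by
      unfold term
      rw [if_neg]
      rw [not_not, hbb]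
      exact hb
    rw [e0, e1, one_mul, mul_one] at h1
    have hb0 : (b : ZMod p) = 0 := (ZMod.intCast_zmod_eq_zero_iff_dvd b p).2 hb
    unfold Fq
    rw [h1, hb0]
    simp
  · have e0 : term b a p 0 = b := by
      unfold term
      rw [if_pos]
      · simp
      · simpa using hb
    have e1 : term b a p p = b + a * p := by
      unfold term
      rw [if_pos]
      rw [hbb]
      exact hb
    rw [e0, e1] at h1
    have s1 := Fq_spec (b := b) ha
    have s2 := Fq_spec (b := b + a) ha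
    set q := (wprod b a p + 1) / (p : ℤ) with hq
    set q' := (wprod (b + a) a p + 1) / (p : ℤ) with hq'
    have h2 : (p : ℤ) * (b * q') = p * (b * q - a + a * p * q) := by
      have e2 : wprod (b + a) a p = p * q' - 1 := by linarith
      have e3 : wprod b a p = p * q - 1 := by linarith
      rw [e2, e3] at h1
      linear_combination h1
    have h3 := mul_left_cancel₀ hp0 h2
    have h4 : (b : ZMod p) * (q' : ZMod p) = b * q - a := by
      have := congrArg (fun z : ℤ => (z : ZMod p)) h3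
      push_cast at this
      rw [this]
      simp
    have hb0 := cast_ne hb
    change (q' : ZMod p) = (q : ZMod p) - a * (b : ZMod p)⁻¹
    field_simp
    linear_combination h4

lemma sum_inv_FF {b a : ℤ} (ha : (a : ZMod p) ≠ 0) (hp2 : p ≠ 2) :
    ∑ k ∈ FF b a p, ((b : ZMod p) + a * k)⁻¹ = 0 := by
  have h5 := prod_FF (M := Multiplicative (ZMod p)) (b := b) ha
    (fun m => Multiplicative.ofAdd (m⁻¹))
  have := congrArg Multiplicative.toAdd h5
  rw [toAdd_prod, toAdd_prod] at this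
  simp only [toAdd_ofAdd] at this
  rw [this, sum_inv_zero hp2]

omit hp in
lemma FF_shift_b (b a : ℤ) (t : ℤ) : FF (b + p * t) a p = FF b a p := by
  unfold FF
  apply filter_congr
  intro k _
  have : b + p * t + a * k = b + a * k + p * t := by ring
  rw [this, Int.dvd_add_left (Dvd.intro _ rfl)]

lemma wprod_per {b a : ℤ} (ha : ¬ (p : ℤ) ∣ a) (hp2 : p ≠ 2) (t : ℤ) :
    (p : ℤ) ^ 2 ∣ wprod (b + p * t) a p - wprod b a p := by
  have h1 := prod_expand (FF b a p) (fun k : ℕ => b + a * (k : ℤ)) (fun _ : ℕ => (1 : ℤ)) p t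
  have h2 : wprod (b + p * t) a p = ∏ k ∈ FF b a p, (b + a * (k : ℤ) + p * t * 1) := by
    rw [wprod_eq, FF_shift_b]
    apply prod_congr rfl
    intro k _
    ring
  have h3 : (p : ℤ) ∣ ∑ k ∈ FF b a p, 1 * ∏ j ∈ (FF b a p).erase k, (b + a * (j : ℤ)) := by
    rw [← ZMod.intCast_zmod_eq_zero_iff_dvd]
    push_cast
    have h4 : ∀ k ∈ FF b a p, (1 : ZMod p) * ∏ j ∈ (FF b a p).erase k, ((b : ZMod p) + a * (j : ZMod p))
        = - ((b : ZMod p) + a * k)⁻¹ := by
      intro k hk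
      have hne : (b : ZMod p) + a * k ≠ 0 := by
        intro h
        have hk2 := (mem_filter.1 hk).2
        apply hk2
        rw [← ZMod.intCast_zmod_eq_zero_iff_dvd]
        push_cast
        exact h
      have h2 := mul_prod_erase (FF b a p) (fun j : ℕ => (b : ZMod p) + a * j) hk
      rw [prod_eq_neg_one (cast_ne ha)] at h2
      field_simp
      linear_combination h2
    rw [sum_congr rfl h4, sum_neg_distrib, sum_inv_FF (cast_ne ha) hp2, neg_zero]
  obtain ⟨c, hc⟩ := h3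
  rw [h2, wprod_eq]
  rw [hc] at h1
  have h6 : ∏ k ∈ FF b a p, (b + a * (k : ℤ) + p * t * 1) - ∏ k ∈ FF b a p, (b + a * (k : ℤ)) =
      (∏ k ∈ FF b a p, (b + a * (k : ℤ) + p * t * 1) -
        (∏ k ∈ FF b a p, (b + a * (k : ℤ)) + p * t * (p * c))) + p ^ 2 * (t * c) := by ring
  rw [h6]
  exact dvd_add h1 (Dvd.intro _ rfl)

lemma Fq_per {b a : ℤ} (ha : ¬ (p : ℤ) ∣ a) (hp2 : p ≠ 2) (t : ℤ) :
    Fq (b + p * t) a p = Fq b a p := by
  have hp0 : (p : ℤ) ≠ 0 := by exact_mod_cast hp.out.ne_zero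
  have h1 := wprod_per (b := b) ha hp2 t
  have s1 := Fq_spec (b := b) ha
  have s2 := Fq_spec (b := b + p * t) ha
  unfold Fq
  set q := (wprod b a p + 1) / (p : ℤ) with hq
  set q' := (wprod (b + p * t) a p + 1) / (p : ℤ) with hq'
  have h2 : wprod (b + p * t) a p - wprod b a p = p * (q' - q) := by linear_combination s2 - s1
  rw [h2, pow_two, mul_dvd_mul_iff_left hp0] at h1
  have h3 := (ZMod.intCast_zmod_eq_zero_iff_dvd _ p).2 h1
  push_cast at h3
  linear_combination h3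

lemma hh_zero : hh p 0 = 0 := by
  unfold hh
  rw [ZMod.val_zero]
  simp

lemma val_neg_one' : (-1 : ZMod p).val = p - 1 := by
  obtain ⟨m, hm⟩ : ∃ m, p = m + 1 := ⟨p - 1, by have := hp.out.pos; omega⟩
  subst hm
  rw [ZMod.val_neg_one]
  rfl

lemma hh_neg_one (hp2 : p ≠ 2) : hh p (-1) = 0 := by
  unfold hh
  rw [val_neg_one']
  have hp1 : p - 1 + 1 = p := by have := hp.out.pos; omega
  rw [hp1]
  have h1 : ∑ m ∈ (univ : Finset (ZMod p)).erase 0, m⁻¹ = ∑ m : ZMod p, m⁻¹ := by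
    rw [← add_sum_erase univ (fun m : ZMod p => m⁻¹) (mem_univ 0)]
    simp
  have h2 : ∑ m : ZMod p, m⁻¹ = ∑ i ∈ range p, ((i : ℕ) : ZMod p)⁻¹ := by
    symm
    refine sum_bij' (fun i _ => (i : ZMod p)) (fun m _ => m.val) ?_ ?_ ?_ ?_ ?_
    · intro i _; exact mem_univ _
    · intro m _; exact mem_range.2 (ZMod.val_lt m)
    · intro i hi; exact ZMod.val_cast_of_lt (mem_range.1 hi)
    · intro m _; rw [ZMod.natCast_val, ZMod.cast_id]
    · intro i _; rfl
  rw [← h2, ← h1, sum_inv_zero hp2]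

lemma hh_step (hp2 : p ≠ 2) (x : ZMod p) : hh p x - hh p (x - 1) = x⁻¹ := by
  by_cases hx : x = 0
  · subst hx
    rw [hh_zero, show (0 : ZMod p) - 1 = -1 by ring, hh_neg_one hp2]
    simp
  · have hv : 0 < x.val := by
      rw [ZMod.val_pos]
      exact hx
    have h1 : (x - 1).val + 1 = x.val := by
      rw [ZMod.val_sub]
      · rw [ZMod.val_one]; omega
      · rw [ZMod.val_one]; omega
    unfold hh
    rw [h1, sum_range_succ]
    rw [ZMod.natCast_val, ZMod.cast_id]
    simp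

lemma hh_refl (hp2 : p ≠ 2) (x : ZMod p) : hh p (-1 - x) = hh p x := by
  have key : ∀ n : ℕ, hh p (-1 - (n : ZMod p)) = hh p (n : ZMod p) := by
    intro n
    induction n with
    | zero => simp [hh_zero, hh_neg_one hp2]
    | succ n ih =>
      have h1 := hh_step hp2 (-1 - (n : ZMod p))
      have h2 := hh_step hp2 ((n : ZMod p) + 1)
      push_cast
      have e1 : (-1 : ZMod p) - (n + 1) = -1 - n - 1 := by ring
      rw [e1]
      have e2 : (n : ZMod p) + 1 - 1 = n := by ring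
      rw [e2] at h2
      have e3 : (-1 - (n : ZMod p))⁻¹ = - ((n : ZMod p) + 1)⁻¹ := by
        rw [← inv_neg]
        congr 1
        ring
      rw [e3, ih] at h1
      linear_combination - h1 - h2
  have := key x.val
  rwa [ZMod.natCast_val, ZMod.cast_id] at this

/-- the invariant -/
def GG (b a : ℤ) (p : ℕ) : ZMod p := Fq b a p + hh p (-(b : ZMod p) * (a : ZMod p)⁻¹)

lemma GG_step {b a : ℤ} (ha : ¬ (p : ℤ) ∣ a) (hp2 : p ≠ 2) : GG (b + a) a p = GG b a p := by
  unfold GG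
  have ha' := cast_ne ha
  rw [Fq_shift ha]
  have h1 := hh_step hp2 (-(b : ZMod p) * (a : ZMod p)⁻¹)
  have e1 : -((b + a : ℤ) : ZMod p) * (a : ZMod p)⁻¹ = -(b : ZMod p) * (a : ZMod p)⁻¹ - 1 := by
    push_cast
    field_simp
    ring
  rw [e1]
  have e2 : (-(b : ZMod p) * (a : ZMod p)⁻¹)⁻¹ = - ((a : ZMod p) * (b : ZMod p)⁻¹) := by
    rw [mul_inv, inv_inv, inv_neg]
    ring
  rw [e2] at h1
  linear_combination - h1

lemma GG_const {b a : ℤ} (ha : ¬ (p : ℤ) ∣ a) (hp2 : p ≠ 2) (b' : ℤ) : GG b' a p = GG b a p := by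
  have ha' := cast_ne ha
  have h1 : ∀ k : ℕ, GG (b + a * k) a p = GG b a p := by
    intro k
    induction k with
    | zero => simp
    | succ k ih =>
      have : b + a * ((k + 1 : ℕ) : ℤ) = b + a * k + a := by push_cast; ring
      rw [this, GG_step ha hp2, ih]
  set k : ℕ := (((b' - b : ℤ) : ZMod p) / a).val with hk
  have h2 : (p : ℤ) ∣ b' - (b + a * k) := by
    rw [← ZMod.intCast_zmod_eq_zero_iff_dvd]
    push_cast
    rw [hk, ZMod.natCast_val, ZMod.cast_id]
    push_cast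
    field_simp
    ring
  obtain ⟨t, ht⟩ := h2
  have h3 : b' = b + a * k + p * t := by linarith
  rw [← h1 k, h3]
  unfold GG
  rw [Fq_per ha hp2]
  have e : ((b + a * k + p * t : ℤ) : ZMod p) = ((b + a * k : ℤ) : ZMod p) := by
    push_cast
    simp
  rw [e]

/-- the difference of two Wilson quotients -/
lemma Fq_sub {b a : ℤ} (ha : ¬ (p : ℤ) ∣ a) (hp2 : p ≠ 2) (b' : ℤ) :
    Fq b a p - Fq b' a p = hh p (-(b' : ZMod p) * (a : ZMod p)⁻¹) - hh p (-(b : ZMod p) * (a : ZMod p)⁻¹) := by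
  have := GG_const (b := b) ha hp2 b'
  unfold GG at this
  linear_combination - this

lemma Fq_refl {b a : ℤ} (ha : ¬ (p : ℤ) ∣ a) (hp2 : p ≠ 2) : Fq (a - b) a p = Fq b a p := by
  have h1 := Fq_sub (b := a - b) ha hp2 b
  have ha' := cast_ne ha
  have e1 : -((a - b : ℤ) : ZMod p) * (a : ZMod p)⁻¹ = -1 - (-(b : ZMod p) * (a : ZMod p)⁻¹) := by
    push_cast
    field_simp
    ring
  rw [e1, hh_refl hp2, sub_self] at h1
  exact sub_eq_zero.1 h1

end field

/-- the reflection of the progression has the same odd Wilson primes -/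
theorem isWilson_refl (b a : ℤ) {p : ℕ} (hp2 : p ≠ 2) : IsWilson (a - b) a p ↔ IsWilson b a p := by
  unfold IsWilson
  refine and_congr_right fun hp => and_congr_right fun ha => ?_
  have : Fact p.Prime := ⟨hp⟩
  rw [Fq_zero ha, Fq_zero ha, Fq_refl ha hp2]

/-- a common Wilson prime of two progressions gives a coincidence of two harmonic sums -/
theorem common {b b' a : ℤ} {p : ℕ} (hp2 : p ≠ 2) (h : IsWilson b a p) (h' : IsWilson b' a p) :
    hh p (-(b : ZMod p) * (a : ZMod p)⁻¹) = hh p (-(b' : ZMod p) * (a : ZMod p)⁻¹) := by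
  have : Fact p.Prime := ⟨h.1⟩
  have h1 := (Fq_zero h.2.1).1 h.2.2
  have h2 := (Fq_zero h'.2.1).1 h'.2.2
  have h3 := Fq_sub (b := b) h.2.1 hp2 b'
  rw [h1, h2, sub_zero] at h3
  exact (sub_eq_zero.1 h3.symm).symm

end Pool.Agent.W2helper64.WJ
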