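import Pool.Agent.W2helper64.WJ.Col

set_option autoImplicit false

/-!
# The number of differences modulo `p ^ 2`, first terms `β + γ a`
-/

namespace Pool.Agent.W2helper64.WJ

open Finset Pool.Agent.Helper92K9.WI
open scoped Classical

/-- `p` is a Wilson prime of the progression of difference `a` and first term `β + γ a` -/
def WW (β γ : ℤ) (p : ℕ) (a : ℤ) : Prop := IsWilson (β + γ * a) a p

lemma isWilson_per_b (b a t : ℤ) {p : ℕ} (hp2 : p ≠ 2) :
    IsWilson (b + p * t) a p ↔ IsWilson b a p := by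
  unfold IsWilson
  refine and_congr_right fun hp => and_congr_right fun ha => ?_
  have : Fact p.Prime := ⟨hp⟩
  rw [Fq_zero ha, Fq_zero ha, Fq_per ha hp2]

lemma WW_shift (β γ : ℤ) {p : ℕ} (hp2 : p ≠ 2) (a t : ℤ) :
    WW β γ p (a + p * t) ↔ IsWilson (β + γ * a) (a + p * t) p := by
  unfold WW
  have : β + γ * (a + p * t) = β + γ * a + p * (γ * t) := by ring
  rw [this, isWilson_per_b _ _ _ hp2]

lemma WW_lift (β γ : ℤ) {p : ℕ} (hp : p.Prime) (hp2 : p ≠ 2) (a : ℤ) (ha : ¬ (p : ℤ) ∣ a) :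
    ∃ s : ℤ, ∀ t : ℤ, WW β γ p (a + p * t) ↔ (p : ℤ) ∣ t + s := by
  obtain ⟨s, hs⟩ := one_lift hp hp2 (β + γ * a) a ha
  refine ⟨s, fun t => ?_⟩
  rw [WW_shift β γ hp2, ← hs t]
  unfold IsWilson
  have h1 : ¬ (p : ℤ) ∣ a + p * t := by rwa [Int.dvd_add_left (Dvd.intro _ rfl)]
  tauto

lemma WW_per (β γ : ℤ) {p : ℕ} (hp2 : p ≠ 2) (a : ℤ) :
    WW β γ p (a + (p : ℤ) ^ 2) ↔ WW β γ p a := by
  have e : a + (p : ℤ) ^ 2 = a + p * (p : ℤ) := by ring
  rw [e, WW_shift β γ hp2]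
  have h := isWilson_periodic (β + γ * a) p a 1
  have e2 : a + (p : ℤ) ^ 2 * 1 = a + p * p := by ring
  rw [e2] at h
  exact h

lemma WW_perN (β γ : ℤ) {p : ℕ} (hp2 : p ≠ 2) (a : ℕ) :
    WW β γ p ((a + p ^ 2 : ℕ) : ℤ) ↔ WW β γ p (a : ℤ) := by
  have := WW_per β γ hp2 (a : ℤ)
  push_cast
  exact this

/-- counting lifts -/
theorem card_lift (W : ℤ → Prop) {p : ℕ} (hp : p.Prime) (h1 : ∀ a, W a → ¬ (p : ℤ) ∣ a)
    (h2 : ∀ a : ℤ, ¬ (p : ℤ) ∣ a → ∃ s : ℤ, ∀ t : ℤ, W (a + p * t) ↔ (p : ℤ) ∣ t + s) :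
    ((range (p ^ 2)).filter (fun a : ℕ => W (a : ℤ))).card = p - 1 := by
  have hp0 : 0 < p := hp.pos
  have hpz : (0 : ℤ) < p := by exact_mod_cast hp0
  have hcard : ((range p).erase 0).card = p - 1 := by
    rw [card_erase_of_mem (mem_range.2 hp0), card_range]
  rw [← hcard]
  refine card_bij (fun a _ => a % p) ?_ ?_ ?_
  · intro a ha
    rw [mem_filter] at ha
    rw [mem_erase, mem_range]
    refine ⟨fun h => h1 _ ha.2 ?_, Nat.mod_lt _ hp0⟩
    exact_mod_cast Nat.dvd_of_mod_eq_zero h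
  · intro a ha c hc h
    rw [mem_filter, mem_range] at ha hc
    set r := a % p with hr
    have ea : (a : ℤ) = r + p * (a / p : ℕ) := by
      have := Nat.mod_add_div a p
      exact_mod_cast this.symm
    have ec : (c : ℤ) = r + p * (c / p : ℕ) := by
      have := Nat.mod_add_div c p
      rw [← h] at this
      exact_mod_cast this.symm
    have hra : ¬ (p : ℤ) ∣ (r : ℤ) := by
      intro hd
      apply h1 _ ha.2
      rw [ea]
      exact dvd_add hd (Dvd.intro _ rfl)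
    obtain ⟨s, hs⟩ := h2 r hra
    have h1 := (hs _).1 (ea ▸ ha.2)
    have h2 := (hs _).1 (ec ▸ hc.2)
    have h3 : (p : ℤ) ∣ ((a / p : ℕ) : ℤ) - ((c / p : ℕ) : ℤ) := by
      have := dvd_sub h1 h2
      refine this.trans (dvd_of_eq ?_)
      ring
    have ha1 : a / p < p := by
      rw [Nat.div_lt_iff_lt_mul hp0, ← pow_two]
      exact ha.1
    have hc1 : c / p < p := by
      rw [Nat.div_lt_iff_lt_mul hp0, ← pow_two]
      exact hc.1
    have key : ∀ u v : ℕ, u < p → v < p → (p : ℤ) ∣ (u : ℤ) - (v : ℤ) → u = v := by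
      intro u v hu hv hd
      have h4 : (u : ℤ) - v = 0 := Int.eq_zero_of_abs_lt_dvd hd (by
        rw [abs_lt]
        constructor <;> omega)
      omega
    have h5 : a / p = c / p := key _ _ ha1 hc1 h3
    have h6 := Nat.mod_add_div a p
    have h7 := Nat.mod_add_div c p
    rw [← hr] at h6
    rw [← h] at h7
    rw [← h6, ← h7, h5]
  · intro r hr
    rw [mem_erase, mem_range] at hr
    have hra : ¬ (p : ℤ) ∣ (r : ℤ) := by
      intro hd
      have h1 : p ∣ r := by exact_mod_cast hd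
      exact hr.1 (Nat.eq_zero_of_dvd_of_lt h1 hr.2)
    obtain ⟨s, hs⟩ := h2 r hra
    set t : ℕ := ((-s) % p).toNat with ht
    have ht0 : 0 ≤ (-s) % (p : ℤ) := Int.emod_nonneg _ hpz.ne'
    have ht1 : (-s) % (p : ℤ) < p := Int.emod_lt_of_pos _ hpz
    have ht2 : (t : ℤ) = (-s) % p := Int.toNat_of_nonneg ht0
    have htp : t < p := by omega
    have hdv : (p : ℤ) ∣ (t : ℤ) + s := by
      rw [ht2]
      have := Int.emod_add_mul_ediv (-s) p
      refine ⟨-((-s) / p), ?_⟩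
      linarith
    have h3 := (hs t).2 hdv
    refine ⟨r + p * t, ?_, ?_⟩
    · rw [mem_filter, mem_range]
      refine ⟨?_, ?_⟩
      · have : p * t ≤ p * (p - 1) := Nat.mul_le_mul_left p (by omega)
        have h3 : p * (p - 1) + p = p ^ 2 := by
          obtain ⟨m, hm⟩ : ∃ m, p = m + 1 := ⟨p - 1, by omega⟩
          rw [hm, Nat.add_sub_cancel]
          ring
        omega
      · push_cast
        exact h3
    · simp [Nat.add_mul_mod_self_left, Nat.mod_eq_of_lt hr.2]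

theorem card_WW (β γ : ℤ) {p : ℕ} (hp : p.Prime) (hp2 : p ≠ 2) :
    ((range (p ^ 2)).filter (fun a : ℕ => WW β γ p (a : ℤ))).card = p - 1 :=
  card_lift (WW β γ p) hp (fun a ha => ha.2.1) (fun a ha => WW_lift β γ hp hp2 a ha)

/-- common Wilson primes of two progressions -/
theorem card_pair (β γ β' γ' : ℤ) {p : ℕ} [hp : Fact p.Prime] (hp2 : p ≠ 2) :
    ((range (p ^ 2)).filter (fun a : ℕ => WW β γ p (a : ℤ) ∧ WW β' γ' p (a : ℤ))).card ≤
      (KK p (-β) (-γ) (-β') (-γ')).card := by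
  have hp0 : 0 < p := hp.out.pos
  refine card_le_card_of_injOn (fun a : ℕ => ((a : ℕ) : ZMod p)⁻¹) ?_ ?_
  · intro a ha
    rw [coe_filter] at ha
    obtain ⟨ha1, ha2, ha3⟩ := ha
    rw [mem_coe]
    unfold KK
    rw [mem_filter]
    refine ⟨mem_univ _, ?_⟩
    have h1 := common hp2 ha2 ha3
    have ha0 : (((a : ℕ) : ZMod p)) ≠ 0 := by
      have := cast_ne ha2.2.1
      simpa using this
    have e : ∀ β γ : ℤ, -((β + γ * (a : ℤ) : ℤ) : ZMod p) * (((a : ℕ) : ℤ) : ZMod p)⁻¹ =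
        ((-β : ℤ) : ZMod p) * ((a : ℕ) : ZMod p)⁻¹ + ((-γ : ℤ) : ZMod p) := by
      intro β γ
      push_cast
      field_simp
      ring
    rw [e, e] at h1
    exact h1
  · intro a ha c hc h
    rw [coe_filter] at ha hc
    obtain ⟨ha1, ha2, ha3⟩ := ha
    obtain ⟨hc1, hc2, hc3⟩ := hc
    rw [mem_range] at ha1 hc1
    simp only at h
    have h0 := inv_injective h
    rw [ZMod.natCast_eq_natCast_iff'] at h0
    -- both are lifts of the same residue
    set r := a % p with hr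
    have ea : (a : ℤ) = r + p * (a / p : ℕ) := by
      have := Nat.mod_add_div a p
      exact_mod_cast this.symm
    have ec : (c : ℤ) = r + p * (c / p : ℕ) := by
      have := Nat.mod_add_div c p
      rw [← h0] at this
      exact_mod_cast this.symm
    have hra : ¬ (p : ℤ) ∣ (r : ℤ) := by
      intro hd
      apply ha2.2.1
      rw [ea]
      exact dvd_add hd (Dvd.intro _ rfl)
    obtain ⟨s, hs⟩ := WW_lift β γ hp.out hp2 r hra
    have h1 := (hs _).1 (ea ▸ ha2)
    have h2 := (hs _).1 (ec ▸ hc2)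
    have h3 : (p : ℤ) ∣ ((a / p : ℕ) : ℤ) - ((c / p : ℕ) : ℤ) := by
      have := dvd_sub h1 h2
      refine this.trans (dvd_of_eq ?_)
      ring
    have ha1 : a / p < p := by
      rw [Nat.div_lt_iff_lt_mul hp0, ← pow_two]
      exact ha1
    have hc1 : c / p < p := by
      rw [Nat.div_lt_iff_lt_mul hp0, ← pow_two]
      exact hc1
    have key : ∀ u v : ℕ, u < p → v < p → (p : ℤ) ∣ (u : ℤ) - (v : ℤ) → u = v := by
      intro u v hu hv hd
      have h4 : (u : ℤ) - v = 0 := Int.eq_zero_of_abs_lt_dvd hd (by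
        rw [abs_lt]
        constructor <;> omega)
      omega
    have h5 : a / p = c / p := key _ _ ha1 hc1 h3
    have h6 := Nat.mod_add_div a p
    have h7 := Nat.mod_add_div c p
    rw [← hr] at h6
    rw [← h0] at h7
    rw [← h6, ← h7, h5]

/-- **inequivalent first terms** -/
def Ineq (β γ β' γ' : ℤ) : Prop := (β, γ) ≠ (β', γ') ∧ (β, γ) ≠ (-β', 1 - γ')

theorem pair_bound {β γ β' γ' : ℤ} (h : Ineq β γ β' γ') :
    ∃ C : ℝ, 0 ≤ C ∧ ∀ p : ℕ, p.Prime → p ≠ 2 →
      (((range (p ^ 2)).filter (fun a : ℕ => WW β γ p (a : ℤ) ∧ WW β' γ' p (a : ℤ))).card : ℝ) ≤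
        C * (p : ℝ) ^ ((2 : ℝ) / 3) := by
  obtain ⟨C, hC0, hC⟩ := coll (-β) (-γ) (-β') (-γ')
    (by
      intro h1
      rw [Prod.mk.injEq] at h1
      apply h.1
      rw [Prod.mk.injEq]
      constructor <;> omega)
    (by
      intro h1
      rw [Prod.mk.injEq] at h1
      apply h.2
      rw [Prod.mk.injEq]
      constructor <;> omega)
  refine ⟨C, hC0, fun p hp hp2 => ?_⟩
  have : Fact p.Prime := ⟨hp⟩
  refine le_trans ?_ (hC p hp2)
  exact_mod_cast card_pair β γ β' γ' hp2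

/-- equivalent first terms have the same odd Wilson primes -/
theorem WW_refl (β γ : ℤ) {p : ℕ} (hp2 : p ≠ 2) (a : ℤ) : WW (-β) (1 - γ) p a ↔ WW β γ p a := by
  unfold WW
  have : -β + (1 - γ) * a = a - (β + γ * a) := by ring
  rw [this, isWilson_refl _ _ hp2]

end Pool.Agent.W2helper64.WJ
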