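import Pool.Agent.W2helper64.WJ.Ga

set_option autoImplicit false

/-!
# The joint Poisson law in windows: characteristic functions
-/

namespace Pool.Agent.W2helper64.WJ

open Finset Filter Pool.Agent.Helper92K9.WI
open scoped Classical Topology

lemma norm_exp_I_sub_one (x : ℝ) : ‖Complex.exp ((x : ℂ) * Complex.I) - 1‖ ≤ 2 := by
  have h := norm_sub_le (Complex.exp ((x : ℂ) * Complex.I)) 1
  rw [Complex.norm_exp_ofReal_mul_I, norm_one] at h
  linarith

lemma re_exp_I_sub_one (x : ℝ) : (Complex.exp ((x : ℂ) * Complex.I) - 1).re ≤ 0 := by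
  rw [Complex.sub_re, Complex.exp_ofReal_mul_I_re, Complex.one_re]
  linarith [Real.cos_le_one x]

lemma sum_biUnion_le' {α : Type*} [DecidableEq α] (s : Finset α) (W : α → Finset ℕ) (f : ℕ → ℝ)
    (hf : ∀ p, 0 ≤ f p) : ∑ p ∈ s.biUnion W, f p ≤ ∑ q ∈ s, ∑ p ∈ W q, f p := by
  induction s using Finset.induction_on with
  | empty => simp
  | insert a s ha ih =>
    rw [biUnion_insert, sum_insert ha]
    have h1 := sum_union_inter (s₁ := W a) (s₂ := s.biUnion W) (f := f)
    have h2 : 0 ≤ ∑ p ∈ W a ∩ s.biUnion W, f p := sum_nonneg fun p _ => hf p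
    linarith

section local_
variable {ι : Type*} [Fintype ι] [DecidableEq ι]

/-- the local variable with the weights `s` -/
noncomputable def vv (β γ : ι → ℤ) (s : ι → ℝ) (p a : ℕ) : ℝ := ∑ j, s j * iw (β j) (γ j) p a

lemma vv_abs (β γ : ι → ℤ) (s : ι → ℝ) (p a : ℕ) : |vv β γ s p a| ≤ ∑ j, |s j| := by
  unfold vv
  refine (abs_sum_le_sum_abs _ _).trans (sum_le_sum fun j _ => ?_)
  rw [abs_mul, abs_of_nonneg (iw_nonneg _ _ _ _)]
  exact mul_le_of_le_one_right (abs_nonneg _) (iw_le _ _ _ _)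

lemma vv_per (β γ : ι → ℤ) (s : ι → ℝ) {p : ℕ} (hp2 : p ≠ 2) (a : ℕ) :
    vv β γ s p (a + p ^ 2) = vv β γ s p a := by
  unfold vv
  apply sum_congr rfl
  intro j _
  rw [iw_per _ _ hp2]

/-- pointwise: the exponential is linear up to pairs -/
lemma exp_pairs (x : ι → ℝ) (hx : ∀ j, x j = 0 ∨ x j = 1) (s : ι → ℝ) :
    ‖Complex.exp (((∑ j, s j * x j : ℝ) : ℂ) * Complex.I) - 1 -
      ∑ j, (Complex.exp ((s j : ℂ) * Complex.I) - 1) * (x j : ℂ)‖ ≤
      (2 + 2 * Fintype.card ι) * ∑ i, ∑ j, (if i = j then 0 else x i * x j) := by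
  have hx0 : ∀ j, 0 ≤ x j := fun j => by rcases hx j with h | h <;> rw [h] <;> norm_num
  have hpn : ∀ i j, 0 ≤ (if i = j then 0 else x i * x j) := by
    intro i j
    split_ifs
    · exact le_rfl
    · exact mul_nonneg (hx0 i) (hx0 j)
  by_cases hex : ∃ i j, i ≠ j ∧ x i = 1 ∧ x j = 1
  · obtain ⟨i, j, hij, hi, hj⟩ := hex
    have h1 : (1 : ℝ) ≤ ∑ i, ∑ j, (if i = j then 0 else x i * x j) := by
      have a1 : (1 : ℝ) = (if i = j then 0 else x i * x j) := by rw [if_neg hij, hi, hj]; norm_num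
      calc (1 : ℝ) = (if i = j then 0 else x i * x j) := a1
        _ ≤ ∑ j, (if i = j then 0 else x i * x j) :=
            single_le_sum (f := fun j => (if i = j then 0 else x i * x j))
              (fun j _ => hpn i j) (mem_univ j)
        _ ≤ _ := single_le_sum (f := fun i => ∑ j, (if i = j then 0 else x i * x j))
              (fun i _ => sum_nonneg fun j _ => hpn i j) (mem_univ i)
    have h2 : ‖Complex.exp (((∑ j, s j * x j : ℝ) : ℂ) * Complex.I) - 1 -
        ∑ j, (Complex.exp ((s j : ℂ) * Complex.I) - 1) * (x j : ℂ)‖ ≤ 2 + 2 * Fintype.card ι := by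
      refine (norm_sub_le _ _).trans ?_
      have b1 := norm_exp_I_sub_one (∑ j, s j * x j)
      have b2 : ‖∑ j, (Complex.exp ((s j : ℂ) * Complex.I) - 1) * (x j : ℂ)‖ ≤ 2 * Fintype.card ι := by
        refine (norm_sum_le _ _).trans ?_
        have : ∀ j ∈ (univ : Finset ι), ‖(Complex.exp ((s j : ℂ) * Complex.I) - 1) * (x j : ℂ)‖ ≤ 2 := by
          intro j _
          rw [norm_mul, Complex.norm_real, Real.norm_eq_abs]
          have c1 := norm_exp_I_sub_one (s j)
          rcases hx j with h | h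
          · rw [h]; norm_num
          · rw [h]; simpa using c1
        refine (sum_le_sum this).trans ?_
        rw [sum_const, card_univ, nsmul_eq_mul]
        linarith
      linarith
    refine h2.trans ?_
    have h3 : (0 : ℝ) ≤ 2 + 2 * Fintype.card ι := by positivity
    nlinarith
  · push Not at hex
    have hz : Complex.exp (((∑ j, s j * x j : ℝ) : ℂ) * Complex.I) - 1 -
        ∑ j, (Complex.exp ((s j : ℂ) * Complex.I) - 1) * (x j : ℂ) = 0 := by
      by_cases hone : ∃ i, x i = 1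
      · obtain ⟨i, hi⟩ := hone
        have hother : ∀ j, j ≠ i → x j = 0 := by
          intro j hj
          rcases hx j with h | h
          · exact h
          · exact absurd h (hex i j hj.symm hi)
        have e1 : ∑ j, s j * x j = s i := by
          rw [sum_eq_single i]
          · rw [hi, mul_one]
          · intro j _ hj; rw [hother j hj, mul_zero]
          · intro h; exact absurd (mem_univ i) h
        have e2 : ∑ j, (Complex.exp ((s j : ℂ) * Complex.I) - 1) * (x j : ℂ) =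
            Complex.exp ((s i : ℂ) * Complex.I) - 1 := by
          rw [sum_eq_single i]
          · rw [hi]; simp
          · intro j _ hj; rw [hother j hj]; simp
          · intro h; exact absurd (mem_univ i) h
        rw [e1, e2, sub_self]
      · push Not at hone
        have hall : ∀ j, x j = 0 := fun j => by
          rcases hx j with h | h
          · exact h
          · exact absurd h (hone j)
        simp [hall]
    rw [hz, norm_zero]
    exact mul_nonneg (by positivity) (sum_nonneg fun i _ => sum_nonneg fun j _ => hpn i j)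

/-- the characteristic function of one factor -/
lemma cf_vv (β γ : ι → ℤ) {C : ℝ} (hC0 : 0 ≤ C)
    (hC : ∀ i j, i ≠ j → ∀ p : ℕ, p.Prime → p ≠ 2 →
      av (p ^ 2) (fun a => iw (β i) (γ i) p a * iw (β j) (γ j) p a) ≤
        C * (p : ℝ) ^ (-(4 : ℝ) / 3)) (s : ι → ℝ) {p : ℕ} (hp : p.Prime) (hp2 : p ≠ 2) :
    ‖cf (p ^ 2) (vv β γ s p) - (1 + (∑ j, (Complex.exp ((s j : ℂ) * Complex.I) - 1)) * (gg p : ℂ))‖ ≤
      (2 + 2 * Fintype.card ι) * (Fintype.card ι) ^ 2 * C * (p : ℝ) ^ (-(4 : ℝ) / 3) := by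
  have hN : 0 < p ^ 2 := pow_pos hp.pos 2
  have e1 : cf (p ^ 2) (vv β γ s p) -
      (1 + (∑ j, (Complex.exp ((s j : ℂ) * Complex.I) - 1)) * (gg p : ℂ)) =
      av (p ^ 2) (fun a => Complex.exp ((vv β γ s p a : ℂ) * Complex.I) - 1 -
        ∑ j, (Complex.exp ((s j : ℂ) * Complex.I) - 1) * (iw (β j) (γ j) p a : ℂ)) := by
    rw [av_sub, av_sub, av_const hN, av_sum]
    have : ∀ j ∈ (univ : Finset ι), av (p ^ 2) (fun a => (Complex.exp ((s j : ℂ) * Complex.I) - 1) *
        (iw (β j) (γ j) p a : ℂ)) = (Complex.exp ((s j : ℂ) * Complex.I) - 1) * (gg p : ℂ) := by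
      intro j _
      rw [av_mul_left, ← av_ofReal]
      have h1 : av (p ^ 2) (fun a => iw (β j) (γ j) p a) = gg p := av_iw _ _ hp hp2
      rw [h1]
    rw [sum_congr rfl this, ← sum_mul]
    unfold cf
    ring
  rw [e1]
  refine (norm_av_le _ _).trans ?_
  have h2 : ∀ a, ‖Complex.exp ((vv β γ s p a : ℂ) * Complex.I) - 1 -
        ∑ j, (Complex.exp ((s j : ℂ) * Complex.I) - 1) * (iw (β j) (γ j) p a : ℂ)‖ ≤
      (2 + 2 * Fintype.card ι) * ∑ i, ∑ j, (if i = j then 0 else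
        iw (β i) (γ i) p a * iw (β j) (γ j) p a) := by
    intro a
    have := exp_pairs (fun j => iw (β j) (γ j) p a) (fun j => by
      unfold iw
      split_ifs
      · right; rfl
      · left; rfl) s
    exact this
  refine (av_mono h2).trans ?_
  rw [av_mul_left]
  have h3 : av (p ^ 2) (fun a => ∑ i, ∑ j, (if i = j then 0 else
      iw (β i) (γ i) p a * iw (β j) (γ j) p a)) ≤
      (Fintype.card ι) ^ 2 * (C * (p : ℝ) ^ (-(4 : ℝ) / 3)) := by
    rw [av_sum]
    have : ∀ i ∈ (univ : Finset ι), av (p ^ 2) (fun a => ∑ j, (if i = j then 0 else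
        iw (β i) (γ i) p a * iw (β j) (γ j) p a)) ≤ Fintype.card ι * (C * (p : ℝ) ^ (-(4 : ℝ) / 3)) := by
      intro i _
      rw [av_sum]
      have h4 : ∀ j ∈ (univ : Finset ι), av (p ^ 2) (fun a => (if i = j then 0 else
          iw (β i) (γ i) p a * iw (β j) (γ j) p a)) ≤ C * (p : ℝ) ^ (-(4 : ℝ) / 3) := by
        intro j _
        by_cases hij : i = j
        · simp only [if_pos hij]
          rw [av_const hN]
          positivity
        · simp only [if_neg hij]
          exact hC i j hij p hp hp2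
      refine (sum_le_sum h4).trans ?_
      rw [sum_const, card_univ, nsmul_eq_mul]
    refine (sum_le_sum this).trans ?_
    rw [sum_const, card_univ, nsmul_eq_mul]
    apply le_of_eq
    ring
  calc (2 + 2 * (Fintype.card ι : ℝ)) * _ ≤ (2 + 2 * (Fintype.card ι : ℝ)) *
        ((Fintype.card ι) ^ 2 * (C * (p : ℝ) ^ (-(4 : ℝ) / 3))) :=
        mul_le_mul_of_nonneg_left h3 (by positivity)
    _ = _ := by ring

/-- comparison with the Poisson factor -/
lemma cf_vv_pois (β γ : ι → ℤ) {C : ℝ} (hC0 : 0 ≤ C)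
    (hC : ∀ i j, i ≠ j → ∀ p : ℕ, p.Prime → p ≠ 2 →
      av (p ^ 2) (fun a => iw (β i) (γ i) p a * iw (β j) (γ j) p a) ≤
        C * (p : ℝ) ^ (-(4 : ℝ) / 3)) (s : ι → ℝ) {p : ℕ} (hp : p.Prime) (hp2 : p ≠ 2)
    (hpr : 2 * Fintype.card ι ≤ p) :
    ‖cf (p ^ 2) (vv β γ s p) -
      Complex.exp ((∑ j, (Complex.exp ((s j : ℂ) * Complex.I) - 1)) * (gg p : ℂ))‖ ≤
      ((2 + 2 * Fintype.card ι) * (Fintype.card ι) ^ 2 * C + (2 * Fintype.card ι) ^ 2) *
        (p : ℝ) ^ (-(4 : ℝ) / 3) := by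
  have h1 := cf_vv β γ hC0 hC s hp hp2
  set w : ℂ := (∑ j, (Complex.exp ((s j : ℂ) * Complex.I) - 1)) * (gg p : ℂ) with hw
  have hp0 : (0 : ℝ) < p := by exact_mod_cast hp.pos
  have hwn : ‖w‖ ≤ 2 * Fintype.card ι * (1 / p) := by
    rw [hw, norm_mul, Complex.norm_real, Real.norm_eq_abs, abs_of_nonneg (gg_nn p)]
    apply mul_le_mul _ (gg_le_inv p) (gg_nn p) (by positivity)
    refine (norm_sum_le _ _).trans ?_
    refine (sum_le_sum fun j _ => norm_exp_I_sub_one (s j)).trans ?_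
    rw [sum_const, card_univ, nsmul_eq_mul]
    linarith
  have hw1 : ‖w‖ ≤ 1 := by
    refine hwn.trans ?_
    rw [mul_one_div, div_le_one hp0]
    exact_mod_cast hpr
  have h2 : ‖Complex.exp w - 1 - w‖ ≤ ‖w‖ ^ 2 := Complex.norm_exp_sub_one_sub_id_le hw1
  have h3 : ‖w‖ ^ 2 ≤ (2 * Fintype.card ι) ^ 2 * (p : ℝ) ^ (-(4 : ℝ) / 3) := by
    refine (pow_le_pow_left₀ (norm_nonneg _) hwn 2).trans ?_
    rw [mul_pow]
    apply mul_le_mul_of_nonneg_left _ (by positivity)
    rw [one_div_pow]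
    exact rpow_aux2 hp.one_le
  have e : cf (p ^ 2) (vv β γ s p) - Complex.exp w =
      (cf (p ^ 2) (vv β γ s p) - (1 + w)) - (Complex.exp w - 1 - w) := by ring
  rw [e]
  refine (norm_sub_le _ _).trans ?_
  rw [add_mul]
  linarith

/-- the exponential moment of one factor -/
lemma exp_vv (β γ : ι → ℤ) (s : ι → ℝ) (σ : ℝ) {T : ℝ} (hT : |σ| * ∑ j, |s j| ≤ T) {p : ℕ}
    (hp : p.Prime) (hp2 : p ≠ 2) :
    av (p ^ 2) (fun a => Real.exp (σ * vv β γ s p a)) ≤
      Real.exp (Real.exp T * Fintype.card ι * gg p) := by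
  have hN : 0 < p ^ 2 := pow_pos hp.pos 2
  have hT0 : 0 ≤ T := le_trans (by positivity) hT
  have h1 : ∀ a, Real.exp (σ * vv β γ s p a) ≤ 1 + Real.exp T * ∑ j, iw (β j) (γ j) p a := by
    intro a
    have hs0 : 0 ≤ ∑ j, iw (β j) (γ j) p a := sum_nonneg fun j _ => iw_nonneg _ _ _ _
    by_cases hall : ∀ j, iw (β j) (γ j) p a = 0
    · have : vv β γ s p a = 0 := by
        unfold vv
        apply sum_eq_zero
        intro j _
        rw [hall j, mul_zero]
      rw [this, mul_zero, Real.exp_zero]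
      have := mul_nonneg (Real.exp_pos T).le hs0
      linarith
    · push Not at hall
      obtain ⟨j, hj⟩ := hall
      have hj1 : iw (β j) (γ j) p a = 1 := by
        unfold iw at hj ⊢
        by_cases h : WW (β j) (γ j) p (a : ℤ)
        · rw [if_pos h]
        · rw [if_neg h] at hj; exact absurd rfl hj
      have h2 : (1 : ℝ) ≤ ∑ j, iw (β j) (γ j) p a := by
        calc (1 : ℝ) = iw (β j) (γ j) p a := hj1.symm
          _ ≤ _ := single_le_sum (f := fun j => iw (β j) (γ j) p a)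
              (fun j _ => iw_nonneg _ _ _ _) (mem_univ j)
      have h3 : Real.exp (σ * vv β γ s p a) ≤ Real.exp T := by
        apply Real.exp_le_exp.2
        refine (le_abs_self _).trans ?_
        rw [abs_mul]
        exact (mul_le_mul_of_nonneg_left (vv_abs β γ s p a) (abs_nonneg _)).trans hT
      have h4 := Real.exp_pos T
      nlinarith
  refine (av_mono h1).trans ?_
  rw [av_add, av_const hN, av_mul_left, av_sum]
  have h5 : ∑ j, av (p ^ 2) (iw (β j) (γ j) p) = Fintype.card ι * gg p := by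
    rw [sum_congr rfl (fun j _ => av_iw (β j) (γ j) hp hp2), sum_const, card_univ, nsmul_eq_mul]
  have h6 : ∑ j, av (p ^ 2) (fun a => iw (β j) (γ j) p a) = Fintype.card ι * gg p := h5
  rw [h6]
  have := Real.add_one_le_exp (Real.exp T * Fintype.card ι * gg p)
  linarith

end local_

section win
variable {ι : Type*} [Fintype ι] [DecidableEq ι] {κ : Type*} [Fintype κ] [DecidableEq κ]

/-- the weight of the prime `p` -/
noncomputable def sw (Wd : ι → κ → Finset ℕ) (t : ι → κ → ℝ) (p : ℕ) (j : ι) : ℝ :=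
  ∑ i, if p ∈ Wd j i then t j i else 0

omit [DecidableEq ι] [DecidableEq κ] in
lemma sw_abs (Wd : ι → κ → Finset ℕ) (t : ι → κ → ℝ) (p : ℕ) :
    ∑ j, |sw Wd t p j| ≤ ∑ j, ∑ i, |t j i| := by
  apply sum_le_sum
  intro j _
  unfold sw
  refine (abs_sum_le_sum_abs _ _).trans (sum_le_sum fun i _ => ?_)
  split_ifs
  · exact le_rfl
  · rw [abs_zero]; exact abs_nonneg _

omit [Fintype ι] [DecidableEq ι] [DecidableEq κ] in
lemma sw_eq {Wd : ι → κ → Finset ℕ} (hd : ∀ j i i', i ≠ i' → Disjoint (Wd j i) (Wd j i'))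
    (t : ι → κ → ℝ) (p : ℕ) (j : ι) :
    Complex.exp ((sw Wd t p j : ℂ) * Complex.I) - 1 =
      ∑ i, if p ∈ Wd j i then (Complex.exp ((t j i : ℂ) * Complex.I) - 1) else 0 := by
  by_cases hex : ∃ i, p ∈ Wd j i
  · obtain ⟨i, hp⟩ := hex
    have hoth : ∀ i', i' ≠ i → p ∉ Wd j i' := by
      intro i' hi' h
      exact (disjoint_left.1 (hd j i i' hi'.symm)) hp h
    have e1 : sw Wd t p j = t j i := by
      unfold sw
      rw [sum_eq_single i]
      · rw [if_pos hp]
      · intro i' _ hi'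
        rw [if_neg (hoth i' hi')]
      · intro h; exact absurd (mem_univ i) h
    rw [e1, sum_eq_single i]
    · rw [if_pos hp]
    · intro i' _ hi'
      rw [if_neg (hoth i' hi')]
    · intro h; exact absurd (mem_univ i) h
  · push Not at hex
    have e1 : sw Wd t p j = 0 := by
      unfold sw
      apply sum_eq_zero
      intro i _
      rw [if_neg (hex i)]
    rw [e1]
    symm
    rw [sum_eq_zero]
    · simp
    · intro i _
      rw [if_neg (hex i)]

/-- **the Poisson approximation, quantitative** -/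
theorem pois_bound (β γ : ι → ℤ) (h : ∀ i j, i ≠ j → Ineq (β i) (γ i) (β j) (γ j))
    (t : ι → κ → ℝ) :
    ∃ D : ℝ, 1 ≤ D ∧ ∀ (Wd : ι → κ → Finset ℕ) (z X K : ℕ),
      (∀ j i i', i ≠ i' → Disjoint (Wd j i) (Wd j i')) →
      (∀ j i, ∀ p ∈ Wd j i, p.Prime ∧ p ≠ 2 ∧ p ≤ z ∧ D ≤ p) → 1 ≤ z → 0 < X → Even K →
      ‖cf X (fun a => ∑ j, ∑ i, t j i * ∑ p ∈ Wd j i, iw (β j) (γ j) p a) -
        Complex.exp (∑ j, ∑ i, (Complex.exp ((t j i : ℂ) * Complex.I) - 1) *
          ((∑ p ∈ Wd j i, gg p : ℝ) : ℂ))‖ ≤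
        2 * (K + 1) * (D * (z : ℝ) ^ 3) ^ K / X +
        4 * Real.exp (D * ∑ j, ∑ i, ∑ p ∈ Wd j i, gg p) * (1 / 2) ^ K +
        D * ∑ j, ∑ i, ∑ p ∈ Wd j i, (p : ℝ) ^ (-(4 : ℝ) / 3) := by
  obtain ⟨C, hC0, hC⟩ := pair_all β γ h
  set T := ∑ j, ∑ i, |t j i| with hT
  have hT0 : 0 ≤ T := sum_nonneg fun j _ => sum_nonneg fun i _ => abs_nonneg _
  set r : ℝ := (Fintype.card ι : ℝ) with hr
  have hr0 : 0 ≤ r := Nat.cast_nonneg _
  set D := 1 + T + Real.exp (2 * T) * r + 2 * r + ((2 + 2 * r) * r ^ 2 * C + (2 * r) ^ 2) with hD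
  have hD1 : 1 ≤ D := by
    rw [hD]
    have : 0 ≤ T + Real.exp (2 * T) * r + 2 * r + ((2 + 2 * r) * r ^ 2 * C + (2 * r) ^ 2) := by
      positivity
    linarith
  refine ⟨D, hD1, fun Wd z X K hd hW hz hX hK => ?_⟩
  set P : Finset ℕ := univ.biUnion (fun q : ι × κ => Wd q.1 q.2) with hP
  have hsub : ∀ j i, Wd j i ⊆ P := by
    intro j i p hp
    rw [hP, mem_biUnion]
    exact ⟨(j, i), mem_univ _, hp⟩
  have hPp : ∀ p ∈ P, p.Prime ∧ p ≠ 2 ∧ p ≤ z ∧ D ≤ p := by
    intro p hp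
    rw [hP, mem_biUnion] at hp
    obtain ⟨q, _, hq⟩ := hp
    exact hW q.1 q.2 p hq
  have hPle : ∀ f : ℕ → ℝ, (∀ p, 0 ≤ f p) → ∑ p ∈ P, f p ≤ ∑ j, ∑ i, ∑ p ∈ Wd j i, f p := by
    intro f hf
    rw [hP]
    have e1 : ∑ j, ∑ i, ∑ p ∈ Wd j i, f p = ∑ q : ι × κ, ∑ p ∈ Wd q.1 q.2, f p := by
      rw [← univ_product_univ, sum_product]
    rw [e1]
    exact sum_biUnion_le' univ (fun q : ι × κ => Wd q.1 q.2) f hf
  have hite : ∀ (j : ι) (i : κ) (f : ℕ → ℂ), ∑ p ∈ P, (if p ∈ Wd j i then f p else 0) =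
      ∑ p ∈ Wd j i, f p := by
    intro j i f
    rw [← sum_filter, filter_mem_eq_inter, inter_eq_right.2 (hsub j i)]
  have hiteR : ∀ (j : ι) (i : κ) (f : ℕ → ℝ), ∑ p ∈ P, (if p ∈ Wd j i then f p else 0) =
      ∑ p ∈ Wd j i, f p := by
    intro j i f
    rw [← sum_filter, filter_mem_eq_inter, inter_eq_right.2 (hsub j i)]
  set ξ : ℕ → ℕ → ℝ := fun p a => vv β γ (sw Wd t p) p a with hξ
  have hS : (fun a => ∑ j, ∑ i, t j i * ∑ p ∈ Wd j i, iw (β j) (γ j) p a) =
      fun a => ∑ p ∈ P, ξ p a := by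
    funext a
    rw [hξ]
    simp only [vv, sw]
    rw [sum_comm (s := P)]
    apply sum_congr rfl
    intro j _
    simp only [sum_mul]
    rw [sum_comm (s := P)]
    apply sum_congr rfl
    intro i _
    rw [← hiteR, mul_sum]
    apply sum_congr rfl
    intro p _
    split_ifs <;> simp
  have hξT : ∀ p a, |ξ p a| ≤ T := fun p a => (vv_abs β γ _ p a).trans (sw_abs Wd t p)
  have pf : ∀ p ∈ P, ∀ a, ξ p (a + p ^ 2) = ξ p a := fun p hp a =>
    vv_per β γ _ (hPp p hp).2.1 a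
  have hexp : ∀ σ : ℝ, |σ| ≤ 2 → av (MM P) (fun a => Real.exp (σ * ∑ p ∈ P, ξ p a)) ≤
      Real.exp (D * ∑ j, ∑ i, ∑ p ∈ Wd j i, gg p) := by
    intro σ hσ
    rw [exp_model P (fun p hp => (hPp p hp).1) ξ pf]
    have h1 : ∀ p ∈ P, av (p ^ 2) (fun a => Real.exp (σ * ξ p a)) ≤
        Real.exp (Real.exp (2 * T) * r * gg p) := by
      intro p hp
      apply exp_vv β γ (sw Wd t p) σ _ (hPp p hp).1 (hPp p hp).2.1
      exact mul_le_mul hσ (sw_abs Wd t p) (sum_nonneg fun j _ => abs_nonneg _) (by norm_num)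
    refine (Finset.prod_le_prod (fun p _ => av_nonneg fun a => (Real.exp_pos _).le) h1).trans ?_
    rw [← Real.exp_sum, ← mul_sum]
    apply Real.exp_le_exp.2
    apply mul_le_mul _ (hPle gg gg_nn) (sum_nonneg fun p _ => gg_nn p) (by linarith)
    rw [hD]
    have : 0 ≤ 1 + T + 2 * r + ((2 + 2 * r) * r ^ 2 * C + (2 * r) ^ 2) := by positivity
    linarith
  have hcard : (P.card : ℝ) ≤ z := by
    have h1 : P ⊆ Icc 1 z := by
      intro p hp
      rw [mem_Icc]
      exact ⟨(hPp p hp).1.one_le, (hPp p hp).2.2.1⟩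
    have h2 := card_le_card h1
    rw [Nat.card_Icc, Nat.add_sub_cancel] at h2
    exact_mod_cast h2
  have hz1 : (1 : ℝ) ≤ z := by exact_mod_cast hz
  have hTD : T ≤ D := by
    rw [hD]
    have : 0 ≤ 1 + Real.exp (2 * T) * r + 2 * r + ((2 + 2 * r) * r ^ 2 * C + (2 * r) ^ 2) := by
      positivity
    linarith
  have s1 := transfer P (fun p hp => (hPp p hp).1) (fun p hp => (hPp p hp).2.2.1) hz ξ hξT pf
    (hexp 2 (by norm_num))
    (by
      have e : (fun a => Real.exp (-(2 * ∑ p ∈ P, ξ p a))) =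
          fun a => Real.exp (-2 * ∑ p ∈ P, ξ p a) := by
        funext a; congr 1; ring
      rw [e]
      exact hexp (-2) (by norm_num)) hK hX (Q := D * (z : ℝ) ^ 3)
    (by
      have : (1 : ℝ) ≤ (z : ℝ) ^ 3 := one_le_pow₀ hz1
      nlinarith)
    (by
      calc T * P.card * (z : ℝ) ^ 2 ≤ D * z * (z : ℝ) ^ 2 := by
            apply mul_le_mul_of_nonneg_right _ (by positivity)
            exact mul_le_mul hTD hcard (Nat.cast_nonneg _) (by linarith)
        _ = _ := by ring)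
  -- the model
  have s2 : ‖cf (MM P) (fun a => ∑ p ∈ P, ξ p a) -
      ∏ p ∈ P, Complex.exp ((∑ j, (Complex.exp ((sw Wd t p j : ℂ) * Complex.I) - 1)) * (gg p : ℂ))‖ ≤
      D * ∑ j, ∑ i, ∑ p ∈ Wd j i, (p : ℝ) ^ (-(4 : ℝ) / 3) := by
    rw [cf_model P (fun p hp => (hPp p hp).1) ξ pf]
    refine (prod_close P _ _ (fun p hp => norm_cf_le (pow_pos (hPp p hp).1.pos 2) _) ?_).trans ?_
    · intro p _
      rw [Complex.norm_exp, Real.exp_le_one_iff, Complex.re_mul_ofReal, Complex.re_sum]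
      apply mul_nonpos_of_nonpos_of_nonneg _ (gg_nn p)
      exact sum_nonpos fun j _ => re_exp_I_sub_one _
    · have h0 : ∑ p ∈ P, D * (p : ℝ) ^ (-(4 : ℝ) / 3) ≤
          D * ∑ j, ∑ i, ∑ p ∈ Wd j i, (p : ℝ) ^ (-(4 : ℝ) / 3) := by
        rw [← mul_sum]
        apply mul_le_mul_of_nonneg_left _ (by linarith)
        exact hPle _ (fun p => by positivity)
      refine le_trans ?_ h0
      apply sum_le_sum
      intro p hp
      have h1 := cf_vv_pois β γ hC0 hC (sw Wd t p) (hPp p hp).1 (hPp p hp).2.1 (by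
        have h2 := (hPp p hp).2.2.2
        have h3 : 2 * r ≤ D := by
          rw [hD]
          have : 0 ≤ 1 + T + Real.exp (2 * T) * r + ((2 + 2 * r) * r ^ 2 * C + (2 * r) ^ 2) := by
            positivity
          linarith
        have h4 : (((2 * Fintype.card ι : ℕ)) : ℝ) ≤ (p : ℝ) := by
          push_cast
          linarith
        exact_mod_cast h4)
      refine h1.trans ?_
      apply mul_le_mul_of_nonneg_right _ (by positivity)
      rw [hD]
      have : 0 ≤ 1 + T + Real.exp (2 * T) * r + 2 * r := by positivity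
      linarith
  have e3 : ∏ p ∈ P, Complex.exp ((∑ j, (Complex.exp ((sw Wd t p j : ℂ) * Complex.I) - 1)) * (gg p : ℂ)) =
      Complex.exp (∑ j, ∑ i, (Complex.exp ((t j i : ℂ) * Complex.I) - 1) *
        ((∑ p ∈ Wd j i, gg p : ℝ) : ℂ)) := by
    rw [← Complex.exp_sum]
    congr 1
    simp only [sw_eq hd, sum_mul]
    rw [sum_comm]
    apply sum_congr rfl
    intro j _
    rw [sum_comm]
    apply sum_congr rfl
    intro i _
    push_cast
    rw [← hite, mul_sum]
    apply sum_congr rfl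
    intro p _
    split_ifs <;> simp
  rw [e3] at s2
  rw [hS]
  have e4 : cf X (fun a => ∑ p ∈ P, ξ p a) - Complex.exp (∑ j, ∑ i,
      (Complex.exp ((t j i : ℂ) * Complex.I) - 1) * ((∑ p ∈ Wd j i, gg p : ℝ) : ℂ)) =
      (cf X (fun a => ∑ p ∈ P, ξ p a) - cf (MM P) (fun a => ∑ p ∈ P, ξ p a)) +
      (cf (MM P) (fun a => ∑ p ∈ P, ξ p a) - Complex.exp (∑ j, ∑ i,
      (Complex.exp ((t j i : ℂ) * Complex.I) - 1) * ((∑ p ∈ Wd j i, gg p : ℝ) : ℂ))) := by ring
  rw [e4]
  refine (norm_add_le _ _).trans ?_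
  linarith

end win

end Pool.Agent.W2helper64.WJ
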