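import Pool.Agent.W2helper64.WJ.Pl

set_option autoImplicit false

/-!
# The joint Poisson law in windows
-/

namespace Pool.Agent.W2helper64.WJ

open Finset Filter Pool.Agent.Helper92K9.WI MeasureTheory ProbabilityTheory
open scoped Classical Topology

variable {ι : Type} [Fintype ι] [DecidableEq ι] {κ : Type} [Fintype κ] [DecidableEq κ]

/-- the number of Wilson primes in the window `(y ^ v, y ^ w]` -/
noncomputable def nw (β γ : ℤ) (v w : ℝ) (y a : ℕ) : ℕ :=
  ((Icc 1 ⌊(y : ℝ) ^ w⌋₊).filter (fun p : ℕ => (y : ℝ) ^ v < (p : ℝ) ∧ WW β γ p (a : ℤ))).card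

lemma nw_eq (β γ : ℤ) (v w : ℝ) (y a : ℕ) :
    (nw β γ v w y a : ℝ) = ∑ p ∈ win v w y, iw β γ p a := by
  unfold iw nw
  rw [sum_boole]
  congr 2
  ext p
  unfold win fl
  rw [mem_filter, mem_filter, mem_filter, mem_Icc, mem_Ioc]
  rw [Nat.floor_lt (by positivity)]
  constructor
  · rintro ⟨⟨h1, h2⟩, h3, h4⟩
    exact ⟨⟨⟨h3, h2⟩, h4.1⟩, h4⟩
  · rintro ⟨⟨⟨h3, h2⟩, h5⟩, h4⟩
    exact ⟨⟨h5.one_le, h2⟩, h3, h4⟩

/-- **the joint Poisson law** -/
theorem pois_law (β γ : ι → ℤ) (h : ∀ i j, i ≠ j → Ineq (β i) (γ i) (β j) (γ j))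
    (lo hi : ι → κ → ℝ) (hlo : ∀ j i, 0 < lo j i) (hhi : ∀ j i, lo j i ≤ hi j i)
    (hd : ∀ j i i', i ≠ i' → hi j i ≤ lo j i' ∨ hi j i' ≤ lo j i)
    (y X : ℕ → ℕ) (hy : Tendsto y atTop atTop)
    (hX : Tendsto (fun n => Real.log (X n) / Real.log (y n)) atTop atTop) (k : ι → κ → ℕ) :
    Tendsto (fun n => (((Icc 1 (X n)).filter (fun a => ∀ j i,
      nw (β j) (γ j) (lo j i) (hi j i) (y n) a = k j i)).card : ℝ) / X n) atTop
      (𝓝 (∏ j, ∏ i, ((lo j i / hi j i) * Real.log (hi j i / lo j i) ^ (k j i) /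
        ((k j i).factorial : ℝ)))) := by
  have hhi0 : ∀ j i, 0 < hi j i := fun j i => lt_of_lt_of_le (hlo j i) (hhi j i)
  have hlog0 : ∀ q : ι × κ, 0 ≤ Real.log (hi q.1 q.2 / lo q.1 q.2) := by
    intro q
    apply Real.log_nonneg
    rw [one_le_div (hlo _ _)]
    exact hhi _ _
  set lam : ι × κ → NNReal := fun q => ⟨Real.log (hi q.1 q.2 / lo q.1 q.2), hlog0 q⟩ with hlam
  have hXpos : ∀ᶠ n in atTop, 0 < X n := by
    filter_upwards [hX.eventually_ge_atTop 1] with n h6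
    rcases Nat.eq_zero_or_pos (X n) with h0 | h0
    · rw [h0] at h6
      simp only [CharP.cast_eq_zero, Real.log_zero, zero_div] at h6
      linarith
    · exact h0
  have key := lawG_tendsto (ι := ι × κ) (fun n => max (X n) 1) (fun n =>
      lt_of_lt_of_le one_pos (le_max_right _ _))
    (fun n a q => (nw (β q.1) (γ q.1) (lo q.1 q.2) (hi q.1 q.2) (y n) a : ℝ)) (poi lam)
    (fun t => by
      rw [poi_charFun]
      have h1 := pois_cf β γ h (fun j i => t (j, i)) lo hi hlo hhi hd y (fun n => max (X n) 1) hy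
        (by
          refine hX.congr' ?_
          filter_upwards [hXpos] with n hn
          rw [max_eq_left hn])
      have e1 : ∑ q : ι × κ, (Complex.exp ((t q : ℂ) * Complex.I) - 1) * ((lam q : ℝ) : ℂ) =
          ∑ j, ∑ i, (Complex.exp ((t (j, i) : ℂ) * Complex.I) - 1) *
            ((Real.log (hi j i / lo j i) : ℝ) : ℂ) := by
        rw [← univ_product_univ, sum_product]
        rfl
      rw [e1]
      refine h1.congr fun n => ?_
      congr 1
      funext a
      rw [← univ_product_univ, sum_product]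
      apply sum_congr rfl
      intro j _
      apply sum_congr rfl
      intro i _
      rw [nw_eq])
    (box univ (fun q => k q.1 q.2)) (box_closed _ _).measurableSet (poi_frontier lam _ _)
  rw [poi_box] at key
  have e2 : ∏ q : ι × κ, (Real.exp (-(lam q : ℝ)) * (lam q : ℝ) ^ (k q.1 q.2) /
      ((k q.1 q.2).factorial : ℝ)) = ∏ j, ∏ i, ((lo j i / hi j i) *
        Real.log (hi j i / lo j i) ^ (k j i) / ((k j i).factorial : ℝ)) := by
    rw [← univ_product_univ, prod_product]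
    apply prod_congr rfl
    intro j _
    apply prod_congr rfl
    intro i _
    have e3 : ((lam (j, i) : NNReal) : ℝ) = Real.log (hi j i / lo j i) := rfl
    rw [e3]
    congr 2
    rw [← Real.log_inv, inv_div, Real.exp_log (div_pos (hlo j i) (hhi0 j i))]
  rw [e2] at key
  refine key.congr' ?_
  filter_upwards [hXpos] with n hn
  rw [max_eq_left hn]
  congr 2
  have : ((Icc 1 (X n)).filter (fun a => WithLp.toLp 2
      (fun q : ι × κ => (nw (β q.1) (γ q.1) (lo q.1 q.2) (hi q.1 q.2) (y n) a : ℝ)) ∈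
      box univ (fun q : ι × κ => k q.1 q.2))) = ((Icc 1 (X n)).filter (fun a => ∀ j i,
      nw (β j) (γ j) (lo j i) (hi j i) (y n) a = k j i)) := by
    ext a
    rw [mem_filter, mem_filter]
    refine and_congr_right fun _ => ?_
    constructor
    · intro h1 j i
      have h2 : |(nw (β j) (γ j) (lo j i) (hi j i) (y n) a : ℝ) - k j i| ≤ 1 / 2 :=
        h1 (j, i) (mem_univ _)
      set m := nw (β j) (γ j) (lo j i) (hi j i) (y n) a with hm
      rw [abs_le] at h2
      have h3 : ((2 * (m : ℤ) : ℤ) : ℝ) ≤ ((2 * (k j i : ℤ) + 1 : ℤ) : ℝ) := by push_cast; linarith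
      have h4 : ((2 * (k j i : ℤ) - 1 : ℤ) : ℝ) ≤ ((2 * (m : ℤ) : ℤ) : ℝ) := by push_cast; linarith
      have h5 : 2 * (m : ℤ) ≤ 2 * (k j i : ℤ) + 1 := by exact_mod_cast h3
      have h6 : 2 * (k j i : ℤ) - 1 ≤ 2 * (m : ℤ) := by exact_mod_cast h4
      omega
    · intro h1 q _
      change |(nw (β q.1) (γ q.1) (lo q.1 q.2) (hi q.1 q.2) (y n) a : ℝ) - k q.1 q.2| ≤ 1 / 2
      rw [h1 q.1 q.2]
      norm_num
  rw [this]

end Pool.Agent.W2helper64.WJ
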